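import Mathlib
import Pool.Agent.Lib.MP_bf61d2_nt.Trim.Structure

set_option autoImplicit false

/-!
Mean values of the coefficients `a_n` of `L(E/K, s)`: exact statements of the modules.
-/

namespace Pool.Agent.Lib.MP_bf61d2_nt.MV59

open MeasureTheory Set Filter Topology

/-- The summatory function. -/
noncomputable def AA (a : ℕ → ℂ) (u : ℝ) : ℂ := ∑ k ∈ Finset.Icc 1 ⌊u⌋₊, a k

/-- (PL) Plancherel for the summatory function of a Dirichlet series. -/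
def StPL : Prop := ∀ (a : ℕ → ℂ) (c c' : ℝ), 0 < c' → c' < c → LSeriesSummable a c' →
  IntegrableOn (fun u : ℝ => ‖AA a u‖ ^ 2 * u ^ (-(2 * c + 1))) (Ioi 1) ∧
  Integrable (fun t : ℝ => ‖LSeries a (c + t * Complex.I)‖ ^ 2 / (c ^ 2 + t ^ 2)) ∧
  ∫ u in Ioi (1 : ℝ), ‖AA a u‖ ^ 2 * u ^ (-(2 * c + 1)) =
    (2 * Real.pi)⁻¹ * ∫ t : ℝ, ‖LSeries a (c + t * Complex.I)‖ ^ 2 / (c ^ 2 + t ^ 2)

/-- (CH) Chebyshev for the places of degree one, in relative intervals of bounded length. -/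
def StCH (K : Type*) [Field K] [NumberField K] : Prop := ∃ C : ℝ, ∀ δ : ℝ, 0 < δ → δ ≤ 1 →
  ∀ n : ℕ, 1 ≤ n → ∑' m : ℕ, (if (n : ℝ) ≤ 3 * m ∧ (m : ℝ) ≤ 3 * n ∧ m.Prime then
    (rr K m : ℝ) * Real.log m * (m : ℝ) ^ (-(1 + δ)) else 0) ≤ C * (n : ℝ) ^ (-δ)

/-- (L2) Local mean square of the derivative of the prime sum; `C` depends on `K` only. -/
def StL2 (K : Type*) [Field K] [NumberField K] : Prop :=
  ∃ C : ℝ, ∀ (W : WeierstrassCurve K) (δ : ℝ), 0 < δ → δ ≤ 1 → ∀ x : ℝ,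
    ∫ t in x..(x + 1), ‖deriv (LSeries fun n => (cp W n : ℂ)) (((1 + δ : ℝ) : ℂ) + t * Complex.I)‖ ^ 2
      ≤ C / δ

/-- (RD) The derivative of the remainder is bounded; `C` depends on `K` only. -/
def StRD (K : Type*) [Field K] [NumberField K] : Prop :=
  ∃ C : ℝ, ∀ (W : WeierstrassCurve K) (s : ℂ), 3 / 2 < s.re → ‖deriv (Rem W) s‖ ≤ C

/-- (SQ) The weighted mean square of `A(u) log u`; `C` depends on `K` only. -/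
def StSQ (K : Type*) [Field K] [NumberField K] : Prop :=
  ∃ C : ℝ, ∀ (W : WeierstrassCurve K) (δ : ℝ), 0 < δ → δ ≤ 1 → ∀ G : ℝ, 0 ≤ G →
    (∀ t : ℝ, |t| ≤ δ ^ (-(5 : ℝ)) →
      ‖W.LSeries (((3 / 2 + δ : ℝ) : ℂ) + t * Complex.I)‖ ≤ G) →
    IntegrableOn (fun u : ℝ => ‖AA (fun n => (W.LFunction n : ℂ)) u‖ ^ 2 * Real.log u ^ 2 *
      u ^ (-(4 + 2 * δ))) (Ioi 1) ∧
    ∫ u in Ioi (1 : ℝ), ‖AA (fun n => (W.LFunction n : ℂ)) u‖ ^ 2 * Real.log u ^ 2 *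
      u ^ (-(4 + 2 * δ)) ≤ C * (G ^ 2 + 1) / δ

/-- (PH) One scale controls all larger scales. -/
def StPH (K : Type*) [Field K] [NumberField K] : Prop :=
  ∃ C : ℝ, ∀ (W : WeierstrassCurve K) (δ₀ : ℝ), 0 < δ₀ → δ₀ ≤ 1 → ∀ G : ℝ, 1 ≤ G →
    (∀ t : ℝ, |t| ≤ 2 * δ₀ ^ (-(5 : ℝ)) →
      ‖W.LSeries (((3 / 2 + δ₀ : ℝ) : ℂ) + t * Complex.I)‖ ≤ G) →
    ∀ δ t : ℝ, δ₀ ≤ δ → δ ≤ 1 → |t| ≤ δ₀ ^ (-(5 : ℝ)) →
      ‖W.LSeries (((3 / 2 + δ : ℝ) : ℂ) + t * Complex.I)‖ ≤ C * G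

/-- (BT) Brun-Titchmarsh for rational primes in `(y, y + h]`, `h ≥ y^(2/3)`. -/
def StBT : Prop := ∃ C : ℝ, ∀ y h : ℝ, 1 ≤ y → y ^ (2 / 3 : ℝ) ≤ h → h ≤ y →
  ∑ p ∈ (Finset.Ioc ⌊y⌋₊ ⌊y + h⌋₊).filter Nat.Prime, Real.log p ≤ C * h

/-- (PW) Pointwise bound; `C` depends on `K` only. -/
def StPW (K : Type*) [Field K] [NumberField K] : Prop :=
  ∃ C : ℝ, ∀ (W : WeierstrassCurve K) (x : ℝ), 3 ≤ x → ∀ G : ℝ, 1 ≤ G →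
    (∀ t : ℝ, |t| ≤ 2 * Real.log x ^ (5 : ℝ) →
      ‖W.LSeries (((3 / 2 + 1 / Real.log x : ℝ) : ℂ) + t * Complex.I)‖ ≤ G) →
    ‖AA (fun n => (W.LFunction n : ℂ)) x‖ ≤
      C * x ^ (3 / 2 : ℝ) * G * (1 + Real.log (Real.log x)) / Real.log x

end Pool.Agent.Lib.MP_bf61d2_nt.MV59
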