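import Mathlib
import Pool.Agent.Lib.MP_bf61d2_nt.Trim.Analytic
import Pool.Agent.Lib.MP_bf61d2_nt.Trim.Hardy.LogL
import Pool.Agent.Lib.MP_bf61d2_nt.Trim.Local
import Pool.Agent.Lib.MP_bf61d2_nt.Trim.LocalCurve
import Pool.Agent.Lib.MP_bf61d2_nt.Trim.MV59.Stmts
import Pool.Agent.Lib.MP_bf61d2_nt.Trim.Places
import Pool.Agent.Lib.MP_bf61d2_nt.Trim.Structure

set_option autoImplicit false

/-!
Mean values (MP_bf61d2_nt), module RD: the derivative of the remainder is bounded.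
-/

namespace NumberField
end NumberField

namespace Pool.Agent.Lib.MP_bf61d2_nt.MV59

open NumberField IsDedekindDomain Set Filter Topology

namespace RD38

variable {K : Type*} [Field K] [NumberField K] (W : WeierstrassCurve K)
  (v : HeightOneSpectrum (𝓞 K))

lemma nm_ne : (nm v : ℂ) ≠ 0 := by
  have := nm_pos v
  exact_mod_cast this.ne'

lemma hasDerivAt_cpow (s : ℂ) : HasDerivAt (fun s : ℂ => (nm v : ℂ) ^ (-s))
    (-(Real.log (nm v) : ℂ) * (nm v : ℂ) ^ (-s)) s := by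
  have h1 := ((hasDerivAt_id s).neg).const_cpow (c := (nm v : ℂ)) (Or.inl (nm_ne v))
  refine h1.congr_deriv ?_
  rw [← Complex.natCast_log]
  simp only [id_eq, Pi.neg_apply]
  ring

lemma hasDerivAt_zv (s : ℂ) : HasDerivAt (zv W v)
    (-(Real.log (nm v) : ℂ) * (tr W v * (nm v : ℂ) ^ (-s) - 2 * (bb W v * ((nm v : ℂ) ^ (-s)) ^ 2))) s := by
  have h1 := hasDerivAt_cpow v s
  have h2 := (h1.const_mul (tr W v : ℂ)).sub ((h1.pow 2).const_mul (bb W v : ℂ))
  refine (h2.congr_of_eventuallyEq (Eventually.of_forall fun w => rfl)).congr_deriv ?_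
  push_cast
  ring

lemma norm_dzv_le (s : ℂ) : ‖(-(Real.log (nm v) : ℂ) * (tr W v * (nm v : ℂ) ^ (-s) -
    2 * (bb W v * ((nm v : ℂ) ^ (-s)) ^ 2)))‖ ≤ 2 * Real.log (nm v) * xi W v s.re := by
  have hlog : 0 ≤ Real.log (nm v) := Real.log_natCast_nonneg _
  rw [norm_mul, norm_neg, Complex.norm_real, Real.norm_eq_abs, abs_of_nonneg hlog]
  have h1 : ‖(tr W v * (nm v : ℂ) ^ (-s) - 2 * (bb W v * ((nm v : ℂ) ^ (-s)) ^ 2))‖ ≤
      2 * xi W v s.re := by
    refine (norm_sub_le _ _).trans ?_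
    rw [norm_mul, norm_mul, norm_mul, norm_pow, norm_cpow, Complex.norm_intCast,
      Complex.norm_intCast, Complex.norm_ofNat, xi]
    have h2 : 0 ≤ |(tr W v : ℝ)| * (nm v : ℝ) ^ (-s.re) := by positivity
    linarith
  calc Real.log (nm v) * _ ≤ Real.log (nm v) * (2 * xi W v s.re) :=
        mul_le_mul_of_nonneg_left h1 hlog
    _ = _ := by ring

lemma hasDerivAt_rho {s : ℂ} (hs : 3 / 2 ≤ s.re) : HasDerivAt (rho W v)
    ((-(Real.log (nm v) : ℂ) * (tr W v * (nm v : ℂ) ^ (-s) - 2 * (bb W v * ((nm v : ℂ) ^ (-s)) ^ 2))) /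
      (1 - zv W v s) + (Real.log (nm v) : ℂ) * (cc W v * (nm v : ℂ) ^ (-(s - 1 / 2)))) s := by
  have h1 := norm_zv_lt W v hs
  have hz := hasDerivAt_zv W v s
  have h2 : (1 - zv W v s) ∈ Complex.slitPlane := by
    rw [sub_eq_add_neg]
    exact Complex.mem_slitPlane_of_norm_lt_one (by rw [norm_neg]; linarith)
  have h3 : HasDerivAt (fun s => 1 - zv W v s)
      (-(-(Real.log (nm v) : ℂ) * (tr W v * (nm v : ℂ) ^ (-s) -
        2 * (bb W v * ((nm v : ℂ) ^ (-s)) ^ 2)))) s := by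
    have := (hasDerivAt_const s (1 : ℂ)).sub hz
    exact this.congr_deriv (by ring)
  have h4 := (h3.clog h2).neg
  have h5 : HasDerivAt (fun s : ℂ => (nm v : ℂ) ^ (-(s - 1 / 2)))
      (-(Real.log (nm v) : ℂ) * (nm v : ℂ) ^ (-(s - 1 / 2))) s := by
    have h6 := (((hasDerivAt_id s).sub_const (1 / 2 : ℂ)).neg).const_cpow (c := (nm v : ℂ))
      (Or.inl (nm_ne v))
    refine h6.congr_deriv ?_
    rw [← Complex.natCast_log]
    simp only [id_eq, Pi.neg_apply]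
    ring
  have h7 := h4.sub (h5.const_mul (cc W v : ℂ))
  refine (h7.congr_of_eventuallyEq (Eventually.of_forall fun w => rfl)).congr_deriv ?_
  have h8 : (1 - zv W v s) ≠ 0 := Complex.slitPlane_ne_zero h2
  field_simp
  ring

lemma norm_one_sub_inv {s : ℂ} (hs : 3 / 2 ≤ s.re) : ‖(1 - zv W v s)⁻¹‖ ≤ 25 := by
  have h1 := norm_zv_lt W v hs
  have h2 : 1 / 25 ≤ ‖1 - zv W v s‖ := by
    have := norm_sub_norm_le (1 : ℂ) (zv W v s)
    rw [norm_one] at this
    linarith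
  rw [norm_inv, inv_le_comm₀ (by linarith) (by norm_num)]
  linarith

lemma log_le_four : Real.log (nm v) ≤ 4 * (nm v : ℝ) ^ (1 / 4 : ℝ) := by
  have := Real.log_le_rpow_div (nm_pos v).le (ε := 1 / 4) (by norm_num)
  linarith

lemma norm_drho_le {s : ℂ} (hs : 3 / 2 ≤ s.re) :
    ‖deriv (rho W v) s‖ ≤ 4000 * (pr v : ℝ) ^ (-(3 / 2) : ℝ) := by
  rw [(hasDerivAt_rho W v hs).deriv]
  have hp0 : (0 : ℝ) < pr v := by exact_mod_cast (pr_prime v).pos
  have hq := nm_pos v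
  have hlog : 0 ≤ Real.log (nm v) := Real.log_natCast_nonneg _
  have hl4 := log_le_four v
  have hinv := norm_one_sub_inv W v hs
  set D : ℂ := (-(Real.log (nm v) : ℂ) * (tr W v * (nm v : ℂ) ^ (-s) -
    2 * (bb W v * ((nm v : ℂ) ^ (-s)) ^ 2))) with hD
  have hDle := norm_dzv_le W v s
  rw [← hD] at hDle
  by_cases hp : pr v = 2
  · -- even places
    have e : (cc W v : ℂ) = 0 := by
      rw [cc, if_neg (by simp [hp])]; simp
    rw [e, zero_mul, mul_zero, add_zero, div_eq_mul_inv, norm_mul]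
    obtain ⟨-, ha, -, -⟩ := lp_eq W v
    have ha' : |(tr W v : ℝ)| ≤ nm v := by exact_mod_cast ha
    have hb := bb_term_le W v s.re
    have hw := wt_le v hs
    have hw0 := wt_pos v s.re
    have h4 : (2 : ℝ) ≤ nm v := by exact_mod_cast one_lt_nm v
    have h5 : |(tr W v : ℝ)| * (nm v : ℝ) ^ (-s.re) ≤ (nm v : ℝ) ^ (-(1 / 2) : ℝ) := by
      calc |(tr W v : ℝ)| * (nm v : ℝ) ^ (-s.re) ≤ nm v * (nm v : ℝ) ^ (-(3 / 2) : ℝ) := by
            refine mul_le_mul ha' ?_ (by positivity) hq.le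
            exact Real.rpow_le_rpow_of_exponent_le (by linarith) (by linarith)
        _ = (nm v : ℝ) ^ (-(1 / 2) : ℝ) := by
            nth_rewrite 1 [← Real.rpow_one (nm v : ℝ)]
            rw [← Real.rpow_add hq]
            norm_num
    have h6 : wt v s.re ^ 2 ≤ (nm v : ℝ) ^ (-(1 / 2) : ℝ) := by
      calc wt v s.re ^ 2 ≤ (1 / nm v) ^ 2 := pow_le_pow_left₀ hw0.le hw 2
        _ ≤ 1 / nm v := by
            have h7 : 1 / (nm v : ℝ) ≤ 1 := by rw [div_le_one hq]; linarith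
            have h8 : 0 < 1 / (nm v : ℝ) := by positivity
            nlinarith
        _ = (nm v : ℝ) ^ (-1 : ℝ) := by rw [Real.rpow_neg_one, one_div]
        _ ≤ (nm v : ℝ) ^ (-(1 / 2) : ℝ) :=
            Real.rpow_le_rpow_of_exponent_le (by linarith) (by norm_num)
    have h7 : xi W v s.re ≤ 2 * (nm v : ℝ) ^ (-(1 / 2) : ℝ) := by
      rw [xi]; linarith
    have h8 : (nm v : ℝ) ^ (1 / 4 : ℝ) * (nm v : ℝ) ^ (-(1 / 2) : ℝ) ≤ 1 := by
      rw [← Real.rpow_add hq]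
      exact Real.rpow_le_one_of_one_le_of_nonpos (by linarith) (by norm_num)
    have h9 : ‖D‖ ≤ 16 := by
      calc ‖D‖ ≤ 2 * Real.log (nm v) * xi W v s.re := hDle
        _ ≤ 2 * (4 * (nm v : ℝ) ^ (1 / 4 : ℝ)) * (2 * (nm v : ℝ) ^ (-(1 / 2) : ℝ)) := by
            have := xi_nonneg W v s.re
            gcongr
        _ = 16 * ((nm v : ℝ) ^ (1 / 4 : ℝ) * (nm v : ℝ) ^ (-(1 / 2) : ℝ)) := by ring
        _ ≤ 16 := by linarith
    have h10 : (1 / 4 : ℝ) ≤ (pr v : ℝ) ^ (-(3 / 2) : ℝ) := by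
      rw [hp]
      have h11 : ((2 : ℕ) : ℝ) ^ (-2 : ℝ) ≤ ((2 : ℕ) : ℝ) ^ (-(3 / 2) : ℝ) :=
        Real.rpow_le_rpow_of_exponent_le (by norm_num) (by norm_num)
      have h12 : ((2 : ℕ) : ℝ) ^ (-2 : ℝ) = 1 / 4 := by
        rw [Real.rpow_neg (by norm_num)]
        norm_num
      linarith
    calc ‖D‖ * ‖(1 - zv W v s)⁻¹‖ ≤ 16 * 25 := by
          exact mul_le_mul h9 hinv (norm_nonneg _) (by norm_num)
      _ ≤ _ := by linarith
  · obtain ⟨h1, -⟩ := xi_le_of_odd W v hp hs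
    have h2 := wt_le v hs
    have hw := wt_pos v s.re
    have hxi : xi W v s.re ≤ 3 / nm v := by
      calc xi W v s.re ≤ 3 * wt v s.re := h1
        _ ≤ 3 * (1 / nm v) := by gcongr
        _ = 3 / nm v := by ring
    have hz : ‖zv W v s‖ ≤ 3 / nm v := (norm_zv_le W v s).trans hxi
    have h3 : ‖D‖ ≤ 6 * Real.log (nm v) / nm v := by
      calc ‖D‖ ≤ 2 * Real.log (nm v) * xi W v s.re := hDle
        _ ≤ 2 * Real.log (nm v) * (3 / nm v) := by gcongr
        _ = _ := by ring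
    by_cases hd : nm v = pr v
    · have e1 : (cc W v : ℂ) * (nm v : ℂ) ^ (-(s - 1 / 2)) = tr W v * (nm v : ℂ) ^ (-s) := by
        rw [sqrt_cpow v s, cc, if_pos ⟨hp, hd⟩]
        push_cast
        ring
      have hne : (1 - zv W v s) ≠ 0 := by
        intro h
        have h4 : ‖(1 : ℂ)‖ = ‖zv W v s‖ := by rw [sub_eq_zero.mp h]
        rw [norm_one] at h4
        have := norm_zv_lt W v hs
        linarith
      have e : D / (1 - zv W v s) + (Real.log (nm v) : ℂ) * (cc W v * (nm v : ℂ) ^ (-(s - 1 / 2))) =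
          D * zv W v s * (1 - zv W v s)⁻¹ +
            2 * ((Real.log (nm v) : ℂ) * (bb W v * ((nm v : ℂ) ^ (-s)) ^ 2)) := by
        rw [e1]
        have h4 : (Real.log (nm v) : ℂ) * (tr W v * (nm v : ℂ) ^ (-s)) =
            -D + 2 * ((Real.log (nm v) : ℂ) * (bb W v * ((nm v : ℂ) ^ (-s)) ^ 2)) := by
          rw [hD]; ring
        rw [h4, div_eq_mul_inv]
        have h5 : (1 - zv W v s) * (1 - zv W v s)⁻¹ = 1 := mul_inv_cancel₀ hne
        linear_combination D * h5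
      rw [e]
      have h4 : ‖(bb W v : ℂ) * ((nm v : ℂ) ^ (-s)) ^ 2‖ ≤ 1 / (nm v : ℝ) ^ 2 := by
        rw [norm_mul, norm_pow, norm_cpow, Complex.norm_intCast]
        refine (bb_term_le W v s.re).trans ?_
        calc wt v s.re ^ 2 ≤ (1 / nm v) ^ 2 := pow_le_pow_left₀ hw.le h2 2
          _ = 1 / (nm v : ℝ) ^ 2 := by ring
      have h5 : ‖D * zv W v s * (1 - zv W v s)⁻¹‖ ≤ 450 * Real.log (nm v) / (nm v : ℝ) ^ 2 := by
        rw [norm_mul, norm_mul]
        calc ‖D‖ * ‖zv W v s‖ * ‖(1 - zv W v s)⁻¹‖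
            ≤ (6 * Real.log (nm v) / nm v) * (3 / nm v) * 25 := by gcongr
          _ = _ := by ring
      have h6 : ‖2 * ((Real.log (nm v) : ℂ) * ((bb W v : ℂ) * ((nm v : ℂ) ^ (-s)) ^ 2))‖ ≤
          2 * Real.log (nm v) / (nm v : ℝ) ^ 2 := by
        rw [norm_mul, norm_mul, Complex.norm_ofNat, Complex.norm_real, Real.norm_eq_abs,
          abs_of_nonneg hlog]
        calc 2 * (Real.log (nm v) * _) ≤ 2 * (Real.log (nm v) * (1 / (nm v : ℝ) ^ 2)) := by gcongr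
          _ = _ := by ring
      have h7 : (nm v : ℝ) ^ (1 / 4 : ℝ) / (nm v : ℝ) ^ 2 ≤ (pr v : ℝ) ^ (-(3 / 2) : ℝ) := by
        rw [← hd, ← Real.rpow_natCast, ← Real.rpow_sub hq]
        have h8 : (1 : ℝ) ≤ nm v := by exact_mod_cast (one_lt_nm v).le
        exact Real.rpow_le_rpow_of_exponent_le h8 (by norm_num)
      calc _ ≤ ‖D * zv W v s * (1 - zv W v s)⁻¹‖ +
            ‖2 * ((Real.log (nm v) : ℂ) * ((bb W v : ℂ) * ((nm v : ℂ) ^ (-s)) ^ 2))‖ :=
            norm_add_le _ _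
        _ ≤ 450 * Real.log (nm v) / (nm v : ℝ) ^ 2 + 2 * Real.log (nm v) / (nm v : ℝ) ^ 2 :=
            add_le_add h5 h6
        _ = 452 * (Real.log (nm v) / (nm v : ℝ) ^ 2) := by ring
        _ ≤ 452 * (4 * (nm v : ℝ) ^ (1 / 4 : ℝ) / (nm v : ℝ) ^ 2) := by gcongr
        _ = 1808 * ((nm v : ℝ) ^ (1 / 4 : ℝ) / (nm v : ℝ) ^ 2) := by ring
        _ ≤ 1808 * (pr v : ℝ) ^ (-(3 / 2) : ℝ) := by gcongr
        _ ≤ _ := by
            have : 0 < (pr v : ℝ) ^ (-(3 / 2) : ℝ) := by positivity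
            linarith
    · have e : (cc W v : ℂ) = 0 := by
        rw [cc, if_neg (by tauto)]; simp
      rw [e, zero_mul, mul_zero, add_zero, div_eq_mul_inv, norm_mul]
      have h4 : ((pr v : ℝ)) ^ 2 ≤ nm v := by exact_mod_cast sq_pr_le_nm v hd
      have h5 : (nm v : ℝ) ^ (1 / 4 : ℝ) / nm v ≤ (pr v : ℝ) ^ (-(3 / 2) : ℝ) := by
        have h6 : (nm v : ℝ) ^ (1 / 4 : ℝ) / nm v = (nm v : ℝ) ^ (-(3 / 4) : ℝ) := by
          nth_rewrite 2 [← Real.rpow_one (nm v : ℝ)]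
          rw [← Real.rpow_sub hq]
          norm_num
        have h7 : (pr v : ℝ) ^ (-(3 / 2) : ℝ) = ((pr v : ℝ) ^ 2) ^ (-(3 / 4) : ℝ) := by
          rw [← Real.rpow_natCast, ← Real.rpow_mul hp0.le]
          norm_num
        rw [h6, h7]
        exact Real.rpow_le_rpow_of_nonpos (by positivity) h4 (by norm_num)
      calc ‖D‖ * ‖(1 - zv W v s)⁻¹‖ ≤ (6 * Real.log (nm v) / nm v) * 25 := by gcongr
        _ = 150 * (Real.log (nm v) / nm v) := by ring
        _ ≤ 150 * (4 * (nm v : ℝ) ^ (1 / 4 : ℝ) / nm v) := by gcongr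
        _ = 600 * ((nm v : ℝ) ^ (1 / 4 : ℝ) / nm v) := by ring
        _ ≤ 600 * (pr v : ℝ) ^ (-(3 / 2) : ℝ) := by gcongr
        _ ≤ _ := by
            have : 0 < (pr v : ℝ) ^ (-(3 / 2) : ℝ) := by positivity
            linarith

end RD38

/-- RD -/
theorem rd (K : Type*) [Field K] [NumberField K] : StRD K := by
  have hsum : Summable fun v : HeightOneSpectrum (𝓞 K) => 4000 * (pr v : ℝ) ^ (-(3 / 2) : ℝ) :=
    summable_pr (h := fun n : ℕ => 4000 * (n : ℝ) ^ (-(3 / 2) : ℝ)) (fun n => by positivity)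
      ((Real.summable_nat_rpow.mpr (by norm_num)).mul_left _)
  refine ⟨∑' v : HeightOneSpectrum (𝓞 K), 4000 * (pr v : ℝ) ^ (-(3 / 2) : ℝ), fun W s hs => ?_⟩
  have h1 := Complex.hasSum_deriv_of_summable_norm (F := fun v => rho W v) summable_bound
    (fun v => Hardy.differentiableOn_rho W v) (Hardy.isOpen_half (3 / 2))
    (fun v w hw => norm_rho_le W v (le_of_lt hw)) (z := s) hs
  have h2 : deriv (Rem W) s = ∑' v, deriv (rho W v) s := h1.tsum_eq.symm
  rw [h2]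
  exact tsum_of_norm_bounded hsum.hasSum fun v => RD38.norm_drho_le W v hs.le

end Pool.Agent.Lib.MP_bf61d2_nt.MV59
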