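import Mathlib
import Pool.Agent.Lib.MP_bf61d2_nt.Trim.Structure

set_option autoImplicit false

/-!
Mean values of the coefficients `a_n` of `L(E/K, s)`: statements for the pointwise bound.
-/

namespace Pool.Agent.Lib.MP_bf61d2_nt.MV59

open MeasureTheory Set Filter Topology

/-- (AB) Absolute convergence with the trivial bound; `C` depends on `K` only. -/
def StAB (K : Type*) [Field K] [NumberField K] : Prop :=
  ∃ C : ℝ, ∀ (W : WeierstrassCurve K) (δ : ℝ), 0 < δ → δ ≤ 1 →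
    Summable (fun n : ℕ => |(W.LFunction n : ℝ)| * (n : ℝ) ^ (-(3 / 2 + δ))) ∧
    ∑' n : ℕ, |(W.LFunction n : ℝ)| * (n : ℝ) ^ (-(3 / 2 + δ)) ≤ C / δ ^ 2

/-- (CV) The convolution identity `a log = a * Λ`, with `Λ = Λ₁ + Λ₂`, `Λ₁` on the places of degree
one and odd residue characteristic, `Λ₂` absolutely convergent beyond `3/2`. -/
def StCV (K : Type*) [Field K] [NumberField K] : Prop :=
  ∃ θ C : ℝ, 0 < θ ∧ θ ≤ 1 / 4 ∧ ∀ W : WeierstrassCurve K, ∃ Λ₂ : ℕ → ℝ, Λ₂ 0 = 0 ∧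
    Summable (fun k : ℕ => |Λ₂ k| * (k : ℝ) ^ (-(3 / 2) + θ)) ∧
    ∑' k : ℕ, |Λ₂ k| * (k : ℝ) ^ (-(3 / 2) + θ) ≤ C ∧
    ∀ n : ℕ, 1 ≤ n → (W.LFunction n : ℝ) * Real.log n =
      ∑ p ∈ n.divisorsAntidiagonal, (W.LFunction p.1 : ℝ) *
        (cp W p.2 * Real.sqrt p.2 * Real.log p.2 + Λ₂ p.2)

end Pool.Agent.Lib.MP_bf61d2_nt.MV59
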