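import Mathlib
import Pool.Agent.Lib.MP_bf61d2_nt.Trim.Analytic
import Pool.Agent.Lib.MP_bf61d2_nt.Trim.Euler
import Pool.Agent.Lib.MP_bf61d2_nt.Trim.Hardy.LogL
import Pool.Agent.Lib.MP_bf61d2_nt.Trim.Local
import Pool.Agent.Lib.MP_bf61d2_nt.Trim.LocalCurve
import Pool.Agent.Lib.MP_bf61d2_nt.Trim.MV59.Stmts2
import Pool.Agent.Lib.MP_bf61d2_nt.Trim.Places
import Pool.Agent.Lib.MP_bf61d2_nt.Trim.PrimeSum

set_option autoImplicit false

/-!
Mean values (MP_bf61d2_nt), module AB: the trivial bound for the absolute values.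
-/

namespace NumberField
end NumberField

namespace LSeries
end LSeries

namespace Pool.Agent.Lib.MP_bf61d2_nt.MV59

open NumberField IsDedekindDomain Set Filter Topology ArithmeticFunction LSeries

namespace AB38

/-- The sum over the primes near `1`, for all `0 < x ≤ 1`. -/
lemma PS_le (K : Type*) [Field K] [NumberField K] : ∃ C : ℝ, 0 ≤ C ∧ ∀ x : ℝ, 0 < x → x ≤ 1 →
    PS K (1 + x) ≤ Real.log (1 / x) + C := by
  obtain ⟨C₁, hC₁0, hC₁⟩ := PS_bound K
  obtain ⟨b, hb1, hb⟩ := mem_nhdsGT_iff_exists_Ioo_subset.1 hC₁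
  have hb1' : (1 : ℝ) < b := hb1
  set y : ℝ := (b - 1) / 2 with hy
  have hy0 : 0 < y := by rw [hy]; linarith
  have hPS0 : 0 ≤ PS K (1 + y) := tsum_nonneg fun v => (wp_pos _ v).le
  refine ⟨C₁ + PS K (1 + y), by positivity, fun x hx hx1 => ?_⟩
  rcases lt_or_ge x y with h | h
  · have h1 : |PS K (1 + x) - Real.log (1 / (1 + x - 1))| ≤ C₁ := hb ⟨by linarith, by linarith⟩
    rw [add_sub_cancel_left] at h1
    have := (abs_le.1 h1).2
    linarith
  · have h1 := Hardy.PS_anti (K := K) (σ := 1 + y) (τ := 1 + x) (by linarith) (by linarith)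
    have h2 : 0 ≤ Real.log (1 / x) := Real.log_nonneg (by rw [le_div_iff₀ hx]; linarith)
    linarith

section generic

variable {ι : Type*} {f : ι → ArithmeticFunction ℤ}

/-- A bound for the absolute values of the coefficients of a formal Euler product. -/
theorem sum_abs_le (hcof : ∀ n, ∀ᶠ i in cofinite, f i n = (1 : ArithmeticFunction ℤ) n) {σ : ℝ}
    {x : ι → ℝ} (hx : Summable x) (hx0 : ∀ i, 0 ≤ x i)
    (hsum : ∀ i, LSeriesSummable (fun n => ((f i n : ℤ) : ℂ)) σ)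
    (hle : ∀ i, ∑' n, ‖term (fun n => ((f i n : ℤ) : ℂ)) (σ : ℂ) n‖ ≤ 1 + x i) (T : Finset ℕ) :
    ∑ n ∈ T, ‖term (fun n => ((eulerProduct f n : ℤ) : ℂ)) (σ : ℂ) n‖ ≤ Real.exp (∑' i, x i) := by
  classical
  set β : ι → ℝ := fun i => ∑' n, ‖term (fun n => ((f i n : ℤ) : ℂ)) (σ : ℂ) n‖ with hβ
  have hβ0 : ∀ i, 0 ≤ β i := fun i => tsum_nonneg fun _ => norm_nonneg _
  set B : ℝ := Real.exp (∑' i, x i) with hB
  have habs : ∀ i, LSeriesHasSum (fun n => ((absA (f i) n : ℤ) : ℂ)) (σ : ℂ) (β i : ℂ) := by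
    intro i
    have e : term (fun n => ((absA (f i) n : ℤ) : ℂ)) (σ : ℂ) =
        fun n => ((‖term (fun n => ((f i n : ℤ) : ℂ)) (σ : ℂ) n‖ : ℝ) : ℂ) := by
      ext n; exact term_abs (f i) σ n
    rw [LSeriesHasSum, e]
    exact Complex.hasSum_ofReal.mpr (hsum i).norm.hasSum
  have hbound : ∀ (S : Finset ι) (T : Finset ℕ),
      ∑ n ∈ T, ‖term (fun n => (((∏ i ∈ S, absA (f i)) n : ℤ) : ℂ)) (σ : ℂ) n‖ ≤ B := by
    intro S T
    have h := hasSum_prod habs S
    have e : term (fun n => (((∏ i ∈ S, absA (f i)) n : ℤ) : ℂ)) (σ : ℂ) =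
        fun n => ((‖term (fun n => (((∏ i ∈ S, absA (f i)) n : ℤ) : ℂ)) (σ : ℂ) n‖ : ℝ) : ℂ) := by
      ext n
      rw [← term_abs]
      congr 1
      ext n
      rw [abs_of_nonneg (prodAbs_nonneg S n)]
    rw [LSeriesHasSum, e, ← Complex.ofReal_prod, Complex.hasSum_ofReal] at h
    refine (sum_le_hasSum T (fun _ _ => norm_nonneg _) h).trans ?_
    calc ∏ i ∈ S, β i ≤ ∏ i ∈ S, Real.exp (x i) := by
          refine Finset.prod_le_prod (fun i _ => hβ0 i) fun i _ => (hle i).trans ?_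
          rw [add_comm]; exact Real.add_one_le_exp _
      _ = Real.exp (∑ i ∈ S, x i) := (Real.exp_sum _ _).symm
      _ ≤ B := Real.exp_le_exp.mpr (hx.sum_le_tsum S fun i _ => hx0 i)
  have hconv := tendsTo_eulerProduct_of_tendsTo f hcof
  have h2 : ∀ᶠ S : Finset ι in atTop, ∀ n ∈ T, (∏ i ∈ S, f i) n = eulerProduct f n :=
    (Filter.eventually_all_finset T).mpr fun n _ => hconv n
  obtain ⟨S, hS⟩ := h2.exists
  refine le_trans (Finset.sum_le_sum fun n hn => ?_) (hbound S T)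
  refine norm_term_le _ ?_
  rw [Complex.norm_intCast, Complex.norm_intCast, ← hS n hn]
  have h3 := abs_prod_le (f := f) S n
  rw [abs_of_nonneg (by exact_mod_cast prodAbs_nonneg S n :
    (0 : ℝ) ≤ (((∏ i ∈ S, absA (f i)) n : ℤ) : ℝ))]
  exact_mod_cast h3

end generic

section

variable {K : Type*} [Field K] [NumberField K] (W : WeierstrassCurve K)
  (v : HeightOneSpectrum (𝓞 K))

lemma tsum_norm_fac_inv {σ : ℝ} (hσ : 3 / 2 ≤ σ) :
    ∑' n, ‖LSeries.term (fun n => ((fac W v n : ℤ) : ℂ)) (σ : ℂ) n‖ ≤ 1 / (1 - xi W v σ) := by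
  have hx := xi_le W v hσ
  have hx0 := xi_nonneg W v σ
  obtain ⟨h1, h2⟩ := summable_inv (a := tr W v) (b := bb W v) (T := (nm v : ℝ) ^ (-σ))
    (x := xi W v σ) (by positivity) le_rfl (by linarith)
  have hinj : Function.Injective fun k : ℕ => nm v ^ k := Nat.pow_right_injective (one_lt_nm v)
  have hsupp : Function.support (fun n =>
      ‖LSeries.term (fun n => ((fac W v n : ℤ) : ℂ)) (σ : ℂ) n‖) ⊆
      Set.range fun k : ℕ => nm v ^ k := by
    intro n hn
    by_contra hcon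
    apply hn
    simp only [norm_eq_zero]
    rw [LSeries.term_def]
    split_ifs with h0
    · rfl
    · rw [fac, ofPowerSeries_apply (one_lt_nm v), Function.extend_apply']
      · simp
      · rintro ⟨k, hk⟩
        exact hcon ⟨k, hk⟩
  rw [← hinj.tsum_eq hsupp]
  have e : ∀ k : ℕ, ‖LSeries.term (fun n => ((fac W v n : ℤ) : ℂ)) (σ : ℂ) (nm v ^ k)‖ =
      |((inv (tr W v) (bb W v)).coeff k : ℝ)| * ((nm v : ℝ) ^ (-σ)) ^ k := by
    intro k
    have hqk : nm v ^ k ≠ 0 := pow_ne_zero k (by have := one_lt_nm v; omega)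
    rw [LSeries.norm_term_eq, if_neg hqk, fac, ofPowerSeries_apply_pow (one_lt_nm v),
      Complex.norm_intCast, Complex.ofReal_re, div_eq_mul_inv, Nat.cast_pow,
      ← Real.rpow_neg (by positivity), ← Real.rpow_natCast, ← Real.rpow_natCast,
      ← Real.rpow_mul (nm_pos v).le, ← Real.rpow_mul (nm_pos v).le, mul_comm (k : ℝ)]
  simp_rw [e]
  exact h2

open Classical in
/-- The local exponent. -/
noncomputable def xx (δ : ℝ) : ℝ :=
  2 * wp (1 + δ) v + (26 / (pr v : ℝ) ^ 2 + if pr v = 2 then 24 else 0)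

lemma wt_eq (δ : ℝ) : wt v (3 / 2 + δ) = wp (1 + δ) v := by
  rw [wt, wp]
  congr 1
  ring

lemma local_le {δ : ℝ} (hδ : 0 < δ) :
    ∑' n, ‖LSeries.term (fun n => ((fac W v n : ℤ) : ℂ)) ((3 / 2 + δ : ℝ) : ℂ) n‖ ≤ 1 + xx v δ := by
  have hw0 := wp_pos (1 + δ) v
  by_cases hp : pr v = 2
  · refine (tsum_norm_fac W v (σ := 3 / 2 + δ) (by linarith)).trans ?_
    have h1 := xi_le W v (σ := 3 / 2 + δ) (by linarith)
    rw [xx, if_pos hp]
    have h2 : 0 ≤ 26 / (pr v : ℝ) ^ 2 := by positivity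
    linarith
  · refine (tsum_norm_fac_inv W v (σ := 3 / 2 + δ) (by linarith)).trans ?_
    have h1 := bb_term_le W v (3 / 2 + δ)
    have h2 := tr_term_le_of_odd W v hp (3 / 2 + δ)
    obtain ⟨-, h3⟩ := xi_le_of_odd W v hp (σ := 3 / 2 + δ) (by linarith)
    have h4 : wt v (3 / 2 + δ) ≤ 1 / nm v := wt_le v (by linarith)
    rw [wt_eq] at h1 h2 h3 h4
    set w := wp (1 + δ) v with hw
    have h5 : xi W v (3 / 2 + δ) ≤ 2 * w + w ^ 2 := by rw [xi]; linarith
    have h6 : w ^ 2 ≤ 1 / (pr v : ℝ) ^ 2 := by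
      have hp0 : (0 : ℝ) < pr v := by exact_mod_cast (pr_prime v).pos
      have h7 : (pr v : ℝ) ≤ nm v := by exact_mod_cast pr_le_nm v
      calc w ^ 2 ≤ (1 / nm v) ^ 2 := pow_le_pow_left₀ hw0.le h4 2
        _ = 1 / (nm v : ℝ) ^ 2 := by ring
        _ ≤ 1 / (pr v : ℝ) ^ 2 := by gcongr
    have h7 : 1 / (1 - xi W v (3 / 2 + δ)) ≤ 1 / (1 - (2 * w + w ^ 2)) := by
      refine one_div_le_one_div_of_le ?_ (by linarith)
      nlinarith
    refine h7.trans ?_
    have h8 : 1 / (1 - (2 * w + w ^ 2)) ≤ 1 + (2 * w + 26 * w ^ 2) := by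
      have h9 : 0 < 1 - (2 * w + w ^ 2) := by nlinarith
      rw [div_le_iff₀ h9]
      have h10 : 0 ≤ w ^ 2 * (1 - 3 * w) := mul_nonneg (by positivity) (by linarith)
      nlinarith [mul_nonneg hw0.le hw0.le, mul_nonneg (mul_nonneg hw0.le hw0.le) hw0.le,
        mul_nonneg (mul_nonneg hw0.le hw0.le) (mul_nonneg hw0.le hw0.le)]
    refine h8.trans ?_
    rw [xx, if_neg hp]
    have h9 : 26 / (pr v : ℝ) ^ 2 = 26 * (1 / (pr v : ℝ) ^ 2) := by ring
    rw [h9]
    linarith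

end

end AB38

/-- AB -/
theorem ab (K : Type*) [Field K] [NumberField K] : StAB K := by
  classical
  obtain ⟨C₁, hC₁0, hC₁⟩ := AB38.PS_le K
  set y : HeightOneSpectrum (𝓞 K) → ℝ :=
    fun v => 26 / (pr v : ℝ) ^ 2 + if pr v = 2 then 24 else 0 with hy
  have hys : Summable y := by
    have h1 : Summable fun n : ℕ => 26 / (n : ℝ) ^ 2 + if n = 2 then (24 : ℝ) else 0 := by
      refine Summable.add ?_ ?_
      · have := (Real.summable_one_div_nat_pow.mpr (by norm_num : 1 < 2)).mul_left 26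
        refine this.congr fun n => by ring
      · exact (hasSum_ite_eq 2 (24 : ℝ)).summable
    exact summable_pr (h := fun n : ℕ => 26 / (n : ℝ) ^ 2 + if n = 2 then (24 : ℝ) else 0)
      (fun n => by split_ifs <;> positivity) h1
  have hy0 : ∀ v, 0 ≤ y v := fun v => by
    rw [hy]
    simp only
    split_ifs <;> positivity
  refine ⟨Real.exp (2 * C₁ + ∑' v, y v), fun W δ hδ hδ1 => ?_⟩
  have hxs : Summable fun v : HeightOneSpectrum (𝓞 K) => AB38.xx v δ :=
    ((summable_wp (K := K) (by linarith : (1 : ℝ) < 1 + δ)).mul_left 2).add hys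
  have hx0 : ∀ v : HeightOneSpectrum (𝓞 K), 0 ≤ AB38.xx v δ := fun v =>
    add_nonneg (mul_nonneg (by norm_num) (wp_pos _ v).le) (hy0 v)
  have hxsum : ∑' v : HeightOneSpectrum (𝓞 K), AB38.xx v δ = 2 * PS K (1 + δ) + ∑' v, y v := by
    have h1 := ((summable_wp (K := K) (by linarith : (1 : ℝ) < 1 + δ)).mul_left 2).tsum_add hys
    rw [tsum_mul_left] at h1
    exact h1
  have hmain := AB38.sum_abs_le (f := fac W) (fac_cofinite W) (σ := 3 / 2 + δ)
    (x := fun v => AB38.xx v δ) hxs hx0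
    (fun v => (hasSum_fac W v (s := ((3 / 2 + δ : ℝ) : ℂ))
      (by rw [Complex.ofReal_re]; linarith)).LSeriesSummable)
    (fun v => AB38.local_le W v hδ)
  rw [← LFunction_eq] at hmain
  have hterm : ∀ n : ℕ, ‖LSeries.term (fun n => ((W.LFunction n : ℤ) : ℂ)) ((3 / 2 + δ : ℝ) : ℂ) n‖ =
      |(W.LFunction n : ℝ)| * (n : ℝ) ^ (-(3 / 2 + δ)) := by
    intro n
    rw [LSeries.norm_term_eq]
    split_ifs with h0
    · subst h0
      rw [ArithmeticFunction.map_zero]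
      simp
    · rw [Complex.norm_intCast, Complex.ofReal_re, Real.rpow_neg (Nat.cast_nonneg n),
        div_eq_mul_inv]
  simp_rw [hterm] at hmain
  have hexp : Real.exp (∑' v : HeightOneSpectrum (𝓞 K), AB38.xx v δ) ≤
      Real.exp (2 * C₁ + ∑' v, y v) / δ ^ 2 := by
    rw [hxsum]
    have h1 := hC₁ δ hδ hδ1
    have h2 : Real.exp (2 * PS K (1 + δ) + ∑' v, y v) ≤
        Real.exp (2 * Real.log (1 / δ) + (2 * C₁ + ∑' v, y v)) :=
      Real.exp_le_exp.2 (by linarith)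
    refine h2.trans (le_of_eq ?_)
    rw [Real.exp_add, mul_comm (2 : ℝ) (Real.log (1 / δ)), Real.exp_mul,
      Real.exp_log (by positivity), Real.rpow_two]
    field_simp
  have hnn : ∀ n : ℕ, 0 ≤ |(W.LFunction n : ℝ)| * (n : ℝ) ^ (-(3 / 2 + δ)) := fun n => by positivity
  have hs : Summable fun n : ℕ => |(W.LFunction n : ℝ)| * (n : ℝ) ^ (-(3 / 2 + δ)) :=
    summable_of_sum_le hnn hmain
  exact ⟨hs, (hs.tsum_le_of_sum_le hmain).trans hexp⟩

end Pool.Agent.Lib.MP_bf61d2_nt.MV59
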