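import Mathlib
import Pool.Agent.Lib.MP_bf61d2_nt.Trim.MV59.Stmts
import Pool.Agent.Lib.MP_bf61d2_nt.Trim.X.TwinAll.Basic94
import Pool.Agent.Lib.MP_bf61d2_nt.Trim.X.TwinAll.Defs
import Pool.Agent.Lib.MP_bf61d2_nt.Trim.X.TwinAll.S2alt49
import Pool.Agent.Lib.MP_bf61d2_nt.Trim.X.TwinAll.S5x82

set_option autoImplicit false

/-!
MEAN VALUES (MP_bf61d2_nt), module BT: Brun-Titchmarsh for the primes in `(y, y + h]`,
`h ≥ y^(2/3)`, from the Brun-Hooley sieve.
-/

namespace Pool.Agent.Lib.TwinAll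
end Pool.Agent.Lib.TwinAll

namespace Pool.Agent.Lib.MP_bf61d2_nt.MV59

open Finset Pool.Agent.Lib.TwinAll

theorem bt_card90 : ∃ (C : ℝ) (Y : ℝ), 0 < C ∧ 1 ≤ Y ∧ ∀ y h : ℝ, Y ≤ y → y ^ (2 / 3 : ℝ) ≤ h →
    (((Finset.Ioc ⌊y⌋₊ ⌊y + h⌋₊).filter Nat.Prime).card : ℝ) * Real.log y ≤ C * h := by
  obtain ⟨s, zs, h1⟩ := T49.S2alt 1 1 one_pos
  set z0 : ℕ := max zs 3 with hz0
  have hz03 : 3 ≤ z0 := le_max_right _ _
  obtain ⟨z1, h2⟩ := h1 z0 (le_max_left _ _)
  obtain ⟨K, hK0, hK⟩ := V1_le82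
  have hl0 : 0 < Real.log z0 := Real.log_pos (by exact_mod_cast (by omega : 1 < z0))
  set κ : ℝ := 1 / (2 * (s + 1)) with hκ
  have hs0 : (0 : ℝ) ≤ s := Nat.cast_nonneg s
  have hκ0 : 0 < κ := by positivity
  have hκs : κ * s ≤ 1 / 2 := by
    rw [hκ, one_div_mul_eq_div, div_le_div_iff₀ (by positivity) (by norm_num)]
    linarith
  -- thresholds
  set Y : ℝ := (max (2 * ((max z0 z1 : ℕ) : ℝ)) 4) ^ (2 / κ) + 64 with hY
  have hbase : (4 : ℝ) ≤ max (2 * ((max z0 z1 : ℕ) : ℝ)) 4 := le_max_right _ _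
  have hYpos : 0 < (max (2 * ((max z0 z1 : ℕ) : ℝ)) 4) ^ (2 / κ) :=
    Real.rpow_pos_of_pos (by linarith) _
  refine ⟨8 * (K * Real.log z0) * (2 / κ), Y, by positivity, by linarith, fun y h hy hh => ?_⟩
  have hy64 : 64 ≤ y := by linarith
  have hy0 : 0 < y := by linarith
  have hy1 : 1 ≤ y := by linarith
  have hly : 0 < Real.log y := Real.log_pos (by linarith)
  have hh1 : 1 ≤ h := (Real.one_le_rpow hy1 (by norm_num)).trans hh
  -- the sifting limit
  set z : ℕ := ⌊y ^ κ⌋₊ with hz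
  have hyκ : max (2 * ((max z0 z1 : ℕ) : ℝ)) 4 ≤ y ^ (κ / 2) := by
    have h3 : (max (2 * ((max z0 z1 : ℕ) : ℝ)) 4) ^ (2 / κ) ≤ y := by linarith
    have h4 := Real.rpow_le_rpow hYpos.le h3 (by positivity : 0 ≤ κ / 2)
    rwa [← Real.rpow_mul (by linarith), show 2 / κ * (κ / 2) = 1 by field_simp, Real.rpow_one] at h4
  have hyκ1 : 1 ≤ y ^ (κ / 2) := by linarith
  have hsq : y ^ κ = y ^ (κ / 2) * y ^ (κ / 2) := by
    rw [← Real.rpow_add hy0]; ring_nf
  have hzlow : y ^ (κ / 2) ≤ z := by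
    have h3 : y ^ κ - 1 < z := Nat.sub_one_lt_floor _
    have h4 : y ^ (κ / 2) ≤ y ^ κ - 1 := by
      rw [hsq]
      nlinarith
    linarith
  have hz4 : (4 : ℝ) ≤ z := hbase.trans (hyκ.trans hzlow)
  have hzz : max z0 z1 ≤ z := by
    have h3 : (((max z0 z1 : ℕ)) : ℝ) ≤ z := by
      have := (le_max_left (2 * ((max z0 z1 : ℕ) : ℝ)) 4).trans (hyκ.trans hzlow)
      have h5 : (0 : ℝ) ≤ ((max z0 z1 : ℕ) : ℝ) := Nat.cast_nonneg _
      linarith
    exact_mod_cast h3
  have hz01 : z0 ≤ z := (le_max_left _ _).trans hzz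
  have hz11 : z1 ≤ z := (le_max_right _ _).trans hzz
  have hzup : (z : ℝ) ≤ y ^ κ := Nat.floor_le (by positivity)
  have hzy : (z : ℝ) ≤ y := by
    refine hzup.trans ?_
    calc y ^ κ ≤ y ^ (1 : ℝ) := by
          apply Real.rpow_le_rpow_of_exponent_le hy1
          rw [hκ, div_le_one (by positivity)]
          linarith
      _ = y := Real.rpow_one y
  -- the interval
  set a : ℕ := ⌊y⌋₊ with ha
  set b : ℕ := ⌊y + h⌋₊ with hb
  have hab : a ≤ b := Nat.floor_le_floor (by linarith)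
  set H : ℕ := b - a with hH
  have hHup : (H : ℝ) ≤ 2 * h := by
    rw [hH, Nat.cast_sub hab]
    have h3 : (b : ℝ) ≤ y + h := Nat.floor_le (by linarith)
    have h4 : y - 1 < a := Nat.sub_one_lt_floor _
    linarith
  have hHlow : h - 1 ≤ H := by
    rw [hH, Nat.cast_sub hab]
    have h3 : (a : ℝ) ≤ y := Nat.floor_le hy0.le
    have h4 : y + h - 1 < b := Nat.sub_one_lt_floor _
    linarith
  have hzs : z ^ s ≤ H := by
    have h3 : (z : ℝ) ^ s ≤ y ^ (1 / 2 : ℝ) := by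
      calc (z : ℝ) ^ s ≤ (y ^ κ) ^ s := pow_le_pow_left₀ (Nat.cast_nonneg _) hzup s
        _ = y ^ (κ * s) := by rw [← Real.rpow_natCast, ← Real.rpow_mul hy0.le]
        _ ≤ y ^ (1 / 2 : ℝ) := Real.rpow_le_rpow_of_exponent_le hy1 hκs
    have h4 : y ^ (1 / 2 : ℝ) ≤ y ^ (2 / 3 : ℝ) - 1 := by
      have e1 : y ^ (2 / 3 : ℝ) = y ^ (1 / 2 : ℝ) * y ^ (1 / 6 : ℝ) := by
        rw [← Real.rpow_add hy0]; norm_num
      have e2 : (2 : ℝ) ≤ y ^ (1 / 6 : ℝ) := by
        calc (2 : ℝ) = (64 : ℝ) ^ (1 / 6 : ℝ) := by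
              rw [show (64 : ℝ) = (2 : ℝ) ^ (6 : ℝ) by norm_num, ← Real.rpow_mul (by norm_num)]
              norm_num
          _ ≤ _ := Real.rpow_le_rpow (by norm_num) hy64 (by norm_num)
      have e3 : (1 : ℝ) ≤ y ^ (1 / 2 : ℝ) := Real.one_le_rpow hy1 (by norm_num)
      rw [e1]
      nlinarith
    have h5 : (z : ℝ) ^ s ≤ H := by linarith
    exact_mod_cast h5
  -- the sieve
  have hcop : ∀ j : Fin 1, ∀ q ∈ PP z0 z, ¬ ((q : ℤ) ∣ (![1] : Fin 1 → ℤ) j) := by
    intro j q hq h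
    have hq1 : q.Prime := (Finset.mem_filter.mp hq).2
    fin_cases j
    have h6 : (q : ℤ) ∣ 1 := h
    have h7 : q ∣ 1 := by exact_mod_cast h6
    exact hq1.one_lt.ne' (Nat.dvd_one.mp h7)
  have h3 := h2 z hz11 ![1] ![0] hcop (a : ℤ) H hzs
  set V : ℝ := VV z0 z (![1] : Fin 1 → ℤ) ![0] with hV
  have hVp : 0 < V := Pool.Agent.Lib.TwinAll.VV_pos (by omega) _ _ hcop
  have hsum : (((Finset.Ioc a b).filter Nat.Prime).card : ℝ) * V⁻¹ ≤
      ∑ n ∈ Finset.Ioc (a : ℤ) (a + H), nu z0 z (![1] : Fin 1 → ℤ) ![0] n := by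
    set P : Finset ℕ := (Finset.Ioc a b).filter Nat.Prime with hP
    have hinj : Set.InjOn (fun n : ℕ => (n : ℤ)) P := fun x _ y _ h => Int.ofNat_inj.mp h
    have h4 : ∑ n ∈ P.image (fun n : ℕ => (n : ℤ)), nu z0 z (![1] : Fin 1 → ℤ) ![0] n =
        (P.card : ℝ) * V⁻¹ := by
      rw [Finset.sum_image hinj, ← nsmul_eq_mul, ← Finset.sum_const]
      refine Finset.sum_congr rfl fun p hp => ?_
      rw [hP, Finset.mem_filter, Finset.mem_Ioc] at hp
      rw [nu, if_pos]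
      intro j q hq hdvd
      fin_cases j
      simp only [Fin.zero_eta, Matrix.cons_val_fin_one, one_mul, add_zero] at hdvd
      have h6 : q ∣ p := by exact_mod_cast hdvd
      rw [PP, Finset.mem_filter, Finset.mem_Ioc] at hq
      have h7 : q = p := (Nat.prime_dvd_prime_iff_eq hq.2 hp.2).mp h6
      have h8 : (p : ℝ) ≤ y := by
        have : p ≤ z := h7 ▸ hq.1.2
        have h9 : (p : ℝ) ≤ z := by exact_mod_cast this
        linarith
      have h9 : p ≤ a := Nat.le_floor h8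
      omega
    rw [← h4]
    refine Finset.sum_le_sum_of_subset_of_nonneg ?_ fun n _ _ => ?_
    · intro n hn
      rw [Finset.mem_image] at hn
      obtain ⟨p, hp, rfl⟩ := hn
      rw [hP, Finset.mem_filter, Finset.mem_Ioc] at hp
      rw [Finset.mem_Ioc, hH]
      omega
    · rw [nu]
      split_ifs
      · exact inv_nonneg.mpr hVp.le
      · exact le_rfl
  have h4 : (((Finset.Ioc a b).filter Nat.Prime).card : ℝ) ≤ 2 * H * V := by
    have h5 := (abs_le.mp h3).2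
    have h6 : (((Finset.Ioc a b).filter Nat.Prime).card : ℝ) * V⁻¹ ≤ 2 * H := by linarith
    rwa [← div_eq_mul_inv, div_le_iff₀ hVp] at h6
  have h5 := hK z0 z hz03 hz01
  rw [← hV] at h5
  have hlz : κ / 2 * Real.log y ≤ Real.log z := by
    rw [← Real.log_rpow hy0]
    exact Real.log_le_log (by positivity) hzlow
  have hlz0 : 0 < Real.log z := lt_of_lt_of_le (by positivity) hlz
  have h6 : V * Real.log y ≤ K * Real.log z0 * (2 / κ) := by
    have e1 : Real.log y ≤ 2 / κ * Real.log z := by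
      calc Real.log y = 2 / κ * (κ / 2 * Real.log y) := by field_simp
        _ ≤ _ := mul_le_mul_of_nonneg_left hlz (by positivity)
    calc V * Real.log y ≤ (K * Real.log z0 / Real.log z) * (2 / κ * Real.log z) :=
          mul_le_mul h5 e1 hly.le (by positivity)
      _ = _ := by field_simp
  calc (((Finset.Ioc a b).filter Nat.Prime).card : ℝ) * Real.log y
      ≤ (2 * H * V) * Real.log y := mul_le_mul_of_nonneg_right h4 hly.le
    _ = 2 * H * (V * Real.log y) := by ring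
    _ ≤ 2 * (2 * h) * (K * Real.log z0 * (2 / κ)) := by
        refine mul_le_mul (by linarith) h6 (by positivity) (by positivity)
    _ ≤ _ := by
        have : 0 ≤ h * (K * Real.log z0 * (2 / κ)) := by positivity
        nlinarith

/-- BT -/
theorem bt90 : StBT := by
  obtain ⟨C, Y, hC, hY, h⟩ := bt_card90
  refine ⟨2 * C + 2 * Real.log (2 * Y) + 4 * Real.log 2, fun y h' hy hh hhy => ?_⟩
  have hy0 : 0 < y := by linarith
  have hh1 : 1 ≤ h' := (Real.one_le_rpow hy (by norm_num)).trans hh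
  have hlog : ∀ p ∈ (Finset.Ioc ⌊y⌋₊ ⌊y + h'⌋₊).filter Nat.Prime, Real.log p ≤ Real.log (2 * y) := by
    intro p hp
    rw [Finset.mem_filter, Finset.mem_Ioc] at hp
    refine Real.log_le_log (by exact_mod_cast hp.2.pos) ?_
    have h1 : (p : ℝ) ≤ y + h' := (Nat.cast_le.mpr hp.1.2).trans (Nat.floor_le (by linarith))
    linarith
  have hsum := Finset.sum_le_card_nsmul _ _ _ hlog
  rw [nsmul_eq_mul] at hsum
  have hl2 : 0 < Real.log 2 := Real.log_pos (by norm_num)
  have hlY : 0 ≤ Real.log (2 * Y) := Real.log_nonneg (by linarith)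
  set N : ℝ := (((Finset.Ioc ⌊y⌋₊ ⌊y + h'⌋₊).filter Nat.Prime).card : ℝ) with hN
  have hN0 : 0 ≤ N := Nat.cast_nonneg _
  have hcard : N ≤ 2 * h' := by
    have h1 : ((Finset.Ioc ⌊y⌋₊ ⌊y + h'⌋₊).filter Nat.Prime).card ≤ ⌊y + h'⌋₊ - ⌊y⌋₊ := by
      refine (Finset.card_filter_le _ _).trans ?_
      rw [Nat.card_Ioc]
    have h2 : N ≤ ((⌊y + h'⌋₊ - ⌊y⌋₊ : ℕ) : ℝ) := by rw [hN]; exact_mod_cast h1
    rw [Nat.cast_sub (Nat.floor_le_floor (by linarith))] at h2
    have h3 : (⌊y + h'⌋₊ : ℝ) ≤ y + h' := Nat.floor_le (by linarith)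
    have h4 : y - 1 < ⌊y⌋₊ := Nat.sub_one_lt_floor _
    linarith
  rcases lt_or_ge y Y with hyY | hyY
  · have h1 : Real.log (2 * y) ≤ Real.log (2 * Y) := Real.log_le_log (by positivity) (by linarith)
    have h2 : N * Real.log (2 * y) ≤ 2 * h' * Real.log (2 * Y) :=
      mul_le_mul hcard h1 (Real.log_nonneg (by linarith)) (by positivity)
    have h3 : 0 ≤ h' * C := by positivity
    have h4 : 0 ≤ h' * Real.log 2 := by positivity
    nlinarith
  · have h1 := h y h' hyY hh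
    rw [← hN] at h1
    rcases le_or_gt y 2 with hy2 | hy2
    · have h2 : Real.log (2 * y) ≤ 2 * Real.log 2 := by
        have e : 2 * Real.log 2 = Real.log (2 * 2) := by
          rw [Real.log_mul (by norm_num) (by norm_num)]; ring
        rw [e]
        exact Real.log_le_log (by positivity) (by linarith)
      have h3 : N * Real.log (2 * y) ≤ 2 * h' * (2 * Real.log 2) :=
        mul_le_mul hcard h2 (Real.log_nonneg (by linarith)) (by positivity)
      have h4 : 0 ≤ h' * C := by positivity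
      have h5 : 0 ≤ h' * Real.log (2 * Y) := by positivity
      nlinarith
    · have h2 : Real.log (2 * y) ≤ 2 * Real.log y := by
        rw [Real.log_mul (by norm_num) hy0.ne']
        have := Real.log_le_log (by norm_num) hy2.le
        linarith
      have h3 : N * Real.log (2 * y) ≤ 2 * (C * h') := by
        calc N * Real.log (2 * y) ≤ N * (2 * Real.log y) := mul_le_mul_of_nonneg_left h2 hN0
          _ = 2 * (N * Real.log y) := by ring
          _ ≤ _ := by linarith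
      have h4 : 0 ≤ h' * Real.log (2 * Y) := by positivity
      have h5 : 0 ≤ h' * Real.log 2 := by positivity
      nlinarith

end Pool.Agent.Lib.MP_bf61d2_nt.MV59
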