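import Mathlib
import Pool.Agent.Lib.MP_bf61d2_nt.Trim.Analytic
import Pool.Agent.Lib.MP_bf61d2_nt.Trim.Local
import Pool.Agent.Lib.MP_bf61d2_nt.Trim.LocalCurve
import Pool.Agent.Lib.MP_bf61d2_nt.Trim.MV59.Stmts2
import Pool.Agent.Lib.MP_bf61d2_nt.Trim.Places
import Pool.Agent.Lib.MP_bf61d2_nt.Trim.Structure

set_option autoImplicit false

/-!
MEAN VALUES (MP_bf61d2_nt), module CV: the convolution identity `a log = a * Λ`.
-/

namespace NumberField
end NumberField

namespace Pool.Agent.Lib.MP_bf61d2_nt.MV59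

open NumberField IsDedekindDomain ArithmeticFunction Filter Topology

namespace CV40

/-! ### The derivation -/

/-- Multiplication by the logarithm. -/
noncomputable def dl (f : ArithmeticFunction ℝ) : ArithmeticFunction ℝ :=
  ⟨fun n => f n * Real.log n, by simp⟩

lemma dl_apply (f : ArithmeticFunction ℝ) (n : ℕ) : dl f n = f n * Real.log n := rfl

lemma dl_mul (f g : ArithmeticFunction ℝ) : dl (f * g) = dl f * g + f * dl g := by
  ext n
  rw [ArithmeticFunction.add_apply, dl_apply, mul_apply, mul_apply, mul_apply, Finset.sum_mul,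
    ← Finset.sum_add_distrib]
  refine Finset.sum_congr rfl fun x hx => ?_
  obtain ⟨h1, h2⟩ := Nat.mem_divisorsAntidiagonal.mp hx
  have hx1 : x.1 ≠ 0 := by
    rintro h
    rw [h, zero_mul] at h1
    exact h2 h1.symm
  have hx2 : x.2 ≠ 0 := by
    rintro h
    rw [h, mul_zero] at h1
    exact h2 h1.symm
  rw [dl_apply, dl_apply, ← h1, Nat.cast_mul, Real.log_mul (by exact_mod_cast hx1)
    (by exact_mod_cast hx2)]
  ring

lemma dl_one : dl 1 = 0 := by
  ext n
  rw [dl_apply, ArithmeticFunction.zero_apply]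
  by_cases h : n = 1
  · subst h; simp
  · rw [one_apply_ne h, zero_mul]

lemma dl_prod {ι : Type*} {f L : ι → ArithmeticFunction ℝ} (h : ∀ i, dl (f i) = f i * L i)
    (S : Finset ι) : dl (∏ i ∈ S, f i) = (∏ i ∈ S, f i) * ∑ i ∈ S, L i := by
  classical
  induction S using Finset.induction_on with
  | empty => rw [Finset.prod_empty, dl_one, Finset.sum_empty, mul_zero]
  | insert i S hi ih =>
    rw [Finset.prod_insert hi, Finset.sum_insert hi, dl_mul, ih, h]
    ring

lemma sum_apply' {ι : Type*} (L : ι → ArithmeticFunction ℝ) (S : Finset ι) (n : ℕ) :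
    (∑ i ∈ S, L i) n = ∑ i ∈ S, L i n := by
  classical
  induction S using Finset.induction_on with
  | empty => simp
  | insert i S hi ih => rw [Finset.sum_insert hi, Finset.sum_insert hi, ArithmeticFunction.add_apply, ih]

/-! ### Weighted sums -/

/-- The weighted sum is at most `B`. -/
def HN (σ : ℝ) (f : ArithmeticFunction ℝ) (B : ℝ) : Prop :=
  Summable (fun n : ℕ => |f n| * (n : ℝ) ^ (-σ)) ∧ ∑' n : ℕ, |f n| * (n : ℝ) ^ (-σ) ≤ B

lemma HN.nonneg {σ : ℝ} {f : ArithmeticFunction ℝ} {B : ℝ} (h : HN σ f B) : 0 ≤ B :=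
  (tsum_nonneg fun n => by positivity).trans h.2

lemma HN.mono {σ : ℝ} {f : ArithmeticFunction ℝ} {A B : ℝ} (h : HN σ f A) (hAB : A ≤ B) :
    HN σ f B := ⟨h.1, h.2.trans hAB⟩

lemma HN.sum_le {σ : ℝ} {f : ArithmeticFunction ℝ} {B : ℝ} (h : HN σ f B) (T : Finset ℕ) :
    ∑ n ∈ T, |f n| * (n : ℝ) ^ (-σ) ≤ B :=
  (h.1.sum_le_tsum T fun n _ => by positivity).trans h.2

lemma HN.of_sum_le {σ : ℝ} {f : ArithmeticFunction ℝ} {B : ℝ}
    (h : ∀ T : Finset ℕ, ∑ n ∈ T, |f n| * (n : ℝ) ^ (-σ) ≤ B) : HN σ f B := by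
  have hs : Summable (fun n : ℕ => |f n| * (n : ℝ) ^ (-σ)) :=
    summable_of_sum_le (fun n => by positivity) h
  exact ⟨hs, hs.tsum_le_of_sum_le h⟩

lemma HN.add {σ : ℝ} {f g : ArithmeticFunction ℝ} {A B : ℝ} (hf : HN σ f A) (hg : HN σ g B) :
    HN σ (f + g) (A + B) := by
  refine HN.of_sum_le fun T => ?_
  refine le_trans ?_ (add_le_add (hf.sum_le T) (hg.sum_le T))
  rw [← Finset.sum_add_distrib]
  refine Finset.sum_le_sum fun n _ => ?_
  rw [← add_mul, ArithmeticFunction.add_apply]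
  exact mul_le_mul_of_nonneg_right (abs_add_le _ _) (by positivity)

lemma HN.mul {σ : ℝ} {f g : ArithmeticFunction ℝ} {A B : ℝ} (hf : HN σ f A) (hg : HN σ g B) :
    HN σ (f * g) (A * B) := by
  classical
  refine HN.of_sum_le fun T => ?_
  set h : ℕ × ℕ → ℝ := fun x => (|f x.1| * (x.1 : ℝ) ^ (-σ)) * (|g x.2| * (x.2 : ℝ) ^ (-σ)) with hh
  have h0 : ∀ x, 0 ≤ h x := fun x => by positivity
  have h1 : ∀ n ∈ T, |(f * g) n| * (n : ℝ) ^ (-σ) ≤ ∑ x ∈ n.divisorsAntidiagonal, h x := by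
    intro n _
    rw [mul_apply]
    refine (mul_le_mul_of_nonneg_right (Finset.abs_sum_le_sum_abs _ _) (by positivity)).trans ?_
    rw [Finset.sum_mul]
    refine Finset.sum_le_sum fun x hx => ?_
    obtain ⟨h1, h2⟩ := Nat.mem_divisorsAntidiagonal.mp hx
    rw [← h1, Nat.cast_mul, Real.mul_rpow (Nat.cast_nonneg _) (Nat.cast_nonneg _), abs_mul, hh]
    simp only
    exact le_of_eq (by ring)
  refine (Finset.sum_le_sum h1).trans ?_
  have h2 : ∑ n ∈ T, ∑ x ∈ n.divisorsAntidiagonal, h x =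
      ∑ x ∈ T.biUnion fun n => n.divisorsAntidiagonal, h x := by
    rw [Finset.sum_biUnion]
    intro m _ n _ hmn
    rw [Function.onFun, Finset.disjoint_left]
    intro x hx hx'
    exact hmn ((Nat.mem_divisorsAntidiagonal.mp hx).1.symm.trans
      (Nat.mem_divisorsAntidiagonal.mp hx').1)
  rw [h2]
  set U := T.biUnion fun n => n.divisorsAntidiagonal with hU
  have h3 : U ⊆ U.image Prod.fst ×ˢ U.image Prod.snd := by
    intro x hx
    rw [Finset.mem_product]
    exact ⟨Finset.mem_image_of_mem _ hx, Finset.mem_image_of_mem _ hx⟩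
  refine (Finset.sum_le_sum_of_subset_of_nonneg h3 fun x _ _ => h0 x).trans ?_
  rw [Finset.sum_product]
  simp only [hh]
  rw [← Finset.sum_mul_sum]
  exact mul_le_mul (hf.sum_le _) (hg.sum_le _) (Finset.sum_nonneg fun n _ => by positivity)
    hf.nonneg

/-! ### Local factors -/

section loc

variable {K : Type*} [Field K] [NumberField K] (W : WeierstrassCurve K)
  (v : HeightOneSpectrum (𝓞 K))

/-- The local factor, real coefficients. -/
noncomputable def fR : ArithmeticFunction ℝ := ((fac W v : ArithmeticFunction ℤ) : ArithmeticFunction ℝ)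

/-- Its inverse. -/
noncomputable def dR : ArithmeticFunction ℝ :=
  ((ofPowerSeries (nm v) ((quad (tr W v) (bb W v) : Polynomial ℤ) : PowerSeries ℤ) :
    ArithmeticFunction ℤ) : ArithmeticFunction ℝ)

lemma fR_mul_dR : fR W v * dR W v = 1 := by
  rw [fR, dR, ← intCoe_mul, fac, ← map_mul, mul_comm, quad_mul_inv, map_one, intCoe_one]

/-- The local term. -/
noncomputable def gR : ArithmeticFunction ℝ := ⟨fun n => -(dR W v n * Real.log n), by simp⟩

lemma gR_apply (n : ℕ) : gR W v n = -(dR W v n * Real.log n) := rfl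

lemma dl_fR : dl (fR W v) = fR W v * (fR W v * gR W v) := by
  have h1 := dl_mul (fR W v) (dR W v)
  rw [fR_mul_dR, dl_one] at h1
  have h2 := fR_mul_dR W v
  have h3 : gR W v + dl (dR W v) = 0 := by
    ext n
    rw [ArithmeticFunction.add_apply, gR_apply, dl_apply, ArithmeticFunction.zero_apply]
    ring
  calc dl (fR W v) = dl (fR W v) * (fR W v * dR W v) := by rw [h2, mul_one]
    _ = (dl (fR W v) * dR W v) * fR W v := by ring
    _ = (fR W v * gR W v) * fR W v := by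
        congr 1
        linear_combination -h1 - fR W v * h3
    _ = _ := by ring

lemma coeff_quad_ge (a b : ℤ) {k : ℕ} (hk : 3 ≤ k) : (quad a b).coeff k = 0 := by
  rw [quad, Polynomial.coeff_add, Polynomial.coeff_sub, Polynomial.coeff_one,
    Polynomial.coeff_C_mul, Polynomial.coeff_C_mul, Polynomial.coeff_X, Polynomial.coeff_X_pow,
    if_neg (by omega), if_neg (by omega), if_neg (by omega)]
  simp

lemma dR_pow (k : ℕ) : dR W v (nm v ^ k) = (quad (tr W v) (bb W v)).coeff k := by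
  rw [dR, intCoe_apply, ofPowerSeries_apply_pow (one_lt_nm v), Polynomial.coeff_coe]

lemma gR_pow (k : ℕ) : gR W v (nm v ^ k) =
    -((quad (tr W v) (bb W v)).coeff k * (k * Real.log (nm v))) := by
  rw [gR_apply, dR_pow, Nat.cast_pow, Real.log_pow]

lemma gR_one_pow : gR W v (nm v) = tr W v * Real.log (nm v) := by
  have h := gR_pow W v 1
  rw [pow_one, coeff_quad_one] at h
  rw [h]
  push_cast
  ring

lemma gR_two_pow : gR W v (nm v ^ 2) = -(2 * bb W v * Real.log (nm v)) := by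
  rw [gR_pow W v 2, coeff_quad_two]
  push_cast
  ring

lemma gR_eq_zero {n : ℕ} (h1 : n ≠ nm v) (h2 : n ≠ nm v ^ 2) : gR W v n = 0 := by
  by_cases h : ∃ k, nm v ^ k = n
  · obtain ⟨k, rfl⟩ := h
    rw [gR_pow]
    rcases Nat.lt_or_ge k 3 with hk | hk
    · interval_cases k
      · simp
      · exact absurd (pow_one _) h1
      · exact absurd rfl h2
    · rw [coeff_quad_ge _ _ hk]
      simp
  · rw [gR_apply, dR, intCoe_apply, ofPowerSeries_apply (one_lt_nm v),
      Function.extend_apply']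
    · simp
    · exact h

/-- The part on the prime itself. -/
noncomputable def g1 : ArithmeticFunction ℝ :=
  ⟨fun n => if n = nm v then cc W v * Real.sqrt (nm v) * Real.log (nm v) else 0, by
    rw [if_neg]
    have := one_lt_nm v
    omega⟩

lemma g1_apply (n : ℕ) : g1 W v n =
    if n = nm v then cc W v * Real.sqrt (nm v) * Real.log (nm v) else 0 := rfl

lemma fR_apply (n : ℕ) : fR W v n = (fac W v n : ℝ) := by
  rw [fR, intCoe_apply]

lemma hn_fR {σ x : ℝ} (hx : xi W v σ ≤ x) (hx1 : x < 1) : HN σ (fR W v) (1 / (1 - x)) := by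
  obtain ⟨h1, h2⟩ := summable_inv (a := tr W v) (b := bb W v) (T := (nm v : ℝ) ^ (-σ)) (x := x)
    (by positivity) hx hx1
  have hinj : Function.Injective fun k : ℕ => nm v ^ k := Nat.pow_right_injective (one_lt_nm v)
  have hz : ∀ n, n ∉ Set.range (fun k : ℕ => nm v ^ k) → |fR W v n| * (n : ℝ) ^ (-σ) = 0 := by
    intro n hn
    rw [fR_apply, fac, ofPowerSeries_apply (one_lt_nm v), Function.extend_apply']
    · simp
    · rintro ⟨k, hk⟩
      exact hn ⟨k, hk⟩
  have e : ∀ k : ℕ, |fR W v (nm v ^ k)| * ((nm v ^ k : ℕ) : ℝ) ^ (-σ) =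
      |((inv (tr W v) (bb W v)).coeff k : ℝ)| * ((nm v : ℝ) ^ (-σ)) ^ k := by
    intro k
    rw [fR_apply, fac, ofPowerSeries_apply_pow (one_lt_nm v), Nat.cast_pow,
      ← Real.rpow_natCast, ← Real.rpow_natCast, ← Real.rpow_mul (nm_pos v).le,
      ← Real.rpow_mul (nm_pos v).le, mul_comm (k : ℝ)]
  constructor
  · rw [← hinj.summable_iff hz]
    exact h1.congr fun k => (e k).symm
  · rw [← hinj.tsum_eq (f := fun n : ℕ => |fR W v n| * (n : ℝ) ^ (-σ)) (by
      intro n hn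
      by_contra hcon
      exact hn (hz n hcon))]
    simp_rw [e]
    exact h2

/-- The local factor without its constant term. -/
noncomputable def f0 : ArithmeticFunction ℝ :=
  ⟨fun n => if n = 1 then 0 else fR W v n, by simp⟩

lemma f0_apply (n : ℕ) : f0 W v n = if n = 1 then 0 else fR W v n := rfl

lemma fR_eq : fR W v = 1 + f0 W v := by
  ext n
  rw [ArithmeticFunction.add_apply, f0_apply]
  by_cases h : n = 1
  · rw [if_pos h, h, one_one, fR_apply, fac_one]
    simp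
  · rw [if_neg h, one_apply_ne h, zero_add]

lemma hn_f0 {σ B : ℝ} (h : HN σ (fR W v) B) : HN σ (f0 W v) (B - 1) := by
  classical
  refine HN.of_sum_le fun T => ?_
  have h1 : ∑ n ∈ T, |f0 W v n| * (n : ℝ) ^ (-σ) =
      ∑ n ∈ T.erase 1, |fR W v n| * (n : ℝ) ^ (-σ) := by
    have h2 : ∑ n ∈ T.erase 1, |f0 W v n| * (n : ℝ) ^ (-σ) =
        ∑ n ∈ T, |f0 W v n| * (n : ℝ) ^ (-σ) := by
      apply Finset.sum_erase
      rw [f0_apply, if_pos rfl, abs_zero, zero_mul]
    rw [← h2]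
    refine Finset.sum_congr rfl fun n hn => ?_
    rw [f0_apply, if_neg (Finset.ne_of_mem_erase hn)]
  have h3 := h.sum_le (insert 1 (T.erase 1))
  rw [Finset.sum_insert (Finset.notMem_erase 1 T), fR_apply, fac_one] at h3
  simp only [Int.cast_one, abs_one, Nat.cast_one, Real.one_rpow, one_mul] at h3
  rw [h1]
  linarith

lemma log_nm_pos : 0 < Real.log (nm v) :=
  Real.log_pos (by exact_mod_cast one_lt_nm v)

lemma nm_sq_rpow (σ : ℝ) : ((nm v ^ 2 : ℕ) : ℝ) ^ (-σ) = ((nm v : ℝ) ^ (-σ)) ^ 2 := by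
  rw [Nat.cast_pow, ← Real.rpow_natCast, ← Real.rpow_natCast, ← Real.rpow_mul (nm_pos v).le,
    ← Real.rpow_mul (nm_pos v).le, mul_comm]

lemma hn_of_two {σ B : ℝ} {f : ArithmeticFunction ℝ}
    (h0 : ∀ n, n ≠ nm v → n ≠ nm v ^ 2 → f n = 0)
    (h1 : |f (nm v)| * (nm v : ℝ) ^ (-σ) + |f (nm v ^ 2)| * ((nm v : ℝ) ^ (-σ)) ^ 2 ≤ B) :
    HN σ f B := by
  classical
  have hne : nm v ≠ nm v ^ 2 := by
    have := one_lt_nm v
    nlinarith
  refine HN.of_sum_le fun T => ?_
  have h2 : ∑ n ∈ T, |f n| * (n : ℝ) ^ (-σ) = ∑ n ∈ T ∩ {nm v, nm v ^ 2},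
      |f n| * (n : ℝ) ^ (-σ) := by
    symm
    refine Finset.sum_subset Finset.inter_subset_left fun n _ hn => ?_
    rw [h0 n, abs_zero, zero_mul]
    · rintro rfl
      exact hn (Finset.mem_inter.mpr ⟨by assumption, by simp⟩)
    · rintro rfl
      exact hn (Finset.mem_inter.mpr ⟨by assumption, by simp⟩)
  rw [h2]
  refine (Finset.sum_le_sum_of_subset_of_nonneg Finset.inter_subset_right
    fun n _ _ => by positivity).trans ?_
  rw [Finset.sum_pair hne, nm_sq_rpow]
  exact h1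

lemma hn_gR (σ : ℝ) : HN σ (gR W v) (2 * Real.log (nm v) * xi W v σ) := by
  have hl := log_nm_pos v
  refine hn_of_two v (fun n h1 h2 => gR_eq_zero W v h1 h2) ?_
  rw [gR_one_pow, gR_two_pow, abs_mul, abs_neg, abs_mul, abs_mul, abs_of_pos hl, xi,
    abs_of_pos (by norm_num : (0 : ℝ) < 2)]
  have h1 : 0 ≤ |(tr W v : ℝ)| * (nm v : ℝ) ^ (-σ) := by positivity
  nlinarith

/-- The local remainder. -/
noncomputable def L2 : ArithmeticFunction ℝ := fR W v * gR W v - g1 W v

lemma hn_L2_of_zero {σ x : ℝ} (hx : xi W v σ ≤ x) (hx1 : x < 1) (hcc : cc W v = 0) :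
    HN σ (L2 W v) (1 / (1 - x) * (2 * Real.log (nm v) * xi W v σ)) := by
  have h1 : g1 W v = 0 := by
    ext n
    rw [g1_apply, hcc]
    simp
  rw [L2, h1, sub_zero]
  exact (hn_fR W v hx hx1).mul (hn_gR W v σ)

lemma sub_apply' (f g : ArithmeticFunction ℝ) (n : ℕ) : (f - g) n = f n - g n := by
  rw [sub_eq_add_neg, ArithmeticFunction.add_apply, ArithmeticFunction.neg_apply, sub_eq_add_neg]

lemma hn_L2_of_deg {σ x : ℝ} (hx : xi W v σ ≤ x) (hx1 : x < 1) (hv : pr v ≠ 2 ∧ nm v = pr v) :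
    HN σ (L2 W v) ((1 / (1 - x) - 1) * (2 * Real.log (nm v) * xi W v σ) +
      2 * Real.log (nm v) * wt v σ ^ 2) := by
  have hl := log_nm_pos v
  have e : L2 W v = f0 W v * gR W v + (gR W v - g1 W v) := by
    rw [L2, fR_eq]
    ring
  rw [e]
  refine ((hn_f0 W v (hn_fR W v hx hx1)).mul (hn_gR W v σ)).add (hn_of_two v ?_ ?_)
  · intro n h1 h2
    rw [sub_apply', gR_eq_zero W v h1 h2, g1_apply, if_neg h1, sub_zero]
  · have hne : nm v ^ 2 ≠ nm v := by
      have := one_lt_nm v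
      nlinarith
    have h1 : (gR W v - g1 W v) (nm v) = 0 := by
      rw [sub_apply', gR_one_pow, g1_apply, if_pos rfl, cc, if_pos hv]
      have hs : Real.sqrt (nm v) ≠ 0 := (Real.sqrt_pos.mpr (nm_pos v)).ne'
      field_simp
      ring
    rw [h1, sub_apply', gR_two_pow, g1_apply, if_neg hne, sub_zero, abs_zero, zero_mul, zero_add,
      abs_neg, abs_mul, abs_mul, abs_of_pos hl, abs_of_pos (by norm_num : (0 : ℝ) < 2)]
    have h2 := bb_term_le W v σ
    nlinarith

/-! ### Numbers -/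

/-- The exponent. -/
noncomputable def sg : ℝ := 3 / 2 - 1 / 64

lemma rpow_le_of_pow {x c : ℝ} {e : ℝ} {n : ℕ} (hx : 0 ≤ x) (hc : 0 ≤ c) (hn : n ≠ 0)
    (h : x ^ (e * n) ≤ c ^ n) : x ^ e ≤ c := by
  rw [← pow_le_pow_iff_left₀ (Real.rpow_nonneg hx e) hc hn, ← Real.rpow_natCast,
    ← Real.rpow_mul hx]
  exact h

lemma two_rpow_a : (2 : ℝ) ^ (-(31 / 64) : ℝ) ≤ 72 / 100 := by
  refine rpow_le_of_pow (n := 64) (by norm_num) (by norm_num) (by norm_num) ?_
  rw [show (-(31 / 64) : ℝ) * ((64 : ℕ) : ℝ) = -((31 : ℕ) : ℝ) by norm_num,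
    Real.rpow_neg (by norm_num), Real.rpow_natCast]
  norm_num

lemma two_rpow_b : (2 : ℝ) ^ (-(63 / 32) : ℝ) ≤ 26 / 100 := by
  refine rpow_le_of_pow (n := 32) (by norm_num) (by norm_num) (by norm_num) ?_
  rw [show (-(63 / 32) : ℝ) * ((32 : ℕ) : ℝ) = -((63 : ℕ) : ℝ) by norm_num,
    Real.rpow_neg (by norm_num), Real.rpow_natCast]
  norm_num

lemma three_rpow : (3 : ℝ) ^ (-(63 / 64) : ℝ) ≤ 35 / 100 := by
  refine rpow_le_of_pow (n := 64) (by norm_num) (by norm_num) (by norm_num) ?_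
  rw [show (-(63 / 64) : ℝ) * ((64 : ℕ) : ℝ) = -((63 : ℕ) : ℝ) by norm_num,
    Real.rpow_neg (by norm_num), Real.rpow_natCast]
  norm_num

lemma wt_sg : wt v sg = (nm v : ℝ) ^ (-(63 / 64) : ℝ) := by
  rw [wt, sg]
  norm_num

lemma wt_sg_sq : wt v sg ^ 2 = (nm v : ℝ) ^ (-(63 / 32) : ℝ) := by
  rw [wt_sg, ← Real.rpow_natCast, ← Real.rpow_mul (nm_pos v).le]
  norm_num

lemma two_le_nm : (2 : ℝ) ≤ nm v := by exact_mod_cast one_lt_nm v

lemma tr_sg_le : |(tr W v : ℝ)| * (nm v : ℝ) ^ (-sg) ≤ (nm v : ℝ) ^ (-(31 / 64) : ℝ) := by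
  have h := nm_pos v
  obtain ⟨-, ha, -, -⟩ := lp_eq W v
  have ha' : |(tr W v : ℝ)| ≤ nm v := by exact_mod_cast ha
  calc |(tr W v : ℝ)| * (nm v : ℝ) ^ (-sg) ≤ nm v * (nm v : ℝ) ^ (-sg) := by gcongr
    _ = (nm v : ℝ) ^ (-(31 / 64) : ℝ) := by
        nth_rewrite 1 [← Real.rpow_one (nm v : ℝ)]
        rw [← Real.rpow_add h, sg]
        norm_num

lemma xi_sg_le_even : xi W v sg ≤ 2 * (nm v : ℝ) ^ (-(31 / 64) : ℝ) := by
  have h1 := tr_sg_le W v
  have h2 := bb_term_le W v sg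
  rw [wt_sg_sq] at h2
  have h3 : (1 : ℝ) ≤ nm v := by linarith [two_le_nm v]
  have h4 : (nm v : ℝ) ^ (-(63 / 32) : ℝ) ≤ (nm v : ℝ) ^ (-(31 / 64) : ℝ) :=
    Real.rpow_le_rpow_of_exponent_le h3 (by norm_num)
  unfold xi
  linarith

lemma wt_sg_le_odd (hp : pr v ≠ 2) : wt v sg ≤ 35 / 100 := by
  rw [wt_sg]
  exact (Real.rpow_le_rpow_of_nonpos (by norm_num) (three_le_of_odd v hp) (by norm_num)).trans
    three_rpow

lemma xi_sg_le_odd (hp : pr v ≠ 2) : xi W v sg ≤ 3 * wt v sg := by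
  have h1 := bb_term_le W v sg
  have h2 := tr_term_le_of_odd W v hp sg
  have h3 := wt_sg_le_odd v hp
  have h4 := wt_pos v sg
  unfold xi
  nlinarith

lemma xi_sg_le : xi W v sg ≤ 49 / 50 := by
  by_cases hp : pr v = 2
  · have h1 := tr_sg_le W v
    have h2 := bb_term_le W v sg
    rw [wt_sg_sq] at h2
    have h3 : (nm v : ℝ) ^ (-(31 / 64) : ℝ) ≤ 72 / 100 :=
      (Real.rpow_le_rpow_of_nonpos (by norm_num) (two_le_nm v) (by norm_num)).trans two_rpow_a
    have h4 : (nm v : ℝ) ^ (-(63 / 32) : ℝ) ≤ 26 / 100 :=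
      (Real.rpow_le_rpow_of_nonpos (by norm_num) (two_le_nm v) (by norm_num)).trans two_rpow_b
    unfold xi
    linarith
  · have h1 := bb_term_le W v sg
    have h2 := tr_term_le_of_odd W v hp sg
    have h3 := wt_sg_le_odd v hp
    have h4 := wt_pos v sg
    unfold xi
    nlinarith

lemma log_nm_le {e : ℝ} (he : 0 < e) : Real.log (nm v) ≤ (nm v : ℝ) ^ e / e :=
  Real.log_le_rpow_div (nm_pos v).le he

/-- The local bound. -/
lemma hn_L2 : HN sg (L2 W v) (8000 * (pr v : ℝ) ^ (-(3 / 2) : ℝ)) := by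
  have hq := nm_pos v
  have hq1 : (1 : ℝ) ≤ nm v := by linarith [two_le_nm v]
  have hl := log_nm_pos v
  have hx := xi_sg_le W v
  have hx0 := xi_nonneg W v sg
  have hp0 : (0 : ℝ) < pr v := by exact_mod_cast (pr_prime v).pos
  by_cases hp : pr v = 2
  · have hcc : cc W v = 0 := by
      rw [cc, if_neg (by simp [hp])]
    refine (hn_L2_of_zero W v hx (by norm_num) hcc).mono ?_
    have h1 := xi_sg_le_even W v
    have h2 := log_nm_le v (e := 1 / 4) (by norm_num)
    have h3 : (nm v : ℝ) ^ (1 / 4 : ℝ) * (nm v : ℝ) ^ (-(31 / 64) : ℝ) ≤ 1 := by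
      rw [← Real.rpow_add hq]
      exact Real.rpow_le_one_of_one_le_of_nonpos hq1 (by norm_num)
    have h4 : Real.log (nm v) * xi W v sg ≤ 8 := by
      calc Real.log (nm v) * xi W v sg ≤
            ((nm v : ℝ) ^ (1 / 4 : ℝ) / (1 / 4)) * (2 * (nm v : ℝ) ^ (-(31 / 64) : ℝ)) :=
            mul_le_mul h2 h1 hx0 (by positivity)
        _ = 8 * ((nm v : ℝ) ^ (1 / 4 : ℝ) * (nm v : ℝ) ^ (-(31 / 64) : ℝ)) := by ring
        _ ≤ 8 * 1 := by gcongr
        _ = 8 := by norm_num
    have h5 : (1 / 4 : ℝ) ≤ (pr v : ℝ) ^ (-(3 / 2) : ℝ) := by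
      rw [hp]
      have : ((2 : ℕ) : ℝ) ^ (-(2 : ℝ)) ≤ ((2 : ℕ) : ℝ) ^ (-(3 / 2) : ℝ) :=
        Real.rpow_le_rpow_of_exponent_le (by norm_num) (by norm_num)
      refine le_trans ?_ this
      rw [Real.rpow_neg (by norm_num), Real.rpow_two]
      norm_num
    have e : 1 / (1 - 49 / 50 : ℝ) * (2 * Real.log (nm v) * xi W v sg) =
        100 * (Real.log (nm v) * xi W v sg) := by ring
    rw [e]
    linarith
  · have hw := wt_pos v sg
    have h1 := xi_sg_le_odd W v hp
    have h2 := log_nm_le v (e := 1 / 8) (by norm_num)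
    by_cases hd : nm v = pr v
    · refine (hn_L2_of_deg W v (le_refl (xi W v sg)) (by linarith) ⟨hp, hd⟩).mono ?_
      have h3 : 1 / (1 - xi W v sg) - 1 ≤ 50 * xi W v sg := by
        rw [sub_le_iff_le_add, div_le_iff₀ (by linarith)]
        nlinarith
      have h4 : (1 / (1 - xi W v sg) - 1) * (2 * Real.log (nm v) * xi W v sg) ≤
          900 * (Real.log (nm v) * wt v sg ^ 2) := by
        calc _ ≤ 50 * xi W v sg * (2 * Real.log (nm v) * xi W v sg) := by gcongr
          _ = 100 * Real.log (nm v) * (xi W v sg) ^ 2 := by ring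
          _ ≤ 100 * Real.log (nm v) * (3 * wt v sg) ^ 2 := by gcongr
          _ = _ := by ring
      have h5 : Real.log (nm v) * wt v sg ^ 2 ≤ 8 * (pr v : ℝ) ^ (-(3 / 2) : ℝ) := by
        calc Real.log (nm v) * wt v sg ^ 2 ≤ ((nm v : ℝ) ^ (1 / 8 : ℝ) / (1 / 8)) *
              (nm v : ℝ) ^ (-(63 / 32) : ℝ) := by
              rw [wt_sg_sq]
              gcongr
          _ = 8 * (nm v : ℝ) ^ (-(59 / 32) : ℝ) := by
              rw [div_mul_eq_mul_div, ← Real.rpow_add hq]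
              norm_num
              ring
          _ ≤ 8 * (nm v : ℝ) ^ (-(3 / 2) : ℝ) := by
              have := Real.rpow_le_rpow_of_exponent_le hq1
                (by norm_num : (-(59 / 32) : ℝ) ≤ -(3 / 2))
              linarith
          _ = _ := by rw [hd]
      have h6 : 0 ≤ (pr v : ℝ) ^ (-(3 / 2) : ℝ) := by positivity
      linarith
    · have hcc : cc W v = 0 := by
        rw [cc, if_neg (by tauto)]
      refine (hn_L2_of_zero W v hx (by norm_num) hcc).mono ?_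
      have h3 : ((pr v : ℝ)) ^ 2 ≤ nm v := by exact_mod_cast sq_pr_le_nm v hd
      have h4 : Real.log (nm v) * xi W v sg ≤ 24 * (pr v : ℝ) ^ (-(3 / 2) : ℝ) := by
        calc Real.log (nm v) * xi W v sg ≤ ((nm v : ℝ) ^ (1 / 8 : ℝ) / (1 / 8)) *
              (3 * (nm v : ℝ) ^ (-(63 / 64) : ℝ)) := by
              rw [← wt_sg]
              exact mul_le_mul h2 h1 hx0 (by positivity)
          _ = 24 * (nm v : ℝ) ^ (-(55 / 64) : ℝ) := by
              have e : (nm v : ℝ) ^ (-(55 / 64) : ℝ) =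
                  (nm v : ℝ) ^ (1 / 8 : ℝ) * (nm v : ℝ) ^ (-(63 / 64) : ℝ) := by
                rw [← Real.rpow_add hq]
                norm_num
              rw [e]
              ring
          _ ≤ 24 * ((pr v : ℝ) ^ 2) ^ (-(55 / 64) : ℝ) := by
              have := Real.rpow_le_rpow_of_nonpos (by positivity) h3
                (by norm_num : (-(55 / 64) : ℝ) ≤ 0)
              linarith
          _ ≤ 24 * (pr v : ℝ) ^ (-(3 / 2) : ℝ) := by
              have hp1 : (1 : ℝ) ≤ pr v := by exact_mod_cast (pr_prime v).one_lt.le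
              rw [← Real.rpow_natCast, ← Real.rpow_mul hp0.le]
              have := Real.rpow_le_rpow_of_exponent_le hp1
                (by norm_num : (((2 : ℕ) : ℝ) * (-(55 / 64)) : ℝ) ≤ -(3 / 2))
              linarith
      have h6 : 0 ≤ (pr v : ℝ) ^ (-(3 / 2) : ℝ) := by positivity
      have e : 1 / (1 - 49 / 50 : ℝ) * (2 * Real.log (nm v) * xi W v sg) =
          100 * (Real.log (nm v) * xi W v sg) := by ring
      rw [e]
      linarith

end loc

/-! ### Assembly -/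

section asm

variable (K : Type*) [Field K] [NumberField K]

lemma summable_h : Summable fun v : HeightOneSpectrum (𝓞 K) =>
    8000 * (pr v : ℝ) ^ (-(3 / 2) : ℝ) := by
  have h1 : Summable fun n : ℕ => 8000 * (n : ℝ) ^ (-(3 / 2) : ℝ) :=
    (Real.summable_nat_rpow.mpr (by norm_num)).mul_left _
  exact summable_pr (h := fun n : ℕ => 8000 * (n : ℝ) ^ (-(3 / 2) : ℝ))
    (fun n => by positivity) h1

variable {K} (W : WeierstrassCurve K)

lemma summable_F : Summable fun x : HeightOneSpectrum (𝓞 K) × ℕ =>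
    |L2 W x.1 x.2| * (x.2 : ℝ) ^ (-sg) := by
  rw [summable_prod_of_nonneg (fun x => by positivity)]
  refine ⟨fun v => (hn_L2 W v).1, ?_⟩
  exact Summable.of_nonneg_of_le (fun v => tsum_nonneg fun n => by positivity)
    (fun v => (hn_L2 W v).2) (summable_h K)

/-- The remainder. -/
noncomputable def Lam2 (k : ℕ) : ℝ := ∑' v : HeightOneSpectrum (𝓞 K), L2 W v k

lemma summable_F' (k : ℕ) : Summable fun v : HeightOneSpectrum (𝓞 K) =>
    |L2 W v k| * (k : ℝ) ^ (-sg) :=
  ((Equiv.prodComm _ _).summable_iff.mpr (summable_F W)).prod_factor k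

lemma hasSum_L2 {k : ℕ} (hk : k ≠ 0) : HasSum (fun v => L2 W v k) (Lam2 W k) := by
  have h := summable_F' W k
  have hk' : (0 : ℝ) < (k : ℝ) ^ (-sg) := Real.rpow_pos_of_pos (by positivity) _
  have h1 : Summable fun v => |L2 W v k| := by
    refine (h.mul_right ((k : ℝ) ^ (-sg))⁻¹).congr fun v => ?_
    field_simp
  exact (summable_abs_iff.mp h1).hasSum

lemma lam2_le (k : ℕ) : |Lam2 W k| * (k : ℝ) ^ (-sg) ≤
    ∑' v : HeightOneSpectrum (𝓞 K), |L2 W v k| * (k : ℝ) ^ (-sg) := by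
  rcases Nat.eq_zero_or_pos k with rfl | hk
  · have : Lam2 W 0 = 0 := by
      rw [Lam2]
      simp
    rw [this, abs_zero, zero_mul]
    exact tsum_nonneg fun v => by positivity
  · have h1 := hasSum_L2 W hk.ne'
    have h2 : Summable fun v => |L2 W v k| := by
      have h := summable_F' W k
      have hk' : (0 : ℝ) < (k : ℝ) ^ (-sg) := Real.rpow_pos_of_pos (by positivity) _
      refine (h.mul_right ((k : ℝ) ^ (-sg))⁻¹).congr fun v => ?_
      field_simp
    rw [tsum_mul_right]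
    refine mul_le_mul_of_nonneg_right ?_ (by positivity)
    rw [← h1.tsum_eq, ← Real.norm_eq_abs]
    exact tsum_of_norm_bounded h2.hasSum fun v => le_of_eq (Real.norm_eq_abs _)

lemma summable_lam2 : Summable (fun k : ℕ => |Lam2 W k| * (k : ℝ) ^ (-sg)) ∧
    ∑' k : ℕ, |Lam2 W k| * (k : ℝ) ^ (-sg) ≤
      ∑' v : HeightOneSpectrum (𝓞 K), 8000 * (pr v : ℝ) ^ (-(3 / 2) : ℝ) := by
  have hF := summable_F W
  have hF' := (Equiv.prodComm _ _).summable_iff.mpr hF
  have h1 : Summable fun k : ℕ => ∑' v : HeightOneSpectrum (𝓞 K),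
      |L2 W v k| * (k : ℝ) ^ (-sg) := hF'.prod
  have h2 : Summable (fun k : ℕ => |Lam2 W k| * (k : ℝ) ^ (-sg)) :=
    Summable.of_nonneg_of_le (fun k => by positivity) (lam2_le W) h1
  refine ⟨h2, (h2.tsum_le_tsum (lam2_le W) h1).trans ?_⟩
  have h3 : ∑' (k : ℕ) (v : HeightOneSpectrum (𝓞 K)), |L2 W v k| * (k : ℝ) ^ (-sg) =
      ∑' (v : HeightOneSpectrum (𝓞 K)) (k : ℕ), |L2 W v k| * (k : ℝ) ^ (-sg) :=
    Summable.tsum_comm (f := fun (v : HeightOneSpectrum (𝓞 K)) (k : ℕ) =>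
      |L2 W v k| * (k : ℝ) ^ (-sg)) hF
  rw [h3]
  refine Summable.tsum_le_tsum (fun v => (hn_L2 W v).2) hF.prod (summable_h K)

/-- The sum of the terms on the primes. -/
lemma hasSum_g1 (k : ℕ) : HasSum (fun v => g1 W v k) (cp W k * Real.sqrt k * Real.log k) := by
  have hfin := finite_fiber (K := K) k
  have := hfin.to_subtype
  have h1 : HasSum (fun v : (nm (K := K)) ⁻¹' {k} => cc W v) (cp W k) := by
    rw [cp]
    exact (Summable.of_finite (f := fun v : (nm (K := K)) ⁻¹' {k} => cc W v)).hasSum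
  have h2 := (h1.mul_right (Real.sqrt k)).mul_right (Real.log k)
  have h3 : HasSum ((fun v => cc W v * Real.sqrt k * Real.log k) ∘
      ((↑) : (nm (K := K)) ⁻¹' {k} → HeightOneSpectrum (𝓞 K)))
      (cp W k * Real.sqrt k * Real.log k) := h2
  rw [hasSum_subtype_iff_indicator] at h3
  convert h3 using 1
  ext v
  rw [g1_apply]
  by_cases h : k = nm v
  · rw [if_pos h, Set.indicator_of_mem (show v ∈ (nm (K := K)) ⁻¹' {k} from h.symm), h]
  · rw [if_neg h, Set.indicator_of_notMem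
      (fun h' : v ∈ (nm (K := K)) ⁻¹' {k} => h (Eq.symm h'))]

lemma hasSum_L {k : ℕ} (hk : k ≠ 0) : HasSum (fun v => (fR W v * gR W v) k)
    (cp W k * Real.sqrt k * Real.log k + Lam2 W k) := by
  have h := (hasSum_g1 W k).add (hasSum_L2 W hk)
  have e : (fun v => g1 W v k + L2 W v k) = fun v => (fR W v * gR W v) k := by
    ext v
    rw [L2, sub_apply']
    ring
  rwa [e] at h

lemma cast_prod (S : Finset (HeightOneSpectrum (𝓞 K))) (n : ℕ) :
    (∏ v ∈ S, fR W v) n = (((∏ v ∈ S, fac W v) n : ℤ) : ℝ) := by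
  classical
  have h : ∏ v ∈ S, fR W v = ((∏ v ∈ S, fac W v : ArithmeticFunction ℤ) :
      ArithmeticFunction ℝ) := by
    induction S using Finset.induction_on with
    | empty => rw [Finset.prod_empty, Finset.prod_empty, intCoe_one]
    | insert v S hv ih => rw [Finset.prod_insert hv, Finset.prod_insert hv, ih, intCoe_mul, fR]
  rw [h, intCoe_apply]

theorem identity {n : ℕ} : (W.LFunction n : ℝ) * Real.log n =
    ∑ p ∈ n.divisorsAntidiagonal, (W.LFunction p.1 : ℝ) *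
      (cp W p.2 * Real.sqrt p.2 * Real.log p.2 + Lam2 W p.2) := by
  have hconv : ∀ m : ℕ, Tendsto (fun S : Finset (HeightOneSpectrum (𝓞 K)) =>
      (∏ v ∈ S, fR W v) m) atTop (𝓝 (W.LFunction m : ℝ)) := by
    intro m
    refine tendsto_const_nhds.congr' ?_
    filter_upwards [tendsTo_eulerProduct_of_tendsTo (fac W) (fac_cofinite W) m] with S hS
    rw [cast_prod, hS, LFunction_eq]
  have h1 : Tendsto (fun S : Finset (HeightOneSpectrum (𝓞 K)) =>
      (∏ v ∈ S, fR W v) n * Real.log n) atTop (𝓝 ((W.LFunction n : ℝ) * Real.log n)) :=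
    (hconv n).mul_const _
  have h2 : Tendsto (fun S : Finset (HeightOneSpectrum (𝓞 K)) =>
      ∑ p ∈ n.divisorsAntidiagonal, (∏ v ∈ S, fR W v) p.1 *
        ∑ v ∈ S, (fR W v * gR W v) p.2) atTop
      (𝓝 (∑ p ∈ n.divisorsAntidiagonal, (W.LFunction p.1 : ℝ) *
        (cp W p.2 * Real.sqrt p.2 * Real.log p.2 + Lam2 W p.2))) := by
    refine tendsto_finsetSum _ fun p hp => (hconv p.1).mul ?_
    refine hasSum_L W ?_
    obtain ⟨h3, h4⟩ := Nat.mem_divisorsAntidiagonal.mp hp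
    rintro h
    rw [h, mul_zero] at h3
    exact h4 h3.symm
  refine tendsto_nhds_unique h1 (h2.congr fun S => ?_)
  have h3 := dl_prod (f := fR W) (L := fun v => fR W v * gR W v) (dl_fR W) S
  have h4 := congrArg (fun f : ArithmeticFunction ℝ => f n) h3
  simp only [dl_apply, mul_apply, sum_apply'] at h4 ⊢
  exact h4.symm

end asm

end CV40

/-- CV: the convolution identity. -/
theorem stCV (K : Type*) [Field K] [NumberField K] : StCV K := by
  refine ⟨1 / 64, ∑' v : HeightOneSpectrum (𝓞 K), 8000 * (pr v : ℝ) ^ (-(3 / 2) : ℝ),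
    by norm_num, by norm_num, fun W => ⟨CV40.Lam2 W, ?_, ?_, ?_, fun n _ => CV40.identity W⟩⟩
  · rw [CV40.Lam2]
    simp
  · have h := (CV40.summable_lam2 W).1
    have e : (-(3 / 2) + 1 / 64 : ℝ) = -CV40.sg := by rw [CV40.sg]; ring
    simp_rw [e]
    exact h
  · have h := (CV40.summable_lam2 W).2
    have e : (-(3 / 2) + 1 / 64 : ℝ) = -CV40.sg := by rw [CV40.sg]; ring
    simp_rw [e]
    exact h

end Pool.Agent.Lib.MP_bf61d2_nt.MV59
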