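import Mathlib
import Pool.Agent.Lib.MP_bf61d2_nt.Trim.MV59.Stmts
import Pool.Agent.Lib.MP_bf61d2_nt.Trim.MV59X.BaseX59
import Pool.Agent.Lib.MP_bf61d2_nt.Trim.Places
import Pool.Agent.Lib.MP_bf61d2_nt.Trim.Structure

set_option autoImplicit false

/-!
Mean values (MP_bf61d2_nt), module L2: the local mean square of the derivative of the prime sum.
-/

namespace Pool.Agent.Lib.MP_bf61d2_nt.MV59

open MeasureTheory Set Filter Topology

namespace L38

/-- The Gaussian integral. -/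
lemma gauss (c y : ℝ) :
    Integrable (fun t : ℝ => ((Real.exp (-(t - c) ^ 2 / 2) : ℝ) : ℂ) *
      Complex.exp (((-(t * y) : ℝ) : ℂ) * Complex.I)) ∧
    ‖∫ t : ℝ, ((Real.exp (-(t - c) ^ 2 / 2) : ℝ) : ℂ) *
      Complex.exp (((-(t * y) : ℝ) : ℂ) * Complex.I)‖ ≤ 3 * Real.exp (-y ^ 2 / 2) := by
  have e : (fun t : ℝ => ((Real.exp (-(t - c) ^ 2 / 2) : ℝ) : ℂ) *
      Complex.exp (((-(t * y) : ℝ) : ℂ) * Complex.I)) =
      fun t : ℝ => Complex.exp ((-(1 / 2 : ℂ)) * t ^ 2 + (c - y * Complex.I) * t + (-(c : ℂ) ^ 2 / 2)) := by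
    funext t
    rw [Complex.ofReal_exp, ← Complex.exp_add]
    congr 1
    push_cast
    ring
  rw [e]
  refine ⟨integrable_cexp_quadratic (by norm_num) _ _, ?_⟩
  rw [integral_cexp_quadratic (by norm_num), norm_mul]
  have h1 : ‖((Real.pi : ℂ) / -(-(1 / 2 : ℂ))) ^ (1 / 2 : ℂ)‖ ≤ 3 := by
    have h2 : ((Real.pi : ℂ) / -(-(1 / 2 : ℂ))) = ((2 * Real.pi : ℝ) : ℂ) := by
      push_cast; ring
    have h3 : (1 / 2 : ℂ) = ((1 / 2 : ℝ) : ℂ) := by push_cast; ring
    rw [h2, h3, ← Complex.ofReal_cpow (by positivity), Complex.norm_real, Real.norm_eq_abs,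
      abs_of_nonneg (by positivity), ← Real.sqrt_eq_rpow]
    rw [Real.sqrt_le_left (by norm_num)]
    have := Real.pi_lt_d2
    linarith
  have h2 : ‖Complex.exp (-(c : ℂ) ^ 2 / 2 - ((c : ℂ) - y * Complex.I) ^ 2 / (4 * (-(1 / 2 : ℂ))))‖ =
      Real.exp (-y ^ 2 / 2) := by
    rw [Complex.norm_exp]
    congr 1
    have h3 : (-(c : ℂ) ^ 2 / 2 - ((c : ℂ) - y * Complex.I) ^ 2 / (4 * (-(1 / 2 : ℂ)))) =
        ((-y ^ 2 / 2 : ℝ) : ℂ) + ((-(c * y) : ℝ) : ℂ) * Complex.I := by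
      push_cast
      have : Complex.I ^ 2 = -1 := Complex.I_sq
      linear_combination ((y : ℂ) ^ 2 / 2) * this
    rw [h3, Complex.add_re, Complex.ofReal_re, Complex.re_ofReal_mul, Complex.I_re, mul_zero,
      add_zero]
  rw [h2]
  exact mul_le_mul_of_nonneg_right h1 (Real.exp_pos _).le

/-- A finite exponential sum in mean square over an interval of length one. -/
lemma mean_sq (S : Finset ℕ) (b : ℕ → ℂ) (w : ℕ → ℝ) (x : ℝ) :
    ∫ t in x..(x + 1), ‖∑ n ∈ S, b n * Complex.exp (((-(t * w n) : ℝ) : ℂ) * Complex.I)‖ ^ 2 ≤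
      4 * ∑ m ∈ S, ∑ n ∈ S, ‖b m‖ * ‖b n‖ * Real.exp (-(w m - w n) ^ 2 / 2) := by
  set c : ℝ := x + 1 / 2 with hc
  set f : ℝ → ℂ := fun t => ∑ n ∈ S, b n * Complex.exp (((-(t * w n) : ℝ) : ℂ) * Complex.I) with hf
  set G : ℝ → ℝ := fun t => Real.exp (-(t - c) ^ 2 / 2) with hG
  have hG0 : ∀ t, 0 ≤ G t := fun t => (Real.exp_pos _).le
  have hfc : Continuous f := by
    rw [hf]; fun_prop
  have hGc : Continuous G := by
    rw [hG]; fun_prop
  -- expansion
  have hexp : ∀ t : ℝ, ((G t * ‖f t‖ ^ 2 : ℝ) : ℂ) = ∑ m ∈ S, ∑ n ∈ S,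
      (b m * (starRingEnd ℂ) (b n)) * (((Real.exp (-(t - c) ^ 2 / 2) : ℝ) : ℂ) *
        Complex.exp (((-(t * (w m - w n)) : ℝ) : ℂ) * Complex.I)) := by
    intro t
    have h1 : ((‖f t‖ ^ 2 : ℝ) : ℂ) = f t * (starRingEnd ℂ) (f t) := by
      rw [Complex.mul_conj, Complex.normSq_eq_norm_sq]
    rw [Complex.ofReal_mul, h1, hf]
    simp only
    rw [map_sum, Finset.sum_mul_sum, Finset.mul_sum]
    refine Finset.sum_congr rfl fun m _ => ?_
    rw [Finset.mul_sum]
    refine Finset.sum_congr rfl fun n _ => ?_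
    rw [map_mul, ← Complex.exp_conj, map_mul, Complex.conj_ofReal, Complex.conj_I]
    have h2 : Complex.exp (((-(t * (w m - w n)) : ℝ) : ℂ) * Complex.I) =
        Complex.exp (((-(t * w m) : ℝ) : ℂ) * Complex.I) *
        Complex.exp (((-(t * w n) : ℝ) : ℂ) * -Complex.I) := by
      rw [← Complex.exp_add]
      congr 1
      push_cast
      ring
    rw [h2, hG]
    ring
  have hint : ∀ m ∈ S, ∀ n ∈ S, Integrable (fun t : ℝ => (b m * (starRingEnd ℂ) (b n)) *
      (((Real.exp (-(t - c) ^ 2 / 2) : ℝ) : ℂ) *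
        Complex.exp (((-(t * (w m - w n)) : ℝ) : ℂ) * Complex.I))) := fun m _ n _ =>
    (gauss c (w m - w n)).1.const_mul _
  have hI : Integrable (fun t : ℝ => ((G t * ‖f t‖ ^ 2 : ℝ) : ℂ)) := by
    have : (fun t : ℝ => ((G t * ‖f t‖ ^ 2 : ℝ) : ℂ)) = fun t => ∑ m ∈ S, ∑ n ∈ S,
      (b m * (starRingEnd ℂ) (b n)) * (((Real.exp (-(t - c) ^ 2 / 2) : ℝ) : ℂ) *
        Complex.exp (((-(t * (w m - w n)) : ℝ) : ℂ) * Complex.I)) := funext hexp
    rw [this]
    exact integrable_finsetSum _ fun m hm => integrable_finsetSum _ fun n hn => hint m hm n hn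
  have hIr : Integrable (fun t : ℝ => G t * ‖f t‖ ^ 2) := by
    have := hI.re
    refine this.congr (Eventually.of_forall fun t => ?_)
    simp only [RCLike.re_to_complex, Complex.ofReal_re]
  have hval : ∫ t, G t * ‖f t‖ ^ 2 ≤ 3 * ∑ m ∈ S, ∑ n ∈ S,
      ‖b m‖ * ‖b n‖ * Real.exp (-(w m - w n) ^ 2 / 2) := by
    have h1 : ((∫ t, G t * ‖f t‖ ^ 2 : ℝ) : ℂ) = ∑ m ∈ S, ∑ n ∈ S,
        (b m * (starRingEnd ℂ) (b n)) * ∫ t : ℝ, (((Real.exp (-(t - c) ^ 2 / 2) : ℝ) : ℂ) *
        Complex.exp (((-(t * (w m - w n)) : ℝ) : ℂ) * Complex.I)) := by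
      rw [← integral_complex_ofReal]
      simp_rw [hexp]
      rw [integral_finsetSum _ fun m hm => integrable_finsetSum _ fun n hn => hint m hm n hn]
      refine Finset.sum_congr rfl fun m hm => ?_
      rw [integral_finsetSum _ fun n hn => hint m hm n hn]
      refine Finset.sum_congr rfl fun n hn => ?_
      rw [integral_const_mul]
    have h2 : ∫ t, G t * ‖f t‖ ^ 2 ≤ ‖((∫ t, G t * ‖f t‖ ^ 2 : ℝ) : ℂ)‖ := by
      rw [Complex.norm_real]
      exact le_abs_self _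
    refine h2.trans ?_
    rw [h1, Finset.mul_sum]
    refine (norm_sum_le _ _).trans (Finset.sum_le_sum fun m _ => ?_)
    rw [Finset.mul_sum]
    refine (norm_sum_le _ _).trans (Finset.sum_le_sum fun n _ => ?_)
    rw [norm_mul, norm_mul, RCLike.norm_conj]
    have h3 := (gauss c (w m - w n)).2
    calc ‖b m‖ * ‖b n‖ * _ ≤ ‖b m‖ * ‖b n‖ * (3 * Real.exp (-(w m - w n) ^ 2 / 2)) := by gcongr
      _ = _ := by ring
  have hS0 : 0 ≤ ∑ m ∈ S, ∑ n ∈ S, ‖b m‖ * ‖b n‖ * Real.exp (-(w m - w n) ^ 2 / 2) :=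
    Finset.sum_nonneg fun _ _ => Finset.sum_nonneg fun _ _ => by positivity
  -- comparison
  have hcmp : ∀ t ∈ Icc x (x + 1), ‖f t‖ ^ 2 ≤ 4 / 3 * (G t * ‖f t‖ ^ 2) := by
    intro t ht
    have h1 : 3 / 4 ≤ G t := by
      rw [hG]
      simp only
      have h2 : (t - c) ^ 2 ≤ 1 / 4 := by
        have h3 : |t - c| ≤ 1 / 2 := by
          rw [abs_le, hc]
          constructor <;> linarith [ht.1, ht.2]
        nlinarith [abs_nonneg (t - c), sq_abs (t - c)]
      have h4 := Real.add_one_le_exp (-(t - c) ^ 2 / 2)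
      linarith
    have h5 : 0 ≤ ‖f t‖ ^ 2 := by positivity
    nlinarith
  calc ∫ t in x..(x + 1), ‖f t‖ ^ 2 ≤ ∫ t in x..(x + 1), 4 / 3 * (G t * ‖f t‖ ^ 2) := by
        refine intervalIntegral.integral_mono_on (by linarith) ?_ ?_ hcmp
        · exact (Continuous.intervalIntegrable (by fun_prop) _ _)
        · exact (Continuous.intervalIntegrable (by fun_prop) _ _)
    _ = 4 / 3 * ∫ t in Ioc x (x + 1), G t * ‖f t‖ ^ 2 := by
        rw [intervalIntegral.integral_const_mul, intervalIntegral.integral_of_le (by linarith)]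
    _ ≤ 4 / 3 * ∫ t, G t * ‖f t‖ ^ 2 := by
        refine mul_le_mul_of_nonneg_left ?_ (by norm_num)
        exact setIntegral_le_integral hIr (Eventually.of_forall fun t =>
          mul_nonneg (hG0 t) (by positivity))
    _ ≤ 4 / 3 * (3 * ∑ m ∈ S, ∑ n ∈ S, ‖b m‖ * ‖b n‖ * Real.exp (-(w m - w n) ^ 2 / 2)) := by
        gcongr
    _ = _ := by ring

/-- A kernel inequality. -/
lemma kernel {N m n : ℕ} (hm : 1 ≤ m) (hn : 1 ≤ n) (hmN : m < N) (hnN : n < N) :
    Real.exp (-(Real.log m - Real.log n) ^ 2 / 2) ≤ 256 * ∑ k ∈ Finset.Icc 1 (2 * N),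
      (if m ≤ k then (m : ℝ) ^ 2 else 0) * (if n ≤ k then (n : ℝ) ^ 2 else 0) / (k : ℝ) ^ 5 := by
  wlog h : n ≤ m generalizing m n
  · have := this hn hm hnN hmN (le_of_not_ge h)
    rw [show -(Real.log m - Real.log n) ^ 2 / 2 = -(Real.log n - Real.log m) ^ 2 / 2 by ring]
    refine this.trans (le_of_eq ?_)
    congr 1
    refine Finset.sum_congr rfl fun k _ => ?_
    ring
  have hm0 : (0 : ℝ) < m := by exact_mod_cast hm
  have hn0 : (0 : ℝ) < n := by exact_mod_cast hn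
  have h1 : Real.exp (-(Real.log m - Real.log n) ^ 2 / 2) ≤ 8 * ((n : ℝ) / m) ^ 2 := by
    have h2 : ((n : ℝ) / m) ^ 2 = Real.exp (-(2 * (Real.log m - Real.log n))) := by
      rw [show -(2 * (Real.log m - Real.log n)) = (2 : ℕ) * (Real.log n - Real.log m) by push_cast; ring,
        Real.exp_nat_mul, Real.exp_sub, Real.exp_log hn0, Real.exp_log hm0]
    have h3 : Real.exp 2 ≤ 8 := by
      have h4 := Real.exp_one_lt_d9
      have h5 : Real.exp 2 = Real.exp 1 ^ 2 := by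
        rw [← Real.exp_nat_mul]; norm_num
      rw [h5]
      nlinarith [Real.exp_pos 1]
    rw [h2]
    calc Real.exp (-(Real.log m - Real.log n) ^ 2 / 2)
        ≤ Real.exp (2 + -(2 * (Real.log m - Real.log n))) := by
          refine Real.exp_le_exp.2 ?_
          nlinarith [sq_nonneg (Real.log m - Real.log n - 2)]
      _ = Real.exp 2 * Real.exp (-(2 * (Real.log m - Real.log n))) := Real.exp_add _ _
      _ ≤ 8 * Real.exp (-(2 * (Real.log m - Real.log n))) :=
          mul_le_mul_of_nonneg_right h3 (Real.exp_pos _).le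
  refine h1.trans ?_
  have h2 : (m : ℝ) * (((m : ℝ) ^ 2 * (n : ℝ) ^ 2) / (2 * m) ^ 5) ≤ ∑ k ∈ Finset.Icc 1 (2 * N),
      (if m ≤ k then (m : ℝ) ^ 2 else 0) * (if n ≤ k then (n : ℝ) ^ 2 else 0) / (k : ℝ) ^ 5 := by
    have h3 : Finset.Ico m (2 * m) ⊆ Finset.Icc 1 (2 * N) := by
      intro k hk
      rw [Finset.mem_Ico] at hk
      rw [Finset.mem_Icc]
      omega
    refine le_trans ?_ (Finset.sum_le_sum_of_subset_of_nonneg h3 fun k _ _ => by positivity)
    have h4 : ∀ k ∈ Finset.Ico m (2 * m), ((m : ℝ) ^ 2 * (n : ℝ) ^ 2) / (2 * m) ^ 5 ≤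
        (if m ≤ k then (m : ℝ) ^ 2 else 0) * (if n ≤ k then (n : ℝ) ^ 2 else 0) / (k : ℝ) ^ 5 := by
      intro k hk
      rw [Finset.mem_Ico] at hk
      rw [if_pos hk.1, if_pos (h.trans hk.1)]
      have hk0 : (0 : ℝ) < k := by
        have : 0 < k := by omega
        exact_mod_cast this
      have hk1 : (k : ℝ) ≤ 2 * m := by exact_mod_cast hk.2.le
      gcongr
    refine le_trans (le_of_eq ?_) (Finset.card_nsmul_le_sum _ _ _ h4)
    rw [Nat.card_Ico, nsmul_eq_mul]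
    congr 2
    omega
  calc 8 * ((n : ℝ) / m) ^ 2 = 256 * ((m : ℝ) * (((m : ℝ) ^ 2 * (n : ℝ) ^ 2) / (2 * m) ^ 5)) := by
        field_simp
        ring
    _ ≤ _ := by gcongr

/-- The double sum. -/
lemma double_sum {N : ℕ} {β : ℕ → ℝ} (hβ : ∀ n, 0 ≤ β n) (h0 : β 0 = 0) :
    ∑ m ∈ Finset.range N, ∑ n ∈ Finset.range N,
      β m * β n * Real.exp (-(Real.log m - Real.log n) ^ 2 / 2) ≤
    256 * ∑ k ∈ Finset.Icc 1 (2 * N), (∑ m ∈ Finset.Icc 1 k, β m * (m : ℝ) ^ 2) ^ 2 / (k : ℝ) ^ 5 := by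
  have h1 : ∑ m ∈ Finset.range N, ∑ n ∈ Finset.range N,
      β m * β n * Real.exp (-(Real.log m - Real.log n) ^ 2 / 2) ≤
      ∑ m ∈ Finset.range N, ∑ n ∈ Finset.range N, 256 * ∑ k ∈ Finset.Icc 1 (2 * N),
        (if m ≤ k then β m * (m : ℝ) ^ 2 else 0) * (if n ≤ k then β n * (n : ℝ) ^ 2 else 0) /
          (k : ℝ) ^ 5 := by
    refine Finset.sum_le_sum fun m hm => Finset.sum_le_sum fun n hn => ?_
    rw [Finset.mem_range] at hm hn
    rcases Nat.eq_zero_or_pos m with rfl | hm1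
    · rw [h0, zero_mul, zero_mul]
      exact mul_nonneg (by norm_num) (Finset.sum_nonneg fun k _ => by
        have := hβ n
        split_ifs <;> positivity)
    rcases Nat.eq_zero_or_pos n with rfl | hn1
    · rw [h0, mul_zero, zero_mul]
      exact mul_nonneg (by norm_num) (Finset.sum_nonneg fun k _ => by
        have := hβ m
        split_ifs <;> positivity)
    refine (mul_le_mul_of_nonneg_left (kernel hm1 hn1 hm hn) (mul_nonneg (hβ m) (hβ n))).trans
      (le_of_eq ?_)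
    rw [Finset.mul_sum, Finset.mul_sum, Finset.mul_sum]
    refine Finset.sum_congr rfl fun k _ => ?_
    split_ifs <;> ring
  refine h1.trans ?_
  have h2 : ∑ m ∈ Finset.range N, ∑ n ∈ Finset.range N, 256 * ∑ k ∈ Finset.Icc 1 (2 * N),
        (if m ≤ k then β m * (m : ℝ) ^ 2 else 0) * (if n ≤ k then β n * (n : ℝ) ^ 2 else 0) /
          (k : ℝ) ^ 5 = 256 * ∑ k ∈ Finset.Icc 1 (2 * N),
          (∑ m ∈ Finset.range N, if m ≤ k then β m * (m : ℝ) ^ 2 else 0) ^ 2 / (k : ℝ) ^ 5 := by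
    simp_rw [← Finset.mul_sum]
    congr 1
    rw [Finset.sum_congr rfl fun m _ => Finset.sum_comm, Finset.sum_comm]
    refine Finset.sum_congr rfl fun k _ => ?_
    rw [sq, Finset.sum_mul_sum, Finset.sum_div]
    refine Finset.sum_congr rfl fun m _ => ?_
    rw [Finset.sum_div]
  rw [h2]
  refine mul_le_mul_of_nonneg_left (Finset.sum_le_sum fun k _ => ?_) (by norm_num)
  have h3 : (∑ m ∈ Finset.range N, if m ≤ k then β m * (m : ℝ) ^ 2 else 0) ≤
      ∑ m ∈ Finset.Icc 1 k, β m * (m : ℝ) ^ 2 := by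
    rw [← Finset.sum_filter]
    have h4 : ∑ m ∈ (Finset.range N).filter (fun m => m ≤ k), β m * (m : ℝ) ^ 2 ≤
        ∑ m ∈ Finset.range (k + 1), β m * (m : ℝ) ^ 2 := by
      refine Finset.sum_le_sum_of_subset_of_nonneg ?_ fun m _ _ =>
        mul_nonneg (hβ m) (by positivity)
      intro m hm
      rw [Finset.mem_filter] at hm
      rw [Finset.mem_range]
      omega
    refine h4.trans (le_of_eq ?_)
    rw [Finset.range_eq_Ico, Finset.sum_eq_sum_Ico_succ_bot (by omega : 0 < k + 1), h0, zero_mul,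
      zero_add]
    rfl
  have h5 : 0 ≤ ∑ m ∈ Finset.range N, if m ≤ k then β m * (m : ℝ) ^ 2 else 0 :=
    Finset.sum_nonneg fun m _ => by
      have := hβ m
      split_ifs <;> positivity
  gcongr

/-- Partial sums of `k ^ (-1 - s)`. -/
lemma zeta_sum {s : ℝ} (hs : 0 < s) (M : ℕ) :
    ∑ k ∈ Finset.Icc 1 M, (k : ℝ) ^ (-1 - s) ≤ 1 + 1 / s := by
  have h1 : ∀ k : ℕ, 1 ≤ k → ((k + 1 : ℕ) : ℝ) ^ (-1 - s) ≤
      1 / s * ((k : ℝ) ^ (-s) - ((k + 1 : ℕ) : ℝ) ^ (-s)) := by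
    intro k hk
    have hk0 : (0 : ℝ) < k := by exact_mod_cast hk
    have hk1 : (0 : ℝ) < ((k + 1 : ℕ) : ℝ) := by positivity
    have h2 : (k : ℝ) ^ (-s) ≥ ((k + 1 : ℕ) : ℝ) ^ (-s) * (1 + s / ((k + 1 : ℕ) : ℝ)) := by
      have h3 : (k : ℝ) = ((k + 1 : ℕ) : ℝ) * (1 - 1 / ((k + 1 : ℕ) : ℝ)) := by
        field_simp
        push_cast
        ring
      have h4 : 0 < 1 - 1 / ((k + 1 : ℕ) : ℝ) := by
        by_contra hcon
        rw [not_lt] at hcon
        have : (k : ℝ) ≤ 0 := by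
          rw [h3]
          exact mul_nonpos_of_nonneg_of_nonpos hk1.le hcon
        linarith
      have h5 : (k : ℝ) ^ (-s) = ((k + 1 : ℕ) : ℝ) ^ (-s) * (1 - 1 / ((k + 1 : ℕ) : ℝ)) ^ (-s) := by
        conv_lhs => rw [h3]
        rw [Real.mul_rpow hk1.le h4.le]
      rw [h5]
      refine mul_le_mul_of_nonneg_left ?_ (by positivity)
      rw [Real.rpow_def_of_pos h4]
      have h6 := Real.log_le_sub_one_of_pos h4
      have h7 : s / ((k + 1 : ℕ) : ℝ) ≤ Real.log (1 - 1 / ((k + 1 : ℕ) : ℝ)) * -s := by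
        have : s / ((k + 1 : ℕ) : ℝ) = (1 / ((k + 1 : ℕ) : ℝ)) * s := by ring
        rw [this]
        nlinarith
      have h8 := Real.add_one_le_exp (Real.log (1 - 1 / ((k + 1 : ℕ) : ℝ)) * -s)
      linarith
    have h9 : ((k + 1 : ℕ) : ℝ) ^ (-1 - s) = ((k + 1 : ℕ) : ℝ) ^ (-s) * (1 / ((k + 1 : ℕ) : ℝ)) := by
      rw [show (-1 - s : ℝ) = -s + -1 by ring, Real.rpow_add hk1, Real.rpow_neg_one]
      rw [one_div]
    rw [h9, div_mul_eq_mul_div, one_mul, le_div_iff₀ hs]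
    have : ((k + 1 : ℕ) : ℝ) ^ (-s) * (1 + s / ((k + 1 : ℕ) : ℝ)) =
        ((k + 1 : ℕ) : ℝ) ^ (-s) + ((k + 1 : ℕ) : ℝ) ^ (-s) * (1 / ((k + 1 : ℕ) : ℝ)) * s := by ring
    linarith
  rcases Nat.eq_zero_or_pos M with rfl | hM
  · simp
    positivity
  have h2 : ∀ M : ℕ, 1 ≤ M → ∑ k ∈ Finset.Icc 1 M, (k : ℝ) ^ (-1 - s) ≤
      1 + 1 / s * (1 - (M : ℝ) ^ (-s)) := by
    intro M hM
    induction M, hM using Nat.le_induction with
    | base => simp
    | succ M hM ih =>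
      rw [Finset.sum_Icc_succ_top (by omega)]
      have := h1 M hM
      have h3 : 1 / s * (1 - (M : ℝ) ^ (-s)) + 1 / s * ((M : ℝ) ^ (-s) - ((M + 1 : ℕ) : ℝ) ^ (-s)) =
        1 / s * (1 - ((M + 1 : ℕ) : ℝ) ^ (-s)) := by ring
      linarith
  refine (h2 M hM).trans ?_
  have h3 : 0 ≤ (M : ℝ) ^ (-s) := by positivity
  have h4 : 0 < 1 / s := by positivity
  nlinarith

/-- Chebyshev. -/
lemma cheb (k : ℕ) : ∑ m ∈ Finset.Icc 1 k, (if m.Prime then Real.log m else 0) ≤ 2 * k := by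
  have h1 := Chebyshev.theta_le_log4_mul_x (x := (k : ℝ)) (Nat.cast_nonneg k)
  rw [Chebyshev.theta_eq_sum_Icc, Nat.floor_natCast, Finset.sum_filter] at h1
  have h2 : ∑ m ∈ Finset.Icc 1 k, (if m.Prime then Real.log m else 0) ≤
      ∑ m ∈ Finset.Icc 0 k, (if m.Prime then Real.log m else 0) := by
    refine Finset.sum_le_sum_of_subset_of_nonneg ?_ fun m _ _ => ?_
    · intro m hm
      rw [Finset.mem_Icc] at hm ⊢
      omega
    · split_ifs
      · exact Real.log_natCast_nonneg m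
      · exact le_rfl
  have h3 : Real.log 4 ≤ 2 := by
    have h4 : Real.log 4 = 2 * Real.log 2 := by
      rw [show (4 : ℝ) = 2 ^ 2 by norm_num, Real.log_pow]
      norm_num
    have := Real.log_two_lt_d9
    rw [h4]
    linarith
  have hk : (0 : ℝ) ≤ k := Nat.cast_nonneg k
  nlinarith

end L38

/-- L2 -/
theorem l2 (K : Type*) [Field K] [NumberField K] : StL2 K := by
  set d : ℝ := (Module.finrank ℚ K : ℝ) with hd
  have hd0 : 0 ≤ d := by rw [hd]; positivity
  refine ⟨32768 * d ^ 2, fun W δ hδ hδ1 x => ?_⟩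
  set f : ℕ → ℂ := fun n => (cp W n : ℂ) with hf
  set b : ℕ → ℂ := fun n => LSeries.term (LSeries.logMul f) ((1 + δ : ℝ) : ℂ) n with hb
  set β : ℕ → ℝ := fun n => if n.Prime then 2 * d * Real.log n * (n : ℝ) ^ (-(1 + δ)) else 0 with hβ
  have hβ0 : ∀ n, 0 ≤ β n := by
    intro n
    rw [hβ]
    simp only
    split_ifs
    · have := Real.log_natCast_nonneg n
      positivity
    · exact le_rfl
  have hbβ : ∀ n, ‖b n‖ ≤ β n := by
    intro n
    rw [hb, hβ]
    simp only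
    by_cases hn : n.Prime
    · rw [if_pos hn]
      have hn0 : n ≠ 0 := hn.ne_zero
      have hn1 : (0 : ℝ) < n := by exact_mod_cast hn.pos
      rw [LSeries.term_of_ne_zero hn0, norm_div]
      have h1 : ‖((n : ℂ) ^ (((1 + δ : ℝ) : ℂ)))‖ = (n : ℝ) ^ (1 + δ) := by
        rw [Complex.norm_natCast_cpow_of_pos hn.pos, Complex.ofReal_re]
      have h2 : ‖LSeries.logMul f n‖ ≤ 2 * d * Real.log n := by
        rw [LSeries.logMul, hf]
        simp only
        rw [norm_mul, Complex.norm_real, ← Complex.natCast_log, Complex.norm_real, Real.norm_eq_abs,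
          Real.norm_eq_abs, abs_of_nonneg (Real.log_natCast_nonneg n), mul_comm]
        refine mul_le_mul_of_nonneg_right ?_ (Real.log_natCast_nonneg n)
        refine (abs_cp_le W n).trans ?_
        have h3 : (rr K n : ℝ) ≤ d := by
          rw [hd]
          exact_mod_cast rr_le (K := K) hn
        linarith
      rw [h1, Real.rpow_neg hn1.le, ← div_eq_mul_inv]
      gcongr
    · rw [if_neg hn]
      have h1 : cp W n = 0 := cp_eq_zero W fun h => hn h.1
      have h2 : LSeries.term (LSeries.logMul f) ((1 + δ : ℝ) : ℂ) n = 0 := by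
        rw [LSeries.term_def]
        split_ifs
        · rfl
        · rw [LSeries.logMul, hf]
          simp [h1]
      rw [h2, norm_zero]
  -- the series
  have hab : LSeries.abscissaOfAbsConv f < ((1 + δ : ℝ) : EReal) := by
    have h1 : LSeriesSummable f (((1 + δ / 2 : ℝ)) : ℂ) :=
      (hasSum_cp W (w := ((1 + δ / 2 : ℝ) : ℂ)) (by rw [Complex.ofReal_re]; linarith)).LSeriesSummable
    have h2 := h1.abscissaOfAbsConv_le
    rw [Complex.ofReal_re] at h2
    refine h2.trans_lt ?_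
    exact_mod_cast (by linarith : (1 + δ / 2 : ℝ) < 1 + δ)
  have hre : ∀ t : ℝ, ((((1 + δ : ℝ) : ℂ) + t * Complex.I).re : EReal) = ((1 + δ : ℝ) : EReal) := by
    intro t
    congr 1
    simp
  have hterm : ∀ (t : ℝ) (n : ℕ), LSeries.term (LSeries.logMul f) (((1 + δ : ℝ) : ℂ) + t * Complex.I) n =
      b n * Complex.exp (((-(t * Real.log n) : ℝ) : ℂ) * Complex.I) := by
    intro t n
    rw [hb]
    simp only
    rcases Nat.eq_zero_or_pos n with rfl | hn
    · simp
    · rw [LSeries.term_of_ne_zero hn.ne', LSeries.term_of_ne_zero hn.ne',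
        Complex.cpow_add _ _ (by exact_mod_cast hn.ne')]
      have h1 : ((n : ℂ) ^ ((t : ℂ) * Complex.I))⁻¹ =
          Complex.exp (((-(t * Real.log n) : ℝ) : ℂ) * Complex.I) := by
        rw [Complex.cpow_def_of_ne_zero (by exact_mod_cast hn.ne'), ← Complex.exp_neg,
          ← Complex.natCast_log]
        congr 1
        push_cast
        ring
      rw [div_mul_eq_div_div, div_eq_mul_inv (_ / _) ((n : ℂ) ^ ((t : ℂ) * Complex.I)), h1]
  have hsb : Summable b := LSeriesSummable_logMul_of_lt_re (f := f) (s := ((1 + δ : ℝ) : ℂ))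
    (by rw [Complex.ofReal_re]; exact hab)
  have hsn : Summable fun n => ‖b n‖ := hsb.norm
  have hderiv : ∀ t : ℝ, HasSum (fun n => b n * Complex.exp (((-(t * Real.log n) : ℝ) : ℂ) * Complex.I))
      (-deriv (LSeries f) (((1 + δ : ℝ) : ℂ) + t * Complex.I)) := by
    intro t
    have h1 := LSeries_deriv (f := f) (s := ((1 + δ : ℝ) : ℂ) + t * Complex.I) (by rw [hre]; exact hab)
    have h2 : LSeriesSummable (LSeries.logMul f) (((1 + δ : ℝ) : ℂ) + t * Complex.I) :=
      LSeriesSummable_logMul_of_lt_re (by rw [hre]; exact hab)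
    rw [h1, neg_neg]
    have h3 := h2.hasSum
    have h4 : (fun n => b n * Complex.exp (((-(t * Real.log n) : ℝ) : ℂ) * Complex.I)) =
        LSeries.term (LSeries.logMul f) (((1 + δ : ℝ) : ℂ) + t * Complex.I) :=
      funext fun n => (hterm t n).symm
    rw [h4]
    exact h3
  -- bounds for the partial sums
  have hpart : ∀ N : ℕ, ∫ t in x..(x + 1), ‖∑ n ∈ Finset.range N,
      b n * Complex.exp (((-(t * Real.log n) : ℝ) : ℂ) * Complex.I)‖ ^ 2 ≤ 32768 * d ^ 2 / δ := by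
    intro N
    refine (L38.mean_sq (Finset.range N) b (fun n => Real.log n) x).trans ?_
    have h1 : ∑ m ∈ Finset.range N, ∑ n ∈ Finset.range N,
        ‖b m‖ * ‖b n‖ * Real.exp (-(Real.log m - Real.log n) ^ 2 / 2) ≤
        ∑ m ∈ Finset.range N, ∑ n ∈ Finset.range N,
        β m * β n * Real.exp (-(Real.log m - Real.log n) ^ 2 / 2) := by
      refine Finset.sum_le_sum fun m _ => Finset.sum_le_sum fun n _ => ?_
      have h2 := hbβ m
      have h3 := hbβ n
      have h4 := hβ0 m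
      gcongr
    have h2 := L38.double_sum (N := N) hβ0 (by rw [hβ]; simp [Nat.not_prime_zero])
    have h3 : ∀ k ∈ Finset.Icc 1 (2 * N),
        (∑ m ∈ Finset.Icc 1 k, β m * (m : ℝ) ^ 2) ^ 2 / (k : ℝ) ^ 5 ≤
        16 * d ^ 2 * (k : ℝ) ^ (-1 - 2 * δ) := by
      intro k hk
      rw [Finset.mem_Icc] at hk
      have hk0 : (0 : ℝ) < k := by exact_mod_cast hk.1
      have h4 : ∑ m ∈ Finset.Icc 1 k, β m * (m : ℝ) ^ 2 ≤ 4 * d * (k : ℝ) ^ (2 - δ) := by
        have h5 : ∀ m ∈ Finset.Icc 1 k, β m * (m : ℝ) ^ 2 ≤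
            2 * d * (k : ℝ) ^ (1 - δ) * (if m.Prime then Real.log m else 0) := by
          intro m hm
          rw [Finset.mem_Icc] at hm
          rw [hβ]
          simp only
          split_ifs with hp
          · have hm0 : (0 : ℝ) < m := by exact_mod_cast hm.1
            have h6 : (m : ℝ) ^ (-(1 + δ)) * (m : ℝ) ^ 2 = (m : ℝ) ^ (1 - δ) := by
              rw [← Real.rpow_natCast, ← Real.rpow_add hm0]
              congr 1
              push_cast
              ring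
            have h7 : (m : ℝ) ^ (1 - δ) ≤ (k : ℝ) ^ (1 - δ) :=
              Real.rpow_le_rpow hm0.le (by exact_mod_cast hm.2) (by linarith)
            have h8 := Real.log_natCast_nonneg m
            calc 2 * d * Real.log m * (m : ℝ) ^ (-(1 + δ)) * (m : ℝ) ^ 2
                = 2 * d * Real.log m * ((m : ℝ) ^ (-(1 + δ)) * (m : ℝ) ^ 2) := by ring
              _ = 2 * d * Real.log m * (m : ℝ) ^ (1 - δ) := by rw [h6]
              _ ≤ 2 * d * Real.log m * (k : ℝ) ^ (1 - δ) := by gcongr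
              _ = _ := by ring
          · simp
        refine (Finset.sum_le_sum h5).trans ?_
        rw [← Finset.mul_sum]
        have h6 := L38.cheb k
        have h7 : (k : ℝ) ^ (2 - δ) = (k : ℝ) ^ (1 - δ) * k := by
          rw [← Real.rpow_add_one hk0.ne']
          congr 1
          ring
        rw [h7]
        have h8 : 0 ≤ 2 * d * (k : ℝ) ^ (1 - δ) := by positivity
        nlinarith
      have h9 : 0 ≤ ∑ m ∈ Finset.Icc 1 k, β m * (m : ℝ) ^ 2 :=
        Finset.sum_nonneg fun m _ => mul_nonneg (hβ0 m) (by positivity)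
      have h10 : (k : ℝ) ^ (-1 - 2 * δ) = ((k : ℝ) ^ (2 - δ)) ^ 2 / (k : ℝ) ^ 5 := by
        rw [← Real.rpow_natCast ((k : ℝ) ^ (2 - δ)), ← Real.rpow_mul hk0.le, ← Real.rpow_natCast (k : ℝ) 5,
          ← Real.rpow_sub hk0]
        congr 1
        push_cast
        ring
      rw [h10]
      calc (∑ m ∈ Finset.Icc 1 k, β m * (m : ℝ) ^ 2) ^ 2 / (k : ℝ) ^ 5
          ≤ (4 * d * (k : ℝ) ^ (2 - δ)) ^ 2 / (k : ℝ) ^ 5 := by gcongr
        _ = _ := by ring
    have h4 : ∑ k ∈ Finset.Icc 1 (2 * N), (∑ m ∈ Finset.Icc 1 k, β m * (m : ℝ) ^ 2) ^ 2 / (k : ℝ) ^ 5 ≤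
        16 * d ^ 2 * (2 / δ) := by
      refine (Finset.sum_le_sum h3).trans ?_
      rw [← Finset.mul_sum]
      refine mul_le_mul_of_nonneg_left ?_ (by positivity)
      refine (L38.zeta_sum (s := 2 * δ) (by linarith) (2 * N)).trans ?_
      have h5 : 1 ≤ 1 / δ := by rw [le_div_iff₀ hδ]; linarith
      have h6 : 1 / (2 * δ) = 1 / 2 * (1 / δ) := by field_simp
      have h7 : 2 / δ = 2 * (1 / δ) := by ring
      rw [h6, h7]
      linarith
    calc 4 * ∑ m ∈ Finset.range N, ∑ n ∈ Finset.range N,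
        ‖b m‖ * ‖b n‖ * Real.exp (-(Real.log m - Real.log n) ^ 2 / 2)
        ≤ 4 * (256 * (16 * d ^ 2 * (2 / δ))) := by
          refine mul_le_mul_of_nonneg_left (h1.trans (h2.trans ?_)) (by norm_num)
          exact mul_le_mul_of_nonneg_left h4 (by norm_num)
      _ = 32768 * d ^ 2 / δ := by ring
  -- the limit
  have hlim : Tendsto (fun N : ℕ => ∫ t in x..(x + 1), ‖∑ n ∈ Finset.range N,
      b n * Complex.exp (((-(t * Real.log n) : ℝ) : ℂ) * Complex.I)‖ ^ 2) atTop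
      (𝓝 (∫ t in x..(x + 1), ‖deriv (LSeries f) (((1 + δ : ℝ) : ℂ) + t * Complex.I)‖ ^ 2)) := by
    refine intervalIntegral.tendsto_integral_filter_of_dominated_convergence
      (fun _ => (∑' n, ‖b n‖) ^ 2) (Eventually.of_forall fun N => ?_)
      (Eventually.of_forall fun N => Eventually.of_forall fun t _ => ?_) ?_
      (Eventually.of_forall fun t _ => ?_)
    · refine Continuous.aestronglyMeasurable ?_
      fun_prop
    · rw [Real.norm_eq_abs, abs_of_nonneg (by positivity)]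
      refine pow_le_pow_left₀ (norm_nonneg _) ?_ 2
      refine (norm_sum_le _ _).trans ?_
      refine le_trans (Finset.sum_le_sum fun n _ => ?_) (hsn.sum_le_tsum (Finset.range N)
        fun n _ => norm_nonneg _)
      rw [norm_mul, Complex.norm_exp_ofReal_mul_I, mul_one]
    · exact intervalIntegrable_const
    · have h1 := ((hderiv t).tendsto_sum_nat).norm.pow 2
      rw [norm_neg] at h1
      exact h1
  exact le_of_tendsto hlim (Eventually.of_forall hpart)

end Pool.Agent.Lib.MP_bf61d2_nt.MV59
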