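import Mathlib
import Pool.Agent.Lib.MP_bf61d2_nt.Trim.Analytic
import Pool.Agent.Lib.MP_bf61d2_nt.Trim.Hardy.LogL
import Pool.Agent.Lib.MP_bf61d2_nt.Trim.Line
import Pool.Agent.Lib.MP_bf61d2_nt.Trim.Places
import Pool.Agent.Lib.MP_bf61d2_nt.Trim.PrimeSum
import Pool.Agent.Lib.MP_bf61d2_nt.Trim.Structure

set_option autoImplicit false

/-!
Mean values of the coefficients `a_n` of `L(E/K, s)`: the polynomial bound, the logarithmic
derivative and a weighted integral of a function with bounded local integrals.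
-/

namespace NumberField
end NumberField

namespace Pool.Agent.Lib.MP_bf61d2_nt.Hardy
end Pool.Agent.Lib.MP_bf61d2_nt.Hardy

namespace Pool.Agent.Lib.MP_bf61d2_nt.MV59

open MeasureTheory Set Filter Topology NumberField IsDedekindDomain Hardy

lemma PS_uniform (K : Type*) [Field K] [NumberField K] :
    ∃ C : ℝ, 0 ≤ C ∧ ∀ δ : ℝ, 0 < δ → δ ≤ 1 → PS K (1 + δ) ≤ Real.log (1 / δ) + C := by
  obtain ⟨C, hC0, hC⟩ := PS_bound K
  rw [eventually_nhdsWithin_iff, Metric.eventually_nhds_iff] at hC
  obtain ⟨ε, hε, h⟩ := hC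
  have hδ₁ : 0 < min (ε / 2) 1 := lt_min (by linarith) one_pos
  refine ⟨C + |PS K (1 + min (ε / 2) 1)|, by positivity, fun δ hδ hδ1 => ?_⟩
  have h0 : 0 ≤ Real.log (1 / δ) := Real.log_nonneg (by rw [le_div_iff₀ hδ]; linarith)
  have h3 := le_abs_self (PS K (1 + min (ε / 2) 1))
  have h4 := abs_nonneg (PS K (1 + min (ε / 2) 1))
  rcases le_total δ (min (ε / 2) 1) with h1 | h1
  · have h2 := h (y := 1 + δ) (by
      rw [Real.dist_eq, add_sub_cancel_left, abs_of_pos hδ]
      have := h1.trans (min_le_left _ _)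
      linarith) (by simpa using hδ)
    rw [add_sub_cancel_left] at h2
    have := (abs_le.mp h2).2
    linarith
  · have h2 := PS_anti (K := K) (σ := 1 + min (ε / 2) 1) (τ := 1 + δ) (by linarith) (by linarith)
    linarith

/-- The polynomial bound near the line. -/
theorem L_poly (K : Type*) [Field K] [NumberField K] :
    ∃ C : ℝ, 0 ≤ C ∧ ∀ (W : WeierstrassCurve K) (δ t : ℝ), 0 < δ → δ ≤ 1 →
      ‖W.LSeries (((3 / 2 + δ : ℝ) : ℂ) + t * Complex.I)‖ ≤ C * δ ^ (-(2 : ℝ)) := by
  obtain ⟨C, hC0, hC⟩ := PS_uniform K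
  refine ⟨Real.exp (2 * C + RB K), (Real.exp_pos _).le, fun W δ t hδ hδ1 => ?_⟩
  rw [← exp_FL W (line_mem hδ t), Complex.norm_exp]
  have h1 := (Complex.re_le_norm _).trans (norm_FL_le W hδ t)
  have h2 := hC δ hδ hδ1
  rw [Real.rpow_def_of_pos hδ, ← Real.exp_add, Real.exp_le_exp]
  rw [one_div, Real.log_inv] at h2
  linarith

lemma abscissa_cp (K : Type*) [Field K] [NumberField K] (W : WeierstrassCurve K) :
    LSeries.abscissaOfAbsConv (fun n => (cp W n : ℂ)) ≤ (1 : ℝ) := by
  refine LSeries.abscissaOfAbsConv_le_of_forall_lt_LSeriesSummable fun y hy => ?_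
  exact (hasSum_cp W (w := y) (by simpa using hy)).LSeriesSummable

lemma abscissa_L {K : Type*} [Field K] [NumberField K] (W : WeierstrassCurve K) :
    LSeries.abscissaOfAbsConv (fun n => (W.LFunction n : ℂ)) ≤ (3 / 2 : ℝ) := by
  refine LSeries.abscissaOfAbsConv_le_of_forall_lt_LSeriesSummable fun y hy => ?_
  exact (lseries_euler W (s := y) (by simpa using hy)).1

variable {K : Type*} [Field K] [NumberField K] (W : WeierstrassCurve K)

/-- The logarithmic derivative on a vertical line. -/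
noncomputable def DD (δ t : ℝ) : ℂ :=
  deriv (LSeries fun n => (cp W n : ℂ)) (((1 + δ : ℝ) : ℂ) + t * Complex.I) +
    deriv (Rem W) (((3 / 2 + δ : ℝ) : ℂ) + t * Complex.I)

lemma LSeries_logMul {δ : ℝ} (hδ : 0 < δ) (t : ℝ) :
    LSeries (LSeries.logMul fun n => (W.LFunction n : ℂ)) (((3 / 2 + δ : ℝ) : ℂ) + t * Complex.I) =
      -(W.LSeries (((3 / 2 + δ : ℝ) : ℂ) + t * Complex.I) * DD W δ t) := by
  have hs := line_mem hδ t
  set s : ℂ := ((3 / 2 + δ : ℝ) : ℂ) + t * Complex.I with hsdef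
  have h1 : LSeries.abscissaOfAbsConv (fun n => (W.LFunction n : ℂ)) < s.re :=
    lt_of_le_of_lt (abscissa_L W) (by exact_mod_cast hs)
  have h2 := LSeries_deriv h1
  have h3 : deriv (LSeries fun n => (W.LFunction n : ℂ)) s = W.LSeries s * DD W δ t := by
    have e1 : (LSeries fun n => (W.LFunction n : ℂ)) =ᶠ[𝓝 s] fun z => Complex.exp (FL W z) := by
      filter_upwards [(isOpen_half (3 / 2)).mem_nhds hs] with z hz
      rw [exp_FL W hz]
      rfl
    rw [e1.deriv_eq]
    have hF : DifferentiableAt ℂ (FL W) s :=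
      (differentiableOn_FL W).differentiableAt ((isOpen_half (3 / 2)).mem_nhds hs)
    have e2 : deriv (fun z => Complex.exp (FL W z)) s = Complex.exp (FL W s) * deriv (FL W) s :=
      (hF.hasDerivAt.cexp).deriv
    rw [e2, exp_FL W hs]
    congr 1
    have hR : DifferentiableAt ℂ (Rem W) s :=
      (differentiableOn_Rem W).differentiableAt ((isOpen_half (3 / 2)).mem_nhds hs)
    have e3 : s - 1 / 2 = ((1 + δ : ℝ) : ℂ) + t * Complex.I := by
      rw [hsdef]; push_cast; ring
    have h4 : LSeries.abscissaOfAbsConv (fun n => (cp W n : ℂ)) < (s - 1 / 2).re := by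
      refine lt_of_le_of_lt (abscissa_cp K W) ?_
      have : (1 : ℝ) < (s - 1 / 2).re := by
        rw [e3]; simp [hδ]
      exact_mod_cast this
    have hC : DifferentiableAt ℂ (LSeries fun n => (cp W n : ℂ)) (s - 1 / 2) :=
      (LSeries_hasDerivAt h4).differentiableAt
    have hC2 : HasDerivAt (fun z : ℂ => (LSeries fun n => (cp W n : ℂ)) (z - 1 / 2))
        (deriv (LSeries fun n => (cp W n : ℂ)) (s - 1 / 2)) s := by
      have := hC.hasDerivAt.comp_sub_const s (1 / 2)
      exact this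
    have h5 : HasDerivAt (FL W) (deriv (LSeries fun n => (cp W n : ℂ)) (s - 1 / 2) +
        deriv (Rem W) s) s := hC2.add hR.hasDerivAt
    rw [h5.deriv, e3, DD, hsdef]
  rw [h3] at h2
  rw [h2, neg_neg]

lemma continuous_DD {δ : ℝ} (hδ : 0 < δ) : Continuous (DD W δ) := by
  unfold DD
  refine Continuous.add ?_ ?_
  · have h1 : DifferentiableOn ℂ (LSeries fun n => (cp W n : ℂ)) {s : ℂ | 1 < s.re} := by
      intro s hs
      have h4 : LSeries.abscissaOfAbsConv (fun n => (cp W n : ℂ)) < s.re := by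
        refine lt_of_le_of_lt (abscissa_cp K W) ?_
        have : (1 : ℝ) < s.re := hs
        exact_mod_cast this
      exact (LSeries_hasDerivAt h4).differentiableAt.differentiableWithinAt
    have h2 := (h1.deriv (isOpen_half 1)).continuousOn
    refine h2.comp_continuous (by fun_prop) fun t => ?_
    simp [hδ]
  · have h2 := ((differentiableOn_Rem W).deriv (isOpen_half (3 / 2))).continuousOn
    exact h2.comp_continuous (by fun_prop) fun t => line_mem hδ t

lemma continuous_dcp {δ : ℝ} (hδ : 0 < δ) :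
    Continuous fun t : ℝ => deriv (LSeries fun n => (cp W n : ℂ)) (((1 + δ : ℝ) : ℂ) + t * Complex.I) := by
  have h1 : DifferentiableOn ℂ (LSeries fun n => (cp W n : ℂ)) {s : ℂ | 1 < s.re} := by
    intro s hs
    have h4 : LSeries.abscissaOfAbsConv (fun n => (cp W n : ℂ)) < s.re := by
      refine lt_of_le_of_lt (abscissa_cp K W) ?_
      have : (1 : ℝ) < s.re := hs
      exact_mod_cast this
    exact (LSeries_hasDerivAt h4).differentiableAt.differentiableWithinAt
  have h2 := (h1.deriv (isOpen_half 1)).continuousOn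
  refine h2.comp_continuous (by fun_prop) fun t => ?_
  simp [hδ]

/-- The weight. -/
noncomputable def ww (t : ℝ) : ℝ := (1 + ‖t‖) ^ (-(6 / 5) : ℝ)

lemma ww_pos (t : ℝ) : 0 < ww t := Real.rpow_pos_of_pos (by positivity) _

lemma integrable_ww : Integrable ww := by
  have := integrable_one_add_norm (E := ℝ) (μ := volume) (r := 6 / 5) (by norm_num)
  exact this

lemma continuous_ww : Continuous ww := by
  unfold ww
  refine Continuous.rpow_const (by fun_prop) fun t => Or.inl ?_
  have := norm_nonneg t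
  positivity

lemma ww_le {t u : ℝ} (h : |u - t| ≤ 1) : ww t ≤ 4 * ww u := by
  unfold ww
  have h1 : 1 + ‖u‖ ≤ 2 * (1 + ‖t‖) := by
    have : ‖u‖ ≤ ‖t‖ + ‖u - t‖ := by
      have := norm_add_le t (u - t)
      rwa [add_sub_cancel] at this
    rw [Real.norm_eq_abs (u - t)] at this
    have := norm_nonneg t
    linarith
  have h2 : (0 : ℝ) < 1 + ‖u‖ := by positivity
  have h3 : (0 : ℝ) < 1 + ‖t‖ := by positivity
  have h4 : (2 * (1 + ‖t‖)) ^ (-(6 / 5) : ℝ) ≤ (1 + ‖u‖) ^ (-(6 / 5) : ℝ) :=
    Real.rpow_le_rpow_of_nonpos h2 h1 (by norm_num)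
  rw [Real.mul_rpow (by norm_num) h3.le] at h4
  have h5 : (4 : ℝ)⁻¹ ≤ (2 : ℝ) ^ (-(6 / 5) : ℝ) := by
    have : (2 : ℝ) ^ (-(2 : ℝ)) ≤ (2 : ℝ) ^ (-(6 / 5) : ℝ) :=
      Real.rpow_le_rpow_of_exponent_le (by norm_num) (by norm_num)
    have e : (2 : ℝ) ^ (-(2 : ℝ)) = (4 : ℝ)⁻¹ := by
      rw [Real.rpow_neg (by norm_num)]; norm_num
    rwa [e] at this
  have h6 : (0 : ℝ) < (1 + ‖t‖) ^ (-(6 / 5) : ℝ) := Real.rpow_pos_of_pos h3 _
  nlinarith

/-- A function with bounded local integrals, against the weight. -/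
lemma lint_local {f : ℝ → ENNReal} (hf : Measurable f) {M : ENNReal}
    (h : ∀ x : ℝ, ∫⁻ t in Ioc x (x + 1), f t ≤ M) :
    ∫⁻ t, f t * ENNReal.ofReal (ww t) ≤ 4 * (∫⁻ u, ENNReal.ofReal (ww u)) * M := by
  have hw : Measurable fun u : ℝ => ENNReal.ofReal (ww u) :=
    continuous_ww.measurable.ennreal_ofReal
  set S : Set (ℝ × ℝ) := {p | p.2 < p.1 ∧ p.1 ≤ p.2 + 1} with hS
  have hSm : MeasurableSet S :=
    (measurableSet_lt measurable_snd measurable_fst).inter
      (measurableSet_le measurable_fst (measurable_snd.add_const 1))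
  set g : ℝ → ℝ → ENNReal := fun t u => S.indicator (fun p => f p.1 * (4 * ENNReal.ofReal (ww p.2)))
    (t, u) with hg
  have hgm : Measurable (Function.uncurry g) := by
    refine Measurable.indicator ?_ hSm
    exact (hf.comp measurable_fst).mul ((hw.comp measurable_snd).const_mul 4)
  have h1 : ∀ t : ℝ, f t * ENNReal.ofReal (ww t) ≤ ∫⁻ u, g t u := by
    intro t
    have e1 : ∀ u, (Ico (t - 1) t).indicator (fun _ => f t * ENNReal.ofReal (ww t)) u ≤ g t u := by
      intro u
      by_cases hu : u ∈ Ico (t - 1) t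
      · rw [indicator_of_mem hu]
        have hm : (t, u) ∈ S := ⟨hu.2, by have := hu.1; show t ≤ u + 1; linarith⟩
        simp only [hg, indicator_of_mem hm]
        gcongr
        have h2 : ww t ≤ 4 * ww u := ww_le (by
          rw [abs_le]; constructor <;> [linarith [hu.1]; linarith [hu.2]])
        calc ENNReal.ofReal (ww t) ≤ ENNReal.ofReal (4 * ww u) := ENNReal.ofReal_le_ofReal h2
          _ = 4 * ENNReal.ofReal (ww u) := by
            rw [ENNReal.ofReal_mul (by norm_num)]; norm_num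
      · rw [indicator_of_notMem hu]
        exact zero_le
    calc f t * ENNReal.ofReal (ww t)
        = ∫⁻ u, (Ico (t - 1) t).indicator (fun _ => f t * ENNReal.ofReal (ww t)) u := by
          rw [lintegral_indicator measurableSet_Ico, setLIntegral_const, Real.volume_Ico]
          norm_num
      _ ≤ _ := lintegral_mono e1
  calc ∫⁻ t, f t * ENNReal.ofReal (ww t) ≤ ∫⁻ t, ∫⁻ u, g t u := lintegral_mono h1
    _ = ∫⁻ u, ∫⁻ t, g t u := lintegral_lintegral_swap hgm.aemeasurable
    _ ≤ ∫⁻ u, 4 * ENNReal.ofReal (ww u) * M := by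
        refine lintegral_mono fun u => ?_
        have e2 : ∀ t, g t u = (Ioc u (u + 1)).indicator (fun t => 4 * ENNReal.ofReal (ww u) * f t) t := by
          intro t
          by_cases ht : t ∈ Ioc u (u + 1)
          · have hm : (t, u) ∈ S := ⟨ht.1, ht.2⟩
            simp only [hg, indicator_of_mem hm, indicator_of_mem ht]
            ring
          · have hm : (t, u) ∉ S := fun h => ht ⟨h.1, h.2⟩
            simp only [hg, indicator_of_notMem hm, indicator_of_notMem ht]
        simp_rw [e2]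
        rw [lintegral_indicator measurableSet_Ioc, lintegral_const_mul _ hf]
        gcongr
        exact h u
    _ = _ := by
        rw [lintegral_mul_const _ (hw.const_mul 4), lintegral_const_mul _ hw]

end Pool.Agent.Lib.MP_bf61d2_nt.MV59
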