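import Mathlib
import Pool.Agent.Lib.MP_bf61d2_nt.Trim.Hardy.LogL
import Pool.Agent.Lib.MP_bf61d2_nt.Trim.Line
import Pool.Agent.Lib.MP_bf61d2_nt.Trim.MV59.Base59
import Pool.Agent.Lib.MP_bf61d2_nt.Trim.MV59.Stmts
import Pool.Agent.Lib.MP_bf61d2_nt.Trim.PrimeSum

set_option autoImplicit false

/-!
Mean values of the coefficients `a_n` of `L(E/K, s)`: one scale controls all larger scales.
-/

namespace NumberField
end NumberField

namespace Pool.Agent.Lib.MP_bf61d2_nt.Hardy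
end Pool.Agent.Lib.MP_bf61d2_nt.Hardy

namespace Pool.Agent.Lib.MP_bf61d2_nt.MV59

open MeasureTheory Set Filter Topology NumberField IsDedekindDomain Hardy

/-- The polynomial bound, at all larger scales. -/
theorem L_poly' (K : Type*) [Field K] [NumberField K] :
    ∃ C : ℝ, 0 ≤ C ∧ ∀ (W : WeierstrassCurve K) (δ₀ : ℝ) (s : ℂ), 0 < δ₀ → δ₀ ≤ 1 →
      3 / 2 + δ₀ ≤ s.re → ‖W.LSeries s‖ ≤ C * δ₀ ^ (-(2 : ℝ)) := by
  obtain ⟨C, hC0, hC⟩ := PS_uniform K
  refine ⟨Real.exp (2 * C + RB K), (Real.exp_pos _).le, fun W δ₀ s hδ hδ1 hs => ?_⟩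
  have hδ' : 0 < s.re - 3 / 2 := by linarith
  have es : s = (((3 / 2 + (s.re - 3 / 2) : ℝ)) : ℂ) + s.im * Complex.I := by
    apply Complex.ext <;> simp
  have h3 : 3 / 2 < s.re := by linarith
  rw [← exp_FL W h3, Complex.norm_exp]
  have h1 := (Complex.re_le_norm _).trans (norm_FL_le W hδ' s.im)
  rw [← es] at h1
  have h2 := hC δ₀ hδ hδ1
  have h4 := PS_anti (K := K) (σ := 1 + δ₀) (τ := 1 + (s.re - 3 / 2)) (by linarith) (by linarith)
  rw [Real.rpow_def_of_pos hδ, ← Real.exp_add, Real.exp_le_exp]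
  rw [one_div, Real.log_inv] at h2
  linarith

/-- (PH). -/
theorem ph (K : Type*) [Field K] [NumberField K] : StPH K := by
  obtain ⟨C₀, hC₀0, hC₀⟩ := L_poly' K
  refine ⟨2 * (1 + C₀), fun W δ₀ hδ₀ hδ₀1 G hG hL δ t hδ hδ1 ht => ?_⟩
  set s₀ : ℂ := ((3 / 2 + δ₀ : ℝ) : ℂ) + t * Complex.I with hs₀
  set f : ℂ → ℂ := fun z => W.LSeries (s₀ + z) * (1 + z)⁻¹ with hf
  have hre : ∀ z : ℂ, (s₀ + z).re = 3 / 2 + δ₀ + z.re := by
    intro z; simp [hs₀]
  have hne : ∀ z : ℂ, 0 ≤ z.re → (1 : ℝ) ≤ ‖1 + z‖ := by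
    intro z hz
    refine le_trans ?_ (Complex.abs_re_le_norm _)
    rw [Complex.add_re, Complex.one_re, abs_of_nonneg (by linarith)]
    linarith
  have hbd : ∀ z : ℂ, 0 ≤ z.re → ‖W.LSeries (s₀ + z)‖ ≤ C₀ * δ₀ ^ (-(2 : ℝ)) := by
    intro z hz
    exact hC₀ W δ₀ _ hδ₀ hδ₀1 (by rw [hre]; linarith)
  have hfb : ∀ z : ℂ, 0 ≤ z.re → ‖f z‖ ≤ C₀ * δ₀ ^ (-(2 : ℝ)) := by
    intro z hz
    rw [hf]
    simp only
    rw [norm_mul, norm_inv]
    have h1 := hne z hz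
    calc ‖W.LSeries (s₀ + z)‖ * ‖1 + z‖⁻¹ ≤ ‖W.LSeries (s₀ + z)‖ * 1 := by
          gcongr
          exact inv_le_one_of_one_le₀ h1
      _ ≤ _ := by rw [mul_one]; exact hbd z hz
  have hdL : ∀ z : ℂ, 0 ≤ z.re → DifferentiableAt ℂ (fun z => W.LSeries (s₀ + z)) z := by
    intro z hz
    have h1 : LSeries.abscissaOfAbsConv (fun n => (W.LFunction n : ℂ)) < (s₀ + z).re := by
      refine lt_of_le_of_lt (abscissa_L W) ?_
      have : (3 / 2 : ℝ) < (s₀ + z).re := by rw [hre]; linarith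
      exact_mod_cast this
    have h2 : DifferentiableAt ℂ (LSeries fun n => (W.LFunction n : ℂ)) (s₀ + z) :=
      (LSeries_hasDerivAt h1).differentiableAt
    exact h2.comp z (by fun_prop)
  have hd : DiffContOnCl ℂ f {z | 0 < z.re} := by
    apply DifferentiableOn.diffContOnCl
    rw [Complex.closure_setOfPred_lt_re]
    intro z hz
    refine DifferentiableAt.differentiableWithinAt ?_
    refine (hdL z hz).mul (DifferentiableAt.inv (by fun_prop) ?_)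
    intro h0
    have := hne z hz
    rw [h0, norm_zero] at this
    linarith
  have hexp : ∃ c < (2 : ℝ), ∃ B : ℝ,
      f =O[Bornology.cobounded ℂ ⊓ 𝓟 {z | 0 < z.re}] fun z => Real.exp (B * ‖z‖ ^ c) := by
    refine ⟨0, by norm_num, 0, ?_⟩
    rw [Asymptotics.isBigO_iff]
    refine ⟨C₀ * δ₀ ^ (-(2 : ℝ)), ?_⟩
    rw [eventually_inf_principal]
    refine Eventually.of_forall fun z hz => ?_
    have h1 := hfb z (le_of_lt hz)
    simpa using h1
  have hreal : IsBoundedUnder (· ≤ ·) atTop fun x : ℝ => ‖f x‖ := by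
    refine isBoundedUnder_of_eventually_le (a := C₀ * δ₀ ^ (-(2 : ℝ))) ?_
    filter_upwards [eventually_ge_atTop (0 : ℝ)] with x hx
    exact hfb x (by simpa using hx)
  have him : ∀ x : ℝ, ‖f (x * Complex.I)‖ ≤ (1 + C₀) * G := by
    intro x
    have e1 : s₀ + x * Complex.I = ((3 / 2 + δ₀ : ℝ) : ℂ) + ((t + x : ℝ) : ℂ) * Complex.I := by
      rw [hs₀]; push_cast; ring
    rcases le_or_gt |x| (δ₀ ^ (-(5 : ℝ))) with hx | hx
    · have h1 : ‖W.LSeries (s₀ + x * Complex.I)‖ ≤ G := by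
        rw [e1]
        refine hL (t + x) ?_
        exact (abs_add_le _ _).trans (by linarith)
      have h2 := hne (x * Complex.I) (by simp)
      rw [hf]
      simp only
      rw [norm_mul, norm_inv]
      calc ‖W.LSeries (s₀ + x * Complex.I)‖ * ‖1 + x * Complex.I‖⁻¹
          ≤ G * 1 := by
            gcongr
            exact inv_le_one_of_one_le₀ h2
        _ ≤ (1 + C₀) * G := by nlinarith
    · have h0 : (0 : ℝ) < δ₀ ^ (-(5 : ℝ)) := Real.rpow_pos_of_pos hδ₀ _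
      have h2 : |x| ≤ ‖1 + x * Complex.I‖ := by
        have := Complex.abs_im_le_norm (1 + x * Complex.I)
        simpa using this
      have h1 := hbd (x * Complex.I) (by simp)
      rw [hf]
      simp only
      rw [norm_mul, norm_inv]
      have e2 : δ₀ ^ (-(2 : ℝ)) * (δ₀ ^ (-(5 : ℝ)))⁻¹ = δ₀ ^ (3 : ℝ) := by
        rw [← Real.rpow_neg hδ₀.le, ← Real.rpow_add hδ₀]
        norm_num
      have e3 : δ₀ ^ (3 : ℝ) ≤ 1 := Real.rpow_le_one hδ₀.le hδ₀1 (by norm_num)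
      calc ‖W.LSeries (s₀ + x * Complex.I)‖ * ‖1 + x * Complex.I‖⁻¹
          ≤ C₀ * δ₀ ^ (-(2 : ℝ)) * (δ₀ ^ (-(5 : ℝ)))⁻¹ := by
            gcongr
            exact hx.le.trans h2
        _ = C₀ * δ₀ ^ (3 : ℝ) := by rw [mul_assoc, e2]
        _ ≤ C₀ * 1 := by gcongr
        _ ≤ (1 + C₀) * G := by nlinarith
  have hmain := PhragmenLindelof.right_half_plane_of_bounded_on_real (z := ((δ - δ₀ : ℝ) : ℂ))
    hd hexp hreal him (by simp only [Complex.ofReal_re]; linarith)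
  have e4 : s₀ + ((δ - δ₀ : ℝ) : ℂ) = ((3 / 2 + δ : ℝ) : ℂ) + t * Complex.I := by
    rw [hs₀]; push_cast; ring
  rw [hf] at hmain
  simp only at hmain
  rw [e4, norm_mul, norm_inv] at hmain
  have e5 : ‖1 + ((δ - δ₀ : ℝ) : ℂ)‖ = 1 + (δ - δ₀) := by
    rw [← Complex.ofReal_one, ← Complex.ofReal_add, Complex.norm_real, Real.norm_of_nonneg]
    linarith
  rw [e5] at hmain
  have h6 : 0 < 1 + (δ - δ₀) := by linarith
  have h7 : ‖W.LSeries (((3 / 2 + δ : ℝ) : ℂ) + t * Complex.I)‖ ≤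
      (1 + C₀) * G * (1 + (δ - δ₀)) := by
    rw [← div_eq_mul_inv, div_le_iff₀ h6] at hmain
    exact hmain
  refine h7.trans ?_
  have h8 : 0 ≤ (1 + C₀) * G := by positivity
  nlinarith

end Pool.Agent.Lib.MP_bf61d2_nt.MV59
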