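import Mathlib

set_option autoImplicit false

/-!
Plancherel on the real line for functions in `L^1 ∩ L^2`.
-/

namespace Pool.Agent.Lib.MP_bf61d2_nt.MV59

open MeasureTheory Filter Topology FourierTransform

open scoped SchwartzMap ContDiff RealInnerProductSpace

/-- The integral Fourier transform and the `L^2` Fourier transform agree. -/
theorem fourier_ae_eq {φ : ℝ → ℂ} (h1 : Integrable φ) (h2 : MemLp φ 2 volume) :
    𝓕 φ =ᵐ[volume] ((𝓕 (h2.toLp φ) : Lp ℂ 2 (volume : Measure ℝ)) : ℝ → ℂ) := by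
  have hc : Continuous (𝓕 φ) :=
    VectorFourier.fourierIntegral_continuous Real.continuous_fourierChar
      (by exact continuous_inner) h1
  refine ae_eq_of_integral_contDiff_smul_eq hc.locallyIntegrable
    ((Lp.memLp _).locallyIntegrable (by norm_num)) fun g hg1 hg2 => ?_
  have hgc : HasCompactSupport (fun x => (g x : ℂ)) := hg2.comp_left (g := fun x : ℝ => (x : ℂ))
    (by simp)
  have hgd : ContDiff ℝ ∞ (fun x => (g x : ℂ)) := Complex.ofRealCLM.contDiff.comp hg1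
  set G : 𝓢(ℝ, ℂ) := hgc.toSchwartzMap hgd with hG
  have hGx : ∀ x, G x = (g x : ℂ) := fun x => rfl
  have e1 : ∀ f : ℝ → ℂ, ∫ x, g x • f x = ∫ x, G x • f x := by
    intro f
    congr 1
  rw [e1, e1]
  have e2 : ∫ x, G x • (𝓕 (h2.toLp φ) : Lp ℂ 2 (volume : Measure ℝ)) x = ∫ x, (𝓕 G) x • φ x := by
    have e3 := MeasureTheory.Lp.fourier_toTemperedDistribution_eq (h2.toLp φ)
    have e4 := congrArg (fun T : 𝓢'(ℝ, ℂ) => T G) e3
    simp only [TemperedDistribution.fourier_apply, Lp.toTemperedDistribution_apply] at e4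
    rw [← e4]
    refine integral_congr_ae ?_
    filter_upwards [h2.coeFn_toLp] with x hx
    rw [hx]
  rw [e2]
  have e5 := VectorFourier.integral_fourierIntegral_smul_eq_flip (μ := (volume : Measure ℝ))
    (ν := (volume : Measure ℝ)) (L := innerₗ ℝ) Real.continuous_fourierChar
    (by exact continuous_inner) G.integrable h1
  have e6 : ∀ ξ, VectorFourier.fourierIntegral Real.fourierChar (volume : Measure ℝ)
      (innerₗ ℝ).flip φ ξ = 𝓕 φ ξ := by
    intro ξ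
    rw [flip_innerₗ]
    rfl
  have e7 : ∀ ξ, VectorFourier.fourierIntegral Real.fourierChar (volume : Measure ℝ)
      (innerₗ ℝ) (G : ℝ → ℂ) ξ = (𝓕 G) ξ := by
    intro ξ
    rw [SchwartzMap.fourier_coe]
    rfl
  simp only [e6, e7] at e5
  exact e5.symm

theorem fourier_memLp {φ : ℝ → ℂ} (h1 : Integrable φ) (h2 : MemLp φ 2 volume) :
    MemLp (𝓕 φ) 2 volume :=
  (memLp_congr_ae (fourier_ae_eq h1 h2)).2 (Lp.memLp _)

theorem integral_norm_sq_eq {φ : ℝ → ℂ} : ((∫ x, ‖φ x‖ ^ 2 : ℝ) : ℂ)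
    = ∫ x, φ x * starRingEnd ℂ (φ x) := by
  rw [← integral_complex_ofReal]
  congr 1
  ext x
  rw [Complex.mul_conj, Complex.normSq_eq_norm_sq]

/-- Plancherel for `L^1 ∩ L^2`. -/
theorem plancherel {φ : ℝ → ℂ} (h1 : Integrable φ) (h2 : MemLp φ 2 volume) :
    ∫ x, ‖𝓕 φ x‖ ^ 2 = ∫ x, ‖φ x‖ ^ 2 := by
  have e1 := MeasureTheory.Lp.inner_fourier_eq (h2.toLp φ) (h2.toLp φ)
  rw [L2.inner_def, L2.inner_def] at e1
  have e2 : ∫ x, inner ℂ ((𝓕 (h2.toLp φ) : Lp ℂ 2 (volume : Measure ℝ)) x)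
      ((𝓕 (h2.toLp φ) : Lp ℂ 2 (volume : Measure ℝ)) x)
      = ∫ x, 𝓕 φ x * starRingEnd ℂ (𝓕 φ x) := by
    refine integral_congr_ae ?_
    filter_upwards [fourier_ae_eq h1 h2] with x hx
    rw [hx, RCLike.inner_apply]
  have e3 : ∫ x, inner ℂ ((h2.toLp φ) x) ((h2.toLp φ) x)
      = ∫ ζ, φ ζ * starRingEnd ℂ (φ ζ) := by
    refine integral_congr_ae ?_
    filter_upwards [h2.coeFn_toLp] with x hx
    rw [hx, RCLike.inner_apply]
  rw [e2, e3, ← integral_norm_sq_eq, ← integral_norm_sq_eq] at e1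
  exact_mod_cast e1

end Pool.Agent.Lib.MP_bf61d2_nt.MV59
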