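import Mathlib
import Pool.Agent.Lib.MP_bf61d2_nt.Trim.MV59.PL59
import Pool.Agent.Lib.MP_bf61d2_nt.Trim.MV59.Stmts
import Pool.Agent.Lib.MP_bf61d2_nt.Trim.MV59X.BaseX59

set_option autoImplicit false

/-!
Mean values of the coefficients `a_n` of `L(E/K, s)`: summation by parts and Hardy's inequality.
-/

namespace NumberField
end NumberField

namespace Pool.Agent.Lib.MP_bf61d2_nt.Hardy
end Pool.Agent.Lib.MP_bf61d2_nt.Hardy

namespace Pool.Agent.Lib.MP_bf61d2_nt.MV59

open MeasureTheory Set Filter Topology NumberField IsDedekindDomain Hardy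

/-- The logarithmic mean of the summatory function. -/
noncomputable def HH (a : ℕ → ℂ) (u : ℝ) : ℂ := ∫ w in Ioc 1 u, ((w⁻¹ : ℝ) : ℂ) * AA a w

lemma AA_log {a : ℕ → ℂ} (h0 : a 0 = 0) (u : ℝ) :
    AA a u * Real.log u = AA (LSeries.logMul a) u + HH a u := by
  have hder : ∀ t : ℝ, t ≠ 0 → HasDerivAt (fun t : ℝ => ((Real.log t : ℝ) : ℂ)) ((t⁻¹ : ℝ) : ℂ) t :=
    fun t ht => (Real.hasDerivAt_log ht).ofReal_comp
  have h1 := sum_mul_eq_sub_integral_mul₀ (𝕜 := ℂ) (f := fun t : ℝ => ((Real.log t : ℝ) : ℂ))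
    a h0 u
    (fun t ht => (hder t (by have := ht.1; linarith)).differentiableAt) (by
      have : IntegrableOn (fun t : ℝ => ((t⁻¹ : ℝ) : ℂ)) (Icc 1 u) := by
        refine ContinuousOn.integrableOn_Icc ?_
        refine Complex.continuous_ofReal.comp_continuousOn ?_
        refine continuousOn_id.inv₀ fun t ht => ?_
        have := ht.1
        simp only [id]
        linarith
      refine this.congr_fun (fun t ht => ?_) measurableSet_Icc
      exact ((hder t (by have := ht.1; linarith)).deriv).symm)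
  have e0 : ∀ (f : ℕ → ℂ) (N : ℕ), f 0 = 0 → ∑ k ∈ Finset.Icc 0 N, f k = ∑ k ∈ Finset.Icc 1 N, f k := by
    intro f N hf
    rw [Finset.sum_subset (s₁ := Finset.Icc 1 N) (s₂ := Finset.Icc 0 N)]
    · intro k hk
      rw [Finset.mem_Icc] at hk ⊢
      omega
    · intro k hk hk'
      rw [Finset.mem_Icc] at hk hk'
      have : k = 0 := by omega
      rw [this, hf]
  rw [e0 _ _ (by simp [h0]), e0 _ _ h0] at h1
  have e1 : AA (LSeries.logMul a) u = ∑ k ∈ Finset.Icc 1 ⌊u⌋₊, ((Real.log (k : ℝ) : ℝ) : ℂ) * a k := by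
    rw [AA]
    refine Finset.sum_congr rfl fun k _ => ?_
    rw [LSeries.logMul, Complex.ofReal_log (Nat.cast_nonneg k), Complex.ofReal_natCast]
  have e2 : ∫ t in Ioc 1 u, deriv (fun t : ℝ => ((Real.log t : ℝ) : ℂ)) t *
      ∑ k ∈ Finset.Icc 0 ⌊t⌋₊, a k = HH a u := by
    rw [HH]
    refine setIntegral_congr_fun measurableSet_Ioc fun t ht => ?_
    rw [(hder t (by have := ht.1; linarith)).deriv, e0 _ _ h0, AA]
  rw [e2] at h1
  rw [e1, h1, AA]
  ring

lemma cs_sq {α : Type*} [MeasurableSpace α] (μ : Measure α) {f g : α → ENNReal}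
    (hf : AEMeasurable f μ) (hg : AEMeasurable g μ) :
    (∫⁻ a, f a * g a ∂μ) ^ 2 ≤ (∫⁻ a, f a ^ 2 ∂μ) * ∫⁻ a, g a ^ 2 ∂μ := by
  have hpq : Real.HolderConjugate 2 2 := ⟨by norm_num, by norm_num, by norm_num⟩
  have h := ENNReal.lintegral_mul_le_Lp_mul_Lq μ hpq hf hg
  simp only [Pi.mul_apply] at h
  have h2 := pow_le_pow_left' h 2
  refine h2.trans (le_of_eq ?_)
  rw [mul_pow, ← ENNReal.rpow_natCast, ← ENNReal.rpow_natCast, ← ENNReal.rpow_mul,
    ← ENNReal.rpow_mul]
  norm_num

lemma lintegral_rpow_Ici {r w : ℝ} (hr : 1 < r) (hw : 0 < w) :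
    ∫⁻ u in Ici w, ENNReal.ofReal (u ^ (-r)) = ENNReal.ofReal (w ^ (-(r - 1)) / (r - 1)) := by
  rw [setLIntegral_congr Ioi_ae_eq_Ici.symm, ← ofReal_integral_eq_lintegral_ofReal
    (integrableOn_Ioi_rpow_of_lt (by linarith) hw)]
  · rw [integral_Ioi_rpow_of_lt (by linarith) hw]
    congr 1
    have : -r + 1 = -(r - 1) := by ring
    rw [this, neg_div_neg_eq]
  · refine (ae_restrict_iff' measurableSet_Ioi).mpr (Eventually.of_forall fun u hu => ?_)
    exact Real.rpow_nonneg (hw.le.trans (le_of_lt hu)) _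

/-- Hardy's inequality. -/
lemma hardy_ineq (a : ℕ → ℂ) {δ : ℝ} (hδ : 0 < δ) :
    ∫⁻ u in Ioi (1 : ℝ), ENNReal.ofReal (‖HH a u‖ ^ 2 * u ^ (-(4 + 2 * δ))) ≤
      ∫⁻ u in Ioi (1 : ℝ), ENNReal.ofReal (‖AA a u‖ ^ 2 * u ^ (-(4 + 2 * δ))) := by
  set g : ℝ → ENNReal := fun w => ENNReal.ofReal (w⁻¹ * ‖AA a w‖) with hg
  have hgm : Measurable g := by
    refine Measurable.ennreal_ofReal ?_
    exact measurable_inv.mul (measurable_AA a).norm
  -- pointwise bound
  have h1 : ∀ u : ℝ, 1 < u → ENNReal.ofReal (‖HH a u‖ ^ 2 * u ^ (-(4 + 2 * δ))) ≤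
      ENNReal.ofReal (u ^ (-(3 + 2 * δ))) * ∫⁻ w in Ioc 1 u, g w ^ 2 := by
    intro u hu
    have hu0 : 0 < u := by linarith
    have h2 : ENNReal.ofReal ‖HH a u‖ ≤ ∫⁻ w in Ioc 1 u, g w := by
      rw [HH, ofReal_norm]
      refine (enorm_integral_le_lintegral_enorm _).trans ?_
      refine (setLIntegral_mono_ae' measurableSet_Ioc ?_)
      refine Eventually.of_forall fun w hw => ?_
      rw [← ofReal_norm, hg]
      simp only
      rw [norm_mul, Complex.norm_real, Real.norm_of_nonneg (inv_nonneg.mpr (by linarith [hw.1]))]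
    have h3 : (∫⁻ w in Ioc 1 u, g w) ^ 2 ≤ (∫⁻ w in Ioc 1 u, g w ^ 2) * ENNReal.ofReal u := by
      have := cs_sq (volume.restrict (Ioc 1 u)) (f := g) (g := fun _ => 1)
        hgm.aemeasurable aemeasurable_const
      simp only [mul_one, one_pow, lintegral_const, Measure.restrict_apply_univ, one_mul,
        Real.volume_Ioc] at this
      refine this.trans ?_
      gcongr
      linarith
    have h4 : ENNReal.ofReal (‖HH a u‖ ^ 2) ≤ (∫⁻ w in Ioc 1 u, g w ^ 2) * ENNReal.ofReal u := by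
      rw [ENNReal.ofReal_pow (norm_nonneg _)]
      exact (pow_le_pow_left' h2 2).trans h3
    have e1 : u ^ (-(3 + 2 * δ)) = u * u ^ (-(4 + 2 * δ)) := by
      nth_rewrite 2 [← Real.rpow_one u]
      rw [← Real.rpow_add hu0]
      ring_nf
    rw [ENNReal.ofReal_mul (by positivity), e1, ENNReal.ofReal_mul hu0.le]
    calc ENNReal.ofReal (‖HH a u‖ ^ 2) * ENNReal.ofReal (u ^ (-(4 + 2 * δ)))
        ≤ (∫⁻ w in Ioc 1 u, g w ^ 2) * ENNReal.ofReal u * ENNReal.ofReal (u ^ (-(4 + 2 * δ))) := by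
          gcongr
      _ = _ := by ring
  -- Tonelli
  set S : Set (ℝ × ℝ) := {p | 1 < p.2 ∧ p.2 ≤ p.1} with hS
  have hSm : MeasurableSet S :=
    (measurableSet_lt measurable_const measurable_snd).inter
      (measurableSet_le measurable_snd measurable_fst)
  set F : ℝ → ℝ → ENNReal := fun u w => S.indicator
    (fun p => ENNReal.ofReal (p.1 ^ (-(3 + 2 * δ))) * g p.2 ^ 2) (u, w) with hF
  have hrm : Measurable fun u : ℝ => ENNReal.ofReal (u ^ (-(3 + 2 * δ))) := by
    refine Measurable.ennreal_ofReal ?_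
    exact measurable_id.pow_const _
  have hFm : Measurable (Function.uncurry F) := by
    refine Measurable.indicator ?_ hSm
    exact (hrm.comp measurable_fst).mul ((hgm.comp measurable_snd).pow_const 2)
  calc ∫⁻ u in Ioi (1 : ℝ), ENNReal.ofReal (‖HH a u‖ ^ 2 * u ^ (-(4 + 2 * δ)))
      ≤ ∫⁻ u in Ioi (1 : ℝ), ENNReal.ofReal (u ^ (-(3 + 2 * δ))) * ∫⁻ w in Ioc 1 u, g w ^ 2 :=
        setLIntegral_mono_ae' measurableSet_Ioi (Eventually.of_forall fun u hu => h1 u hu)
    _ ≤ ∫⁻ u, ∫⁻ w, F u w := by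
        refine (setLIntegral_mono_ae' measurableSet_Ioi (Eventually.of_forall fun u _ => ?_)).trans
          (setLIntegral_le_lintegral _ _)
        rw [← lintegral_const_mul _ (hgm.pow_const 2), ← lintegral_indicator measurableSet_Ioc]
        refine lintegral_mono fun w => ?_
        by_cases hw : w ∈ Ioc 1 u
        · have hm : (u, w) ∈ S := ⟨hw.1, hw.2⟩
          simp only [hF, indicator_of_mem hm, indicator_of_mem hw, le_refl]
        · simp only [indicator_of_notMem hw]
          exact zero_le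
    _ = ∫⁻ w, ∫⁻ u, F u w := lintegral_lintegral_swap hFm.aemeasurable
    _ ≤ ∫⁻ w, (Ioi (1 : ℝ)).indicator
          (fun w => ENNReal.ofReal (‖AA a w‖ ^ 2 * w ^ (-(4 + 2 * δ)))) w := by
        refine lintegral_mono fun w => ?_
        by_cases hw : w ∈ Ioi (1 : ℝ)
        · have hw1 : 1 < w := hw
          have hw0 : 0 < w := by linarith
          rw [indicator_of_mem hw]
          have e2 : ∀ u, F u w = (Ici w).indicator
              (fun u => ENNReal.ofReal (u ^ (-(3 + 2 * δ))) * g w ^ 2) u := by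
            intro u
            by_cases hu : u ∈ Ici w
            · have hm : (u, w) ∈ S := ⟨hw1, hu⟩
              simp only [hF, indicator_of_mem hm, indicator_of_mem hu]
            · have hm : (u, w) ∉ S := fun h => hu h.2
              simp only [hF, indicator_of_notMem hm, indicator_of_notMem hu]
          simp_rw [e2]
          rw [lintegral_indicator measurableSet_Ici, lintegral_mul_const _ hrm,
            lintegral_rpow_Ici (by linarith) hw0, hg]
          simp only
          rw [← ENNReal.ofReal_pow (by positivity), ← ENNReal.ofReal_mul (by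
            have : 0 < 3 + 2 * δ - 1 := by linarith
            positivity)]
          refine ENNReal.ofReal_le_ofReal ?_
          have e3 : w ^ (-(4 + 2 * δ)) = w ^ (-(3 + 2 * δ - 1)) * (w⁻¹) ^ 2 := by
            rw [← Real.rpow_neg_one, ← Real.rpow_natCast, ← Real.rpow_mul hw0.le,
              ← Real.rpow_add hw0]
            congr 1
            push_cast
            ring
          rw [e3, mul_pow]
          have h5 : w ^ (-(3 + 2 * δ - 1)) / (3 + 2 * δ - 1) ≤ w ^ (-(3 + 2 * δ - 1)) :=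
            div_le_self (by positivity) (by linarith)
          calc w ^ (-(3 + 2 * δ - 1)) / (3 + 2 * δ - 1) * ((w⁻¹) ^ 2 * ‖AA a w‖ ^ 2)
              ≤ w ^ (-(3 + 2 * δ - 1)) * ((w⁻¹) ^ 2 * ‖AA a w‖ ^ 2) := by gcongr
            _ = _ := by ring
        · rw [indicator_of_notMem hw]
          have e2 : ∀ u, F u w = 0 := by
            intro u
            have hm : (u, w) ∉ S := fun h => hw h.1
            simp only [hF, indicator_of_notMem hm]
          simp_rw [e2, lintegral_zero]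
          exact le_rfl
    _ = _ := lintegral_indicator measurableSet_Ioi _

end Pool.Agent.Lib.MP_bf61d2_nt.MV59
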