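import Mathlib
import Pool.Agent.Lib.MP_bf61d2_nt.Trim.Analytic
import Pool.Agent.Lib.MP_bf61d2_nt.Trim.Hardy.LogL
import Pool.Agent.Lib.MP_bf61d2_nt.Trim.MV59.Base59
import Pool.Agent.Lib.MP_bf61d2_nt.Trim.MV59.Hardy59
import Pool.Agent.Lib.MP_bf61d2_nt.Trim.MV59.PL59
import Pool.Agent.Lib.MP_bf61d2_nt.Trim.MV59.Stmts
import Pool.Agent.Lib.MP_bf61d2_nt.Trim.Structure

set_option autoImplicit false

/-!
Mean values of the coefficients `a_n` of `L(E/K, s)`: the weighted mean square.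
-/

namespace NumberField
end NumberField

namespace Pool.Agent.Lib.MP_bf61d2_nt.Hardy
end Pool.Agent.Lib.MP_bf61d2_nt.Hardy

namespace Pool.Agent.Lib.MP_bf61d2_nt.MV59

open MeasureTheory Set Filter Topology NumberField IsDedekindDomain Hardy

lemma two_ofReal {x y : ℝ} (hx : 0 ≤ x) (hy : 0 ≤ y) :
    2 * ENNReal.ofReal x + 2 * ENNReal.ofReal y = ENNReal.ofReal (2 * x + 2 * y) := by
  have e5 : (2 : ENNReal) = ENNReal.ofReal 2 := by norm_num
  rw [e5, ← ENNReal.ofReal_mul (by norm_num), ← ENNReal.ofReal_mul (by norm_num),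
    ← ENNReal.ofReal_add (by positivity) (by positivity)]

lemma add_sq_le2 (x y : ℝ) : (x + y) ^ 2 ≤ 2 * x ^ 2 + 2 * y ^ 2 := by nlinarith [sq_nonneg (x - y)]

section

variable {K : Type*} [Field K] [NumberField K] (W : WeierstrassCurve K)

lemma bound_w {C₀ δ G : ℝ}
    (hC₀ : ∀ t : ℝ, ‖W.LSeries (((3 / 2 + δ : ℝ) : ℂ) + t * Complex.I)‖ ≤ C₀ * δ ^ (-(2 : ℝ)))
    (hδ : 0 < δ)
    (hL : ∀ t : ℝ, |t| ≤ δ ^ (-(5 : ℝ)) →
      ‖W.LSeries (((3 / 2 + δ : ℝ) : ℂ) + t * Complex.I)‖ ≤ G) (t : ℝ) :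
    ‖W.LSeries (((3 / 2 + δ : ℝ) : ℂ) + t * Complex.I)‖ ^ 2 / ((3 / 2 + δ) ^ 2 + t ^ 2) ≤
      2 * (G ^ 2 + C₀ ^ 2) * ww t := by
  set N : ℝ := ‖W.LSeries (((3 / 2 + δ : ℝ) : ℂ) + t * Complex.I)‖ with hN
  have ht0 : (0 : ℝ) < 1 + |t| := by positivity
  have h1 : N ^ 2 ≤ (G ^ 2 + C₀ ^ 2) * (1 + |t|) ^ (4 / 5 : ℝ) := by
    have hp : (1 : ℝ) ≤ (1 + |t|) ^ (4 / 5 : ℝ) :=
      Real.one_le_rpow (by linarith [abs_nonneg t]) (by norm_num)
    rcases le_or_gt |t| (δ ^ (-(5 : ℝ))) with h | h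
    · have h2 : N ^ 2 ≤ G ^ 2 := pow_le_pow_left₀ (norm_nonneg _) (hL t h) 2
      have h3 : (0 : ℝ) ≤ C₀ ^ 2 := by positivity
      have h4 : (0 : ℝ) ≤ G ^ 2 := by positivity
      nlinarith
    · have h2 : N ^ 2 ≤ (C₀ * δ ^ (-(2 : ℝ))) ^ 2 := pow_le_pow_left₀ (norm_nonneg _) (hC₀ t) 2
      have e1 : (δ ^ (-(2 : ℝ))) ^ 2 = (δ ^ (-(5 : ℝ))) ^ (4 / 5 : ℝ) := by
        rw [← Real.rpow_natCast, ← Real.rpow_mul hδ.le, ← Real.rpow_mul hδ.le]
        norm_num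
      have h5 : (δ ^ (-(5 : ℝ))) ^ (4 / 5 : ℝ) ≤ (1 + |t|) ^ (4 / 5 : ℝ) :=
        Real.rpow_le_rpow (by positivity) (by linarith) (by norm_num)
      rw [mul_pow, e1] at h2
      have h3 : (0 : ℝ) ≤ C₀ ^ 2 := by positivity
      have h4 : (0 : ℝ) ≤ G ^ 2 * (1 + |t|) ^ (4 / 5 : ℝ) := by positivity
      calc N ^ 2 ≤ C₀ ^ 2 * (δ ^ (-(5 : ℝ))) ^ (4 / 5 : ℝ) := h2
        _ ≤ C₀ ^ 2 * (1 + |t|) ^ (4 / 5 : ℝ) := by gcongr
        _ ≤ _ := by linarith
  have h2 : (1 + |t|) ^ 2 / 2 ≤ (3 / 2 + δ) ^ 2 + t ^ 2 := by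
    have := sq_abs t
    nlinarith [sq_nonneg (1 - |t|), abs_nonneg t]
  have h3 : (0 : ℝ) < (1 + |t|) ^ 2 / 2 := by positivity
  calc N ^ 2 / ((3 / 2 + δ) ^ 2 + t ^ 2)
      ≤ ((G ^ 2 + C₀ ^ 2) * (1 + |t|) ^ (4 / 5 : ℝ)) / ((1 + |t|) ^ 2 / 2) := by
        gcongr
    _ = 2 * (G ^ 2 + C₀ ^ 2) * ww t := by
        rw [ww, Real.norm_eq_abs]
        have e2 : (1 + |t|) ^ (-(6 / 5) : ℝ) = (1 + |t|) ^ (4 / 5 : ℝ) / (1 + |t|) ^ 2 := by
          rw [← Real.rpow_natCast, ← Real.rpow_sub ht0]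
          norm_num
        rw [e2]
        field_simp

lemma lint_DD {C₁ C₂ δ : ℝ} (hδ : 0 < δ)
    (h1 : ∀ x : ℝ, ∫ t in x..(x + 1), ‖deriv (LSeries fun n => (cp W n : ℂ))
      (((1 + δ : ℝ) : ℂ) + t * Complex.I)‖ ^ 2 ≤ C₁ / δ)
    (h2 : ∀ s : ℂ, 3 / 2 < s.re → ‖deriv (Rem W) s‖ ≤ C₂) :
    ∫⁻ t, ENNReal.ofReal (‖DD W δ t‖ ^ 2) * ENNReal.ofReal (ww t) ≤
      4 * (∫⁻ u, ENNReal.ofReal (ww u)) * ENNReal.ofReal (2 * (C₁ / δ) + 2 * C₂ ^ 2) := by
  refine lint_local ?_ fun x => ?_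
  · exact ((continuous_DD W hδ).norm.pow 2).measurable.ennreal_ofReal
  have hc : Continuous fun t : ℝ => ‖DD W δ t‖ ^ 2 := (continuous_DD W hδ).norm.pow 2
  have hc1 : Continuous fun t : ℝ => ‖deriv (LSeries fun n => (cp W n : ℂ))
      (((1 + δ : ℝ) : ℂ) + t * Complex.I)‖ ^ 2 := (continuous_dcp W hδ).norm.pow 2
  have hx : x ≤ x + 1 := by linarith
  rw [← ofReal_integral_eq_lintegral_ofReal
    ((intervalIntegrable_iff_integrableOn_Ioc_of_le hx).mp (hc.intervalIntegrable _ _))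
    (Eventually.of_forall fun t => by positivity), ← intervalIntegral.integral_of_le hx]
  refine ENNReal.ofReal_le_ofReal ?_
  have h3 : ∫ t in x..(x + 1), ‖DD W δ t‖ ^ 2 ≤ ∫ t in x..(x + 1),
      (2 * ‖deriv (LSeries fun n => (cp W n : ℂ)) (((1 + δ : ℝ) : ℂ) + t * Complex.I)‖ ^ 2 +
        2 * C₂ ^ 2) := by
    refine intervalIntegral.integral_mono hx (hc.intervalIntegrable _ _)
      (((hc1.const_mul 2).add continuous_const).intervalIntegrable _ _) fun t => ?_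
    simp only
    have h4 : ‖DD W δ t‖ ≤ ‖deriv (LSeries fun n => (cp W n : ℂ))
        (((1 + δ : ℝ) : ℂ) + t * Complex.I)‖ + C₂ :=
      (norm_add_le _ _).trans (by
        have := h2 _ (line_mem hδ t)
        gcongr)
    exact (pow_le_pow_left₀ (norm_nonneg _) h4 2).trans (add_sq_le2 _ _)
  refine h3.trans ?_
  rw [intervalIntegral.integral_add ((hc1.const_mul 2).intervalIntegrable _ _)
    (continuous_const.intervalIntegrable _ _), intervalIntegral.integral_const_mul,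
    intervalIntegral.integral_const, add_sub_cancel_left, one_smul]
  have := h1 x
  linarith

end

/-- (SQ). -/
theorem sq (K : Type*) [Field K] [NumberField K] (h2 : StL2 K) (hR : StRD K) : StSQ K := by
  obtain ⟨C₁, hC₁⟩ := h2
  obtain ⟨C₂, hC₂⟩ := hR
  obtain ⟨C₀, hC₀0, hC₀⟩ := L_poly K
  set Iw : ℝ := ∫ u, ww u with hIw
  have hIw0 : 0 ≤ Iw := integral_nonneg fun u => (ww_pos u).le
  have hIwl : ∫⁻ u, ENNReal.ofReal (ww u) = ENNReal.ofReal Iw :=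
    (ofReal_integral_eq_lintegral_ofReal integrable_ww
      (Eventually.of_forall fun u => (ww_pos u).le)).symm
  refine ⟨(1 + C₀ ^ 2) * Iw * (32 * |C₁| + 32 * C₂ ^ 2 + 4), fun W δ hδ hδ1 G hG hL => ?_⟩
  set c : ℝ := 3 / 2 + δ with hc
  set a : ℕ → ℂ := fun n => (W.LFunction n : ℂ) with ha
  have ha0 : a 0 = 0 := by simp [ha]
  have hGC : 0 ≤ G ^ 2 + C₀ ^ 2 := by positivity
  set M : ℝ := 2 * (|C₁| / δ) + 2 * C₂ ^ 2 with hM
  have hM0 : 0 ≤ M := by positivity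
  have hbw := bound_w W (fun t => hC₀ W δ t hδ hδ1) hδ hL
  -- Plancherel for `a`
  have habs := abscissa_L W
  have hs1 : LSeriesSummable a ((3 / 2 + δ / 2 : ℝ) : ℂ) := by
    refine (lseries_euler W (s := ((3 / 2 + δ / 2 : ℝ) : ℂ)) ?_).1
    simp only [Complex.ofReal_re]
    linarith
  have hs2 : LSeriesSummable (LSeries.logMul a) ((3 / 2 + δ / 2 : ℝ) : ℂ) := by
    refine LSeriesSummable_logMul_of_lt_re (lt_of_le_of_lt habs ?_)
    simp only [Complex.ofReal_re]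
    have : (3 / 2 : ℝ) < 3 / 2 + δ / 2 := by linarith
    exact_mod_cast this
  obtain ⟨hA1, hA2, hA3⟩ := pl a c (3 / 2 + δ / 2) (by positivity) (by rw [hc]; linarith) hs1
  obtain ⟨hB1, hB2, hB3⟩ := pl (LSeries.logMul a) c (3 / 2 + δ / 2) (by positivity)
    (by rw [hc]; linarith) hs2
  have eexp : ∀ u : ℝ, u ^ (-(2 * c + 1)) = u ^ (-(4 + 2 * δ)) := by
    intro u
    congr 1
    rw [hc]; ring
  simp_rw [eexp] at hA1 hA3 hB1 hB3
  have hpi : (2 * Real.pi)⁻¹ ≤ 1 := by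
    rw [inv_le_one₀ (by positivity)]
    linarith [Real.pi_gt_three]
  have hpi0 : 0 < (2 * Real.pi)⁻¹ := by positivity
  -- bound of the A integral
  set XA : ℝ := 2 * (G ^ 2 + C₀ ^ 2) * Iw with hXA
  have hAi : ∫ u in Ioi (1 : ℝ), ‖AA a u‖ ^ 2 * u ^ (-(4 + 2 * δ)) ≤ XA := by
    rw [hA3]
    have h3 : ∫ t : ℝ, ‖LSeries a (c + t * Complex.I)‖ ^ 2 / (c ^ 2 + t ^ 2) ≤ XA := by
      rw [hXA, hIw, ← integral_const_mul]
      exact integral_mono hA2 (integrable_ww.const_mul _) fun t => hbw t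
    have h4 : 0 ≤ ∫ t : ℝ, ‖LSeries a (c + t * Complex.I)‖ ^ 2 / (c ^ 2 + t ^ 2) :=
      integral_nonneg fun t => by positivity
    nlinarith
  -- bound of the B integral
  set XB : ℝ := 2 * (G ^ 2 + C₀ ^ 2) * (4 * Iw * M) with hXB
  have hXB0 : 0 ≤ XB := by positivity
  have hBi : ∫ u in Ioi (1 : ℝ), ‖AA (LSeries.logMul a) u‖ ^ 2 * u ^ (-(4 + 2 * δ)) ≤ XB := by
    rw [hB3]
    have h3 : ∫ t : ℝ, ‖LSeries (LSeries.logMul a) (c + t * Complex.I)‖ ^ 2 / (c ^ 2 + t ^ 2)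
        ≤ XB := by
      rw [integral_eq_lintegral_of_nonneg_ae (Eventually.of_forall fun t => by positivity)
        hB2.aestronglyMeasurable]
      refine ENNReal.toReal_le_of_le_ofReal hXB0 ?_
      calc ∫⁻ t : ℝ, ENNReal.ofReal
            (‖LSeries (LSeries.logMul a) (c + t * Complex.I)‖ ^ 2 / (c ^ 2 + t ^ 2))
          ≤ ∫⁻ t : ℝ, ENNReal.ofReal (2 * (G ^ 2 + C₀ ^ 2)) *
              (ENNReal.ofReal (‖DD W δ t‖ ^ 2) * ENNReal.ofReal (ww t)) := by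
            refine lintegral_mono fun t => ?_
            rw [← ENNReal.ofReal_mul (by positivity), ← ENNReal.ofReal_mul (by positivity)]
            refine ENNReal.ofReal_le_ofReal ?_
            rw [LSeries_logMul W hδ t, norm_neg, norm_mul, mul_pow]
            have h5 := hbw t
            have h6 : (0 : ℝ) ≤ ‖DD W δ t‖ ^ 2 := by positivity
            calc ‖W.LSeries (((3 / 2 + δ : ℝ) : ℂ) + t * Complex.I)‖ ^ 2 * ‖DD W δ t‖ ^ 2 /
                  (c ^ 2 + t ^ 2)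
                = ‖W.LSeries (((3 / 2 + δ : ℝ) : ℂ) + t * Complex.I)‖ ^ 2 /
                    ((3 / 2 + δ) ^ 2 + t ^ 2) * ‖DD W δ t‖ ^ 2 := by rw [hc]; ring
              _ ≤ 2 * (G ^ 2 + C₀ ^ 2) * ww t * ‖DD W δ t‖ ^ 2 := by gcongr
              _ = _ := by ring
        _ = ENNReal.ofReal (2 * (G ^ 2 + C₀ ^ 2)) * ∫⁻ t : ℝ,
              (ENNReal.ofReal (‖DD W δ t‖ ^ 2) * ENNReal.ofReal (ww t)) := by
            refine lintegral_const_mul _ ?_
            exact ((continuous_DD W hδ).norm.pow 2).measurable.ennreal_ofReal.mul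
              continuous_ww.measurable.ennreal_ofReal
        _ ≤ ENNReal.ofReal (2 * (G ^ 2 + C₀ ^ 2)) *
              (4 * (∫⁻ u, ENNReal.ofReal (ww u)) * ENNReal.ofReal M) := by
            gcongr
            refine lint_DD W hδ (fun x => ?_) (fun s hs => hC₂ W s hs)
            refine (hC₁ W δ hδ hδ1 x).trans ?_
            gcongr
            exact le_abs_self _
        _ = ENNReal.ofReal XB := by
            have e4 : (4 : ENNReal) = ENNReal.ofReal 4 := by norm_num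
            rw [hIwl, e4, ← ENNReal.ofReal_mul (by norm_num), ← ENNReal.ofReal_mul (by positivity),
              ← ENNReal.ofReal_mul (by positivity)]
    have h4 : 0 ≤ ∫ t : ℝ, ‖LSeries (LSeries.logMul a) (c + t * Complex.I)‖ ^ 2 /
        (c ^ 2 + t ^ 2) := integral_nonneg fun t => by positivity
    nlinarith
  -- the lintegral of the target
  have hrm : Measurable fun u : ℝ => u ^ (-(4 + 2 * δ)) := measurable_id.pow_const _
  have key : ∫⁻ u in Ioi (1 : ℝ), ENNReal.ofReal (‖AA a u‖ ^ 2 * Real.log u ^ 2 *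
      u ^ (-(4 + 2 * δ))) ≤ ENNReal.ofReal (2 * XB + 2 * XA) := by
    have hB4 : ∫⁻ u in Ioi (1 : ℝ), ENNReal.ofReal
        (‖AA (LSeries.logMul a) u‖ ^ 2 * u ^ (-(4 + 2 * δ))) ≤ ENNReal.ofReal XB := by
      rw [← ofReal_integral_eq_lintegral_ofReal hB1
        ((ae_restrict_iff' measurableSet_Ioi).mpr (Eventually.of_forall fun u hu => by
          have : (0 : ℝ) < u := lt_trans one_pos hu
          positivity))]
      exact ENNReal.ofReal_le_ofReal hBi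
    have hA4 : ∫⁻ u in Ioi (1 : ℝ), ENNReal.ofReal
        (‖AA a u‖ ^ 2 * u ^ (-(4 + 2 * δ))) ≤ ENNReal.ofReal XA := by
      rw [← ofReal_integral_eq_lintegral_ofReal hA1
        ((ae_restrict_iff' measurableSet_Ioi).mpr (Eventually.of_forall fun u hu => by
          have : (0 : ℝ) < u := lt_trans one_pos hu
          positivity))]
      exact ENNReal.ofReal_le_ofReal hAi
    have hH4 := (hardy_ineq a hδ).trans hA4
    calc ∫⁻ u in Ioi (1 : ℝ), ENNReal.ofReal (‖AA a u‖ ^ 2 * Real.log u ^ 2 *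
          u ^ (-(4 + 2 * δ)))
        ≤ ∫⁻ u in Ioi (1 : ℝ), (2 * ENNReal.ofReal
            (‖AA (LSeries.logMul a) u‖ ^ 2 * u ^ (-(4 + 2 * δ))) + 2 * ENNReal.ofReal
            (‖HH a u‖ ^ 2 * u ^ (-(4 + 2 * δ)))) := by
          refine setLIntegral_mono_ae' measurableSet_Ioi (Eventually.of_forall fun u hu => ?_)
          have hu0 : (0 : ℝ) < u := lt_trans one_pos hu
          have hp : (0 : ℝ) < u ^ (-(4 + 2 * δ)) := Real.rpow_pos_of_pos hu0 _
          have e5 : (2 : ENNReal) = ENNReal.ofReal 2 := by norm_num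
          rw [e5, ← ENNReal.ofReal_mul (by norm_num), ← ENNReal.ofReal_mul (by norm_num),
            ← ENNReal.ofReal_add (by positivity) (by positivity)]
          refine ENNReal.ofReal_le_ofReal ?_
          have h6 := AA_log ha0 u
          have h7 : ‖AA a u‖ ^ 2 * Real.log u ^ 2 ≤ 2 * ‖AA (LSeries.logMul a) u‖ ^ 2 +
              2 * ‖HH a u‖ ^ 2 := by
            have h8 : ‖AA a u * Real.log u‖ ≤ ‖AA (LSeries.logMul a) u‖ + ‖HH a u‖ := by
              rw [h6]; exact norm_add_le _ _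
            have h9 := pow_le_pow_left₀ (norm_nonneg _) h8 2
            rw [norm_mul, mul_pow, Complex.norm_real, Real.norm_eq_abs, sq_abs] at h9
            exact h9.trans (add_sq_le2 _ _)
          calc ‖AA a u‖ ^ 2 * Real.log u ^ 2 * u ^ (-(4 + 2 * δ))
              ≤ (2 * ‖AA (LSeries.logMul a) u‖ ^ 2 + 2 * ‖HH a u‖ ^ 2) * u ^ (-(4 + 2 * δ)) := by
                gcongr
            _ = _ := by ring
      _ = (2 * ∫⁻ u in Ioi (1 : ℝ), ENNReal.ofReal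
            (‖AA (LSeries.logMul a) u‖ ^ 2 * u ^ (-(4 + 2 * δ)))) + ∫⁻ u in Ioi (1 : ℝ),
            2 * ENNReal.ofReal (‖HH a u‖ ^ 2 * u ^ (-(4 + 2 * δ))) := by
          have hm1 : Measurable fun u : ℝ => ENNReal.ofReal
              (‖AA (LSeries.logMul a) u‖ ^ 2 * u ^ (-(4 + 2 * δ))) :=
            (((measurable_AA _).norm.pow_const 2).mul hrm).ennreal_ofReal
          rw [lintegral_add_left (hm1.const_mul 2), lintegral_const_mul _ hm1]
      _ ≤ 2 * ENNReal.ofReal XB + 2 * ENNReal.ofReal XA := by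
          have h9 : ∫⁻ u in Ioi (1 : ℝ), 2 * ENNReal.ofReal (‖HH a u‖ ^ 2 * u ^ (-(4 + 2 * δ))) =
              2 * ∫⁻ u in Ioi (1 : ℝ), ENNReal.ofReal (‖HH a u‖ ^ 2 * u ^ (-(4 + 2 * δ))) :=
            lintegral_const_mul' _ _ (by norm_num)
          rw [h9]
          gcongr
      _ = ENNReal.ofReal (2 * XB + 2 * XA) := by
          exact two_ofReal hXB0 (by positivity)
  have hmeas : Measurable fun u : ℝ => ‖AA a u‖ ^ 2 * Real.log u ^ 2 * u ^ (-(4 + 2 * δ)) :=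
    (((measurable_AA _).norm.pow_const 2).mul (Real.measurable_log.pow_const 2)).mul hrm
  have hint : IntegrableOn (fun u : ℝ => ‖AA a u‖ ^ 2 * Real.log u ^ 2 *
      u ^ (-(4 + 2 * δ))) (Ioi 1) := by
    refine ⟨hmeas.aestronglyMeasurable, ?_⟩
    rw [hasFiniteIntegral_iff_ofReal ((ae_restrict_iff' measurableSet_Ioi).mpr
      (Eventually.of_forall fun u hu => by
          have : (0 : ℝ) < u := lt_trans one_pos hu
          positivity))]
    exact lt_of_le_of_lt key ENNReal.ofReal_lt_top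
  refine ⟨hint, ?_⟩
  rw [integral_eq_lintegral_of_nonneg_ae ((ae_restrict_iff' measurableSet_Ioi).mpr
      (Eventually.of_forall fun u hu => by
          have : (0 : ℝ) < u := lt_trans one_pos hu
          positivity)) hmeas.aestronglyMeasurable]
  have h10 : (2 * XB + 2 * XA) ≤ (1 + C₀ ^ 2) * Iw * (32 * |C₁| + 32 * C₂ ^ 2 + 4) *
      (G ^ 2 + 1) / δ := by
    have h11 : G ^ 2 + C₀ ^ 2 ≤ (1 + C₀ ^ 2) * (G ^ 2 + 1) := by
      have h12 : 0 ≤ C₀ ^ 2 * G ^ 2 := by positivity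
      nlinarith
    have h13 : 2 * XB + 2 * XA = (G ^ 2 + C₀ ^ 2) * Iw * (16 * M + 4) := by
      rw [hXB, hXA]; ring
    have h14 : 16 * M + 4 ≤ (32 * |C₁| + 32 * C₂ ^ 2 + 4) / δ := by
      rw [le_div_iff₀ hδ, hM]
      have e6 : (16 * (2 * (|C₁| / δ) + 2 * C₂ ^ 2) + 4) * δ = 32 * |C₁| +
          (32 * C₂ ^ 2 + 4) * δ := by
        field_simp
        ring
      rw [e6]
      have h15 : 0 ≤ 32 * C₂ ^ 2 + 4 := by positivity
      nlinarith
    rw [h13]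
    calc (G ^ 2 + C₀ ^ 2) * Iw * (16 * M + 4)
        ≤ ((1 + C₀ ^ 2) * (G ^ 2 + 1)) * Iw * ((32 * |C₁| + 32 * C₂ ^ 2 + 4) / δ) := by gcongr
      _ = _ := by ring
  refine (ENNReal.toReal_le_of_le_ofReal (by positivity) key).trans h10

end Pool.Agent.Lib.MP_bf61d2_nt.MV59
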