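import Mathlib
import Pool.Agent.Lib.MP_bf61d2_nt.Trim.MV59.AB38
import Pool.Agent.Lib.MP_bf61d2_nt.Trim.MV59.BT90
import Pool.Agent.Lib.MP_bf61d2_nt.Trim.MV59.CV40
import Pool.Agent.Lib.MP_bf61d2_nt.Trim.MV59.L2x38
import Pool.Agent.Lib.MP_bf61d2_nt.Trim.MV59.PH59
import Pool.Agent.Lib.MP_bf61d2_nt.Trim.MV59.PW69
import Pool.Agent.Lib.MP_bf61d2_nt.Trim.MV59.RD38
import Pool.Agent.Lib.MP_bf61d2_nt.Trim.MV59.SQ59
import Pool.Agent.Lib.MP_bf61d2_nt.Trim.MV59.Stmts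

set_option autoImplicit false

/-!
Mean values of the coefficients `a_n` of `L(E/K, s)`: the pointwise bound, without hypotheses.
-/

namespace Pool.Agent.Lib.MP_bf61d2_nt.MV59

/-- (PW), all modules together. -/
theorem stPW_all (K : Type*) [Field K] [NumberField K] : StPW K :=
  stPW K (sq K (l2 K) (rd K)) (ph K) bt90 (ab K) (stCV K)

end Pool.Agent.Lib.MP_bf61d2_nt.MV59
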