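import Mathlib

set_option autoImplicit false

/-!
Mean values of the coefficients `a_n` of quadratic twists.
-/

namespace NumberField
end NumberField

namespace Pool.Agent.Lib.MP_bf61d2_nt.Hardy
end Pool.Agent.Lib.MP_bf61d2_nt.Hardy

namespace Pool.Agent.Lib.MP_bf61d2_nt.Artin
end Pool.Agent.Lib.MP_bf61d2_nt.Artin

namespace Pool.Agent.Lib.MP_bf61d2_nt.MV59

open MeasureTheory Set Filter Topology NumberField IsDedekindDomain Hardy Artin

section

variable {K : Type*} [Field K] [NumberField K]

end

/-- The growth conditions. -/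
lemma eventually_small (C' R : ℝ) (hC' : 0 < C') :
    Tendsto (fun l : ℝ => (Real.log (C' * (1 + l)) + R) / l) atTop (𝓝 0) ∧
    Tendsto (fun l : ℝ => Real.log (4 + 5 * l) / l) atTop (𝓝 0) := by
  have key : ∀ a b : ℝ, 0 < b → Tendsto (fun l : ℝ => Real.log (a + b * l) / l) atTop (𝓝 0) := by
    intro a b hb
    have h1 : Tendsto (fun l : ℝ => a + b * l) atTop atTop :=
      tendsto_atTop_add_const_left _ _ (tendsto_id.const_mul_atTop hb)
    have h2 := Real.isLittleO_log_id_atTop.comp_tendsto h1
    have h3 : (id ∘ fun l : ℝ => a + b * l) =O[atTop] fun l : ℝ => l := by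
      refine Asymptotics.IsBigO.add ?_ ?_
      · exact (Asymptotics.isLittleO_const_id_atTop a).isBigO
      · exact (Asymptotics.isBigO_refl (fun l : ℝ => l) atTop).const_mul_left b
    exact (h2.trans_isBigO h3).tendsto_div_nhds_zero
  refine ⟨?_, key 4 5 (by norm_num)⟩
  have h1 := key C' C' hC'
  have h2 : Tendsto (fun l : ℝ => R / l) atTop (𝓝 0) := tendsto_const_nhds.div_atTop tendsto_id
  have h3 := h1.add h2
  rw [add_zero] at h3
  refine h3.congr fun l => ?_
  rw [← add_div]
  congr 3
  ring

end Pool.Agent.Lib.MP_bf61d2_nt.MV59
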